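import Pool.Agent.K6.H62.PR.Stm

set_option autoImplicit false

open Complex Filter Topology

namespace Pool.Agent.K6.H62.PR

namespace ABL

/-- the difference of the powers -/
noncomputable def g (n : ℕ) (s : ℂ) : ℂ :=
  (n : ℂ) ^ (-s) - ((n : ℂ) + 1) ^ (-s) - s * (n : ℂ) ^ (-s - 1)

theorem hd (r : ℂ) (x : ℝ) (hx : 0 < x) :
    HasDerivAt (fun y : ℝ => (y : ℂ) ^ r) (r * (x : ℂ) ^ (r - 1)) x := by
  have h := (hasDerivAt_id (x : ℂ)).cpow_const (c := r) (Or.inl (by simpa using hx))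
  have h2 := h.comp_ofReal
  simpa using h2

theorem g_bd (s : ℂ) (hs : 0 < s.re) (n : ℕ) (hn : 1 ≤ n) :
    ‖g n s‖ ≤ ‖s‖ * ‖s + 1‖ * (n : ℝ) ^ (-s.re - 2) := by
  have hn0 : (0 : ℝ) < n := by exact_mod_cast hn
  set I : Set ℝ := Set.Icc (n : ℝ) (n + 1) with hI
  have hpos : ∀ x ∈ I, 0 < x := fun x hx => lt_of_lt_of_le hn0 hx.1
  have hconv : Convex ℝ I := convex_Icc _ _
  have hnI : (n : ℝ) ∈ I := ⟨le_rfl, by linarith⟩
  have hnI' : (n : ℝ) + 1 ∈ I := ⟨by linarith, le_rfl⟩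
  -- first bound
  have h1 : ∀ x ∈ I, ‖(x : ℂ) ^ (-s - 1) - ((n : ℝ) : ℂ) ^ (-s - 1)‖ ≤
      ‖s + 1‖ * (n : ℝ) ^ (-s.re - 2) := by
    intro x hx
    have hb : ∀ y ∈ I, ‖(-s - 1) * (y : ℂ) ^ (-s - 1 - 1)‖ ≤ ‖s + 1‖ * (n : ℝ) ^ (-s.re - 2) := by
      intro y hy
      rw [norm_mul, Complex.norm_cpow_eq_rpow_re_of_pos (hpos y hy)]
      have e1 : ‖-s - 1‖ = ‖s + 1‖ := by rw [← norm_neg]; congr 1; ring
      have e2 : (-s - 1 - 1 : ℂ).re = -s.re - 2 := by simp; ring
      rw [e1, e2]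
      refine mul_le_mul_of_nonneg_left ?_ (norm_nonneg _)
      exact Real.rpow_le_rpow_of_nonpos hn0 hy.1 (by linarith)
    have := hconv.norm_image_sub_le_of_norm_hasDerivWithin_le
      (f := fun y : ℝ => (y : ℂ) ^ (-s - 1)) (f' := fun y : ℝ => (-s - 1) * (y : ℂ) ^ (-s - 1 - 1))
      (fun y hy => (hd (-s - 1) y (hpos y hy)).hasDerivWithinAt) hb hnI hx
    refine this.trans ?_
    have h3 : ‖x - (n : ℝ)‖ ≤ 1 := by
      rw [Real.norm_eq_abs, abs_of_nonneg (by linarith [hx.1])]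
      linarith [hx.2]
    have h4 : 0 ≤ ‖s + 1‖ * (n : ℝ) ^ (-s.re - 2) := by positivity
    nlinarith
  -- second
  have hder : ∀ y ∈ I, HasDerivWithinAt
      (fun y : ℝ => -(y : ℂ) ^ (-s) - s * ((n : ℝ) : ℂ) ^ (-s - 1) * ((y : ℂ) - n))
      (s * ((y : ℂ) ^ (-s - 1) - ((n : ℝ) : ℂ) ^ (-s - 1))) I y := by
    intro y hy
    have a1 := (hd (-s) y (hpos y hy)).neg
    have a2 : HasDerivAt (fun y : ℝ => ((y : ℂ) - n)) 1 y := by
      have := (hasDerivAt_id y).ofReal_comp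
      simpa using this.sub_const (n : ℂ)
    have a3 := a2.const_mul (s * ((n : ℝ) : ℂ) ^ (-s - 1))
    have a4 := a1.sub a3
    refine (a4.congr_deriv ?_).hasDerivWithinAt
    ring
  have hb2 : ∀ y ∈ I, ‖s * ((y : ℂ) ^ (-s - 1) - ((n : ℝ) : ℂ) ^ (-s - 1))‖ ≤
      ‖s‖ * (‖s + 1‖ * (n : ℝ) ^ (-s.re - 2)) := by
    intro y hy
    rw [norm_mul]
    exact mul_le_mul_of_nonneg_left (h1 y hy) (norm_nonneg _)
  have := hconv.norm_image_sub_le_of_norm_hasDerivWithin_le hder hb2 hnI hnI'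
  have e3 : (-(((n : ℝ) + 1 : ℝ) : ℂ) ^ (-s) - s * ((n : ℝ) : ℂ) ^ (-s - 1) * ((((n : ℝ) + 1 : ℝ) : ℂ) - n)) -
      (-((n : ℝ) : ℂ) ^ (-s) - s * ((n : ℝ) : ℂ) ^ (-s - 1) * (((n : ℝ) : ℂ) - n)) = g n s := by
    unfold g
    push_cast
    ring
  rw [e3] at this
  have e4 : ‖(n : ℝ) + 1 - n‖ = 1 := by simp
  rw [e4, mul_one] at this
  rw [mul_assoc]
  exact this

theorem DD_bd (c : ℕ → ℝ) (hc : ∀ n, |c n| ≤ 1) (h0 : c 0 = 0) (n : ℕ) : |DD c n| ≤ n := by
  unfold DD
  rw [Finset.sum_range_succ', h0, add_zero]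
  refine (Finset.abs_sum_le_sum_abs _ _).trans ?_
  refine (Finset.sum_le_sum fun i _ => hc (i + 1)).trans ?_
  simp

/-- the terms of the error -/
noncomputable def e (c : ℕ → ℝ) (n : ℕ) (s : ℂ) : ℂ := ((DD c n : ℝ) : ℂ) * g n s

theorem e_bd (c : ℕ → ℝ) (hc : ∀ n, |c n| ≤ 1) (h0 : c 0 = 0) (s : ℂ) (hs : 0 < s.re) (n : ℕ) :
    ‖e c n s‖ ≤ ‖s‖ * ‖s + 1‖ * (n : ℝ) ^ (-s.re - 1) := by
  rcases Nat.eq_zero_or_pos n with rfl | hn
  · have : DD c 0 = 0 := by simp [DD, h0]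
    simp only [e, this]
    simp
    positivity
  · have hn0 : (0 : ℝ) < n := by exact_mod_cast hn
    unfold e
    rw [norm_mul, Complex.norm_real, Real.norm_eq_abs]
    calc |DD c n| * ‖g n s‖ ≤ n * (‖s‖ * ‖s + 1‖ * (n : ℝ) ^ (-s.re - 2)) :=
          mul_le_mul (DD_bd c hc h0 n) (g_bd s hs n hn) (norm_nonneg _) hn0.le
      _ = ‖s‖ * ‖s + 1‖ * ((n : ℝ) ^ (1 : ℝ) * (n : ℝ) ^ (-s.re - 2)) := by
          rw [Real.rpow_one]; ring
      _ = ‖s‖ * ‖s + 1‖ * (n : ℝ) ^ (-s.re - 1) := by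
          rw [← Real.rpow_add hn0]; congr 2; ring

theorem summ (a : ℝ) (ha : 0 < a) : Summable fun n : ℕ => (n : ℝ) ^ (-a - 1) := by
  rw [Real.summable_nat_rpow]
  linarith

theorem e_summ (c : ℕ → ℝ) (hc : ∀ n, |c n| ≤ 1) (h0 : c 0 = 0) (s : ℂ) (hs : 0 < s.re) :
    Summable fun n => e c n s := by
  refine Summable.of_norm_bounded ((summ s.re hs).mul_left (‖s‖ * ‖s + 1‖)) fun n => ?_
  exact e_bd c hc h0 s hs n

theorem e_diff (c : ℕ → ℝ) (h0 : c 0 = 0) (n : ℕ) : Differentiable ℂ (e c n) := by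
  rcases Nat.eq_zero_or_pos n with rfl | hn
  · have : DD c 0 = 0 := by simp [DD, h0]
    have h : e c 0 = fun _ => 0 := by
      funext s
      simp [e, this]
    rw [h]
    exact differentiable_const _
  · have hn0 : (n : ℂ) ≠ 0 := by exact_mod_cast hn.ne'
    have hn1 : (n : ℂ) + 1 ≠ 0 := by exact_mod_cast (Nat.succ_ne_zero n)
    unfold e g
    refine Differentiable.const_mul ?_ _
    refine Differentiable.sub (Differentiable.sub ?_ ?_) ?_
    · exact fun s => (differentiableAt_id.neg).const_cpow (Or.inl hn0)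
    · exact fun s => (differentiableAt_id.neg).const_cpow (Or.inl hn1)
    · exact fun s => differentiableAt_id.mul
        (((differentiableAt_id.neg).sub_const 1).const_cpow (Or.inl hn0))

end ABL

open ABL in
theorem t_ABL : S_ABL := by
  intro c hc h0
  refine ⟨fun s => ∑' n, e c n s, ?_, ?_, ?_⟩
  · intro s0 hs0
    have hs0' : 0 < s0.re := hs0
    set U : Set ℂ := {s : ℂ | s0.re / 2 < s.re} ∩ Metric.ball 0 (‖s0‖ + 1) with hU
    have hUo : IsOpen U := (isOpen_lt continuous_const Complex.continuous_re).inter Metric.isOpen_ball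
    have hmem : s0 ∈ U := ⟨by show s0.re / 2 < s0.re; linarith, by simp⟩
    have hd : DifferentiableOn ℂ (fun s => ∑' n, e c n s) U := by
      refine differentiableOn_tsum_of_summable_norm
        (u := fun n : ℕ => (‖s0‖ + 1) * (‖s0‖ + 2) * (n : ℝ) ^ (-(s0.re / 2) - 1))
        ((summ (s0.re / 2) (by linarith)).mul_left _) (fun n => (e_diff c h0 n).differentiableOn) hUo ?_
      intro n s hs
      have hsre : s0.re / 2 < s.re := hs.1
      have hsn : ‖s‖ < ‖s0‖ + 1 := by simpa using hs.2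
      refine (e_bd c hc h0 s (by linarith) n).trans ?_
      have k1 : ‖s + 1‖ ≤ ‖s0‖ + 2 := by
        refine (norm_add_le _ _).trans ?_
        rw [norm_one]; linarith
      have k2 : (n : ℝ) ^ (-s.re - 1) ≤ (n : ℝ) ^ (-(s0.re / 2) - 1) := by
        rcases Nat.eq_zero_or_pos n with rfl | hn
        · rw [Nat.cast_zero, Real.zero_rpow (by linarith), Real.zero_rpow (by linarith)]
        · exact Real.rpow_le_rpow_of_exponent_le (by exact_mod_cast hn) (by linarith)
      have k3 : 0 ≤ (n : ℝ) ^ (-s.re - 1) := by positivity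
      refine mul_le_mul (mul_le_mul hsn.le k1 (norm_nonneg _) (by positivity)) k2 k3 (by positivity)
    exact ((hd s0 hmem).differentiableAt (hUo.mem_nhds hmem)).differentiableWithinAt
  · refine ⟨∑' n : ℕ, (n : ℝ) ^ (-(1 / 4 : ℝ) - 1), fun s hs => ?_⟩
    have hs' : 0 < s.re := by linarith
    have hS := summ (1 / 4) (by norm_num)
    have hb : ∀ n : ℕ, ‖e c n s‖ ≤ (1 + ‖s‖) ^ 2 * (n : ℝ) ^ (-(1 / 4 : ℝ) - 1) := by
      intro n
      refine (e_bd c hc h0 s hs' n).trans ?_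
      have k1 : ‖s + 1‖ ≤ 1 + ‖s‖ := by
        refine (norm_add_le _ _).trans ?_
        rw [norm_one]; linarith
      have k2 : (n : ℝ) ^ (-s.re - 1) ≤ (n : ℝ) ^ (-(1 / 4 : ℝ) - 1) := by
        rcases Nat.eq_zero_or_pos n with rfl | hn
        · rw [Nat.cast_zero, Real.zero_rpow (by linarith), Real.zero_rpow (by norm_num)]
        · exact Real.rpow_le_rpow_of_exponent_le (by exact_mod_cast hn) (by linarith)
      have k3 : 0 ≤ (n : ℝ) ^ (-s.re - 1) := by positivity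
      have k4 : ‖s‖ * ‖s + 1‖ ≤ (1 + ‖s‖) ^ 2 := by nlinarith [norm_nonneg s, norm_nonneg (s + 1)]
      exact mul_le_mul k4 k2 k3 (by positivity)
    calc ‖∑' n, e c n s‖ ≤ ∑' n : ℕ, (1 + ‖s‖) ^ 2 * (n : ℝ) ^ (-(1 / 4 : ℝ) - 1) :=
          tsum_of_norm_bounded (hS.mul_left _).hasSum hb
      _ = (∑' n : ℕ, (n : ℝ) ^ (-(1 / 4 : ℝ) - 1)) * (1 + ‖s‖) ^ 2 := by
          rw [tsum_mul_left]; ring
  · intro s hs
    have hs' : 0 < s.re := by linarith
    have hcc : LSeriesSummable (cc c) s := by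
      refine LSeriesSummable_of_le_const_mul_rpow (x := 1) (by simpa using hs) ⟨1, fun n _ => ?_⟩
      simp only [cc, Complex.norm_real, Real.norm_eq_abs]
      simpa using hc n
    have hdd : LSeriesSummable (dd c) s := by
      refine LSeriesSummable_of_le_const_mul_rpow (x := 1) (by simpa using hs) ⟨1, fun n hn => ?_⟩
      simp only [dd, Complex.norm_real, Real.norm_eq_abs]
      have hn0 : (0 : ℝ) < n := by exact_mod_cast Nat.pos_of_ne_zero hn
      rw [abs_div, abs_of_pos hn0]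
      have := DD_bd c hc h0 n
      simpa using (div_le_one hn0).2 this
    have t1 := hcc.hasSum.tendsto_sum_nat
    have t2 := hdd.hasSum.tendsto_sum_nat
    have t3 := (e_summ c hc h0 s hs').hasSum.tendsto_sum_nat
    have t4 : Tendsto (fun N : ℕ => ((DD c N : ℝ) : ℂ) * ((N : ℂ) + 1) ^ (-s)) atTop (𝓝 0) := by
      rw [tendsto_zero_iff_norm_tendsto_zero]
      refine squeeze_zero (fun _ => norm_nonneg _) (g := fun N : ℕ => ((N : ℝ) + 1) ^ (-(s.re - 1))) ?_ ?_
      · intro N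
        rw [norm_mul, Complex.norm_real, Real.norm_eq_abs]
        have hN : (0 : ℝ) < (N : ℝ) + 1 := by positivity
        have e1 : ‖((N : ℂ) + 1) ^ (-s)‖ = ((N : ℝ) + 1) ^ (-s.re) := by
          have := Complex.norm_cpow_eq_rpow_re_of_pos hN (-s)
          push_cast at this
          rw [this]
          simp
        rw [e1]
        calc |DD c N| * ((N : ℝ) + 1) ^ (-s.re) ≤ ((N : ℝ) + 1) * ((N : ℝ) + 1) ^ (-s.re) := by
              refine mul_le_mul_of_nonneg_right ?_ (by positivity)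
              linarith [DD_bd c hc h0 N]
          _ = ((N : ℝ) + 1) ^ (1 : ℝ) * ((N : ℝ) + 1) ^ (-s.re) := by rw [Real.rpow_one]
          _ = ((N : ℝ) + 1) ^ (-(s.re - 1)) := by
              rw [← Real.rpow_add hN]; congr 1; ring
      · have h1 : Tendsto (fun x : ℝ => x ^ (-(s.re - 1))) atTop (𝓝 0) :=
          tendsto_rpow_neg_atTop (by linarith)
        exact h1.comp (tendsto_atTop_add_const_right _ _ tendsto_natCast_atTop_atTop)
    -- Abel summation for the partial sums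
    have key : ∀ N : ℕ, ∑ n ∈ Finset.range (N + 1), LSeries.term (cc c) s n =
        s * ∑ n ∈ Finset.range (N + 1), LSeries.term (dd c) s n +
          ∑ n ∈ Finset.range (N + 1), e c n s + ((DD c N : ℝ) : ℂ) * ((N : ℂ) + 1) ^ (-s) := by
      intro N
      induction N with
      | zero =>
        have : DD c 0 = 0 := by simp [DD, h0]
        simp [this, e]
      | succ N ih =>
        rw [Finset.sum_range_succ, ih, Finset.sum_range_succ _ (N + 1), Finset.sum_range_succ _ (N + 1)]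
        have hne : ((N + 1 : ℕ) : ℂ) ≠ 0 := by exact_mod_cast Nat.succ_ne_zero N
        have hD : DD c (N + 1) = DD c N + c (N + 1) := by
          unfold DD
          rw [Finset.sum_range_succ]
        rw [LSeries.term_of_ne_zero (Nat.succ_ne_zero N), LSeries.term_of_ne_zero (Nat.succ_ne_zero N)]
        have hne' : (N : ℂ) + 1 ≠ 0 := by exact_mod_cast Nat.succ_ne_zero N
        have hX0 : ((N : ℂ) + 1) ^ s ≠ 0 := by
          rw [Complex.cpow_def_of_ne_zero hne']; exact Complex.exp_ne_zero _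
        have hcast : ((N.succ : ℕ) : ℂ) = (N : ℂ) + 1 := by push_cast; rfl
        have hE : e c (N + 1) s = ((DD c N : ℝ) + c (N + 1) : ℂ) * ((((N : ℂ) + 1) ^ s)⁻¹ -
            ((N : ℂ) + 1 + 1) ^ (-s) - s * ((((N : ℂ) + 1) ^ s)⁻¹ / ((N : ℂ) + 1))) := by
          unfold e g
          rw [hD]
          have hc2 : ((N + 1 : ℕ) : ℂ) = (N : ℂ) + 1 := by push_cast; rfl
          rw [hc2, Complex.cpow_sub _ _ hne', Complex.cpow_neg ((N : ℂ) + 1) s, Complex.cpow_one]
          push_cast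
          ring
        rw [hE, hcast]
        rw [Complex.cpow_neg ((N : ℂ) + 1) s]
        have hcv : cc c N.succ = ((c (N + 1) : ℝ) : ℂ) := rfl
        have hdv : dd c N.succ = (((DD c N + c (N + 1)) / ((N : ℝ) + 1) : ℝ) : ℂ) := by
          show ((DD c (N + 1) / ((N + 1 : ℕ) : ℝ) : ℝ) : ℂ) = _
          rw [hD]
          push_cast
          rfl
        rw [hcv, hdv, hD]
        generalize ∑ n ∈ Finset.range (N + 1), LSeries.term (dd c) s n = S1
        generalize ∑ n ∈ Finset.range (N + 1), e c n s = S2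
        push_cast
        field_simp
        ring
    have t1' := (tendsto_add_atTop_iff_nat 1).2 t1
    have t2' := (tendsto_add_atTop_iff_nat 1).2 t2
    have t3' := (tendsto_add_atTop_iff_nat 1).2 t3
    have t5 := ((t2'.const_mul s).add t3').add t4
    have t6 : Tendsto (fun N : ℕ => ∑ n ∈ Finset.range (N + 1), LSeries.term (cc c) s n) atTop
        (𝓝 (s * (∑' n, LSeries.term (dd c) s n) + ∑' n, e c n s + 0)) := by
      refine t5.congr fun N => ?_
      rw [key N]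
    have := tendsto_nhds_unique t1' t6
    rw [add_zero] at this
    exact this

end Pool.Agent.K6.H62.PR
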