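import Pool.Agent.K6.H62.PR.Stm

set_option autoImplicit false

open Complex Filter Topology Set

namespace Pool.Agent.K6.H62.PR

namespace CNJ

/-- conjugate of a function -/
noncomputable def cj (f : ℂ → ℂ) (s : ℂ) : ℂ := (starRingEnd ℂ) (f ((starRingEnd ℂ) s))

lemma continuous_cj : Continuous (fun s : ℂ => (starRingEnd ℂ) s) := by fun_prop

lemma analyticAt_cj {f : ℂ → ℂ} {s : ℂ} (h : AnalyticAt ℂ f ((starRingEnd ℂ) s)) :
    AnalyticAt ℂ (cj f) s := by
  rw [analyticAt_iff_eventually_differentiableAt] at h ⊢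
  have h2 := (continuous_cj.tendsto s).eventually h
  filter_upwards [h2] with z hz
  exact differentiableAt_conj_conj_iff.mpr hz

lemma order_cj {f : ℂ → ℂ} {s : ℂ} (h : AnalyticAt ℂ f ((starRingEnd ℂ) s)) :
    analyticOrderAt (cj f) s = analyticOrderAt f ((starRingEnd ℂ) s) := by
  rcases eq_or_ne (analyticOrderAt f ((starRingEnd ℂ) s)) ⊤ with h0 | h0
  · rw [h0, analyticOrderAt_eq_top]
    rw [analyticOrderAt_eq_top] at h0
    have h2 := (continuous_cj.tendsto s).eventually h0
    filter_upwards [h2] with z hz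
    simp [cj, hz]
  · obtain ⟨n, hn⟩ := ENat.ne_top_iff_exists.mp h0
    rw [← hn]
    obtain ⟨g, hg, hg0, hfg⟩ := (h.analyticOrderAt_eq_natCast).mp hn.symm
    rw [(analyticAt_cj h).analyticOrderAt_eq_natCast]
    refine ⟨cj g, analyticAt_cj hg, ?_, ?_⟩
    · simp [cj, hg0]
    · have h2 := (continuous_cj.tendsto s).eventually hfg
      filter_upwards [h2] with z hz
      simp only [cj, hz, smul_eq_mul, map_mul, map_pow, map_sub, Complex.conj_conj]

variable {b : ℕ} [NeZero b]

lemma L_conj (χ : DirichletCharacter ℂ b) (hχ : χ ≠ 1) :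
    χ⁻¹.LFunction = cj χ.LFunction := by
  have hχ' : χ⁻¹ ≠ 1 := by
    intro h
    exact hχ (inv_eq_one.1 h)
  have h1 : AnalyticOnNhd ℂ χ⁻¹.LFunction univ := fun z _ =>
    (DirichletCharacter.differentiable_LFunction hχ').analyticAt z
  have h2 : AnalyticOnNhd ℂ (cj χ.LFunction) univ := fun z _ =>
    analyticAt_cj ((DirichletCharacter.differentiable_LFunction hχ).analyticAt _)
  refine AnalyticOnNhd.eq_of_eventuallyEq (z₀ := 2) h1 h2 ?_
  have hm : {s : ℂ | 1 < s.re} ∈ 𝓝 (2 : ℂ) :=
    (isOpen_lt continuous_const continuous_re).mem_nhds (by norm_num)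
  filter_upwards [hm] with z hz
  have hz : 1 < z.re := hz
  unfold cj
  rw [DirichletCharacter.LFunction_eq_LSeries _ hz,
    DirichletCharacter.LFunction_eq_LSeries _ (by rwa [conj_re]), LSeries, LSeries, conj_tsum]
  refine tsum_congr fun n ↦ ?_
  rcases eq_or_ne n 0 with rfl | hn
  · simp
  · rw [LSeries.term_of_ne_zero hn, LSeries.term_of_ne_zero hn, map_div₀,
      ← conj_cpow _ _ (by rw [natCast_arg]; positivity), conj_natCast,
      ← MulChar.star_apply']
    simp

end CNJ

theorem t_CNJ : S_CNJ := by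
  intro b _ χ θ hχ
  have h : AnalyticAt ℂ χ.LFunction ((starRingEnd ℂ) (θ : ℂ)) :=
    (DirichletCharacter.differentiable_LFunction hχ).analyticAt _
  have h2 := CNJ.order_cj h
  rw [conj_ofReal] at h2
  unfold analyticOrderNatAt
  rw [CNJ.L_conj χ hχ, h2]

end Pool.Agent.K6.H62.PR
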