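import Pool.Agent.K6.H62.PR.Stm

set_option autoImplicit false

/-!
CNT: consequences of the convergence of the Dirichlet series to the left of `1/2`.
-/

open Complex Filter Topology

namespace Pool.Agent.K6.H62.PR

namespace CNT

lemma cf_abs {b : ℕ} (a1 a : ZMod b) (n : ℕ) : |cf a1 a n| ≤ 1 := by
  unfold cf
  split_ifs <;> simp

lemma cf_zero {b : ℕ} (a1 a : ZMod b) : cf a1 a 0 = 0 := by
  unfold cf
  simp [Nat.not_prime_zero]

lemma analyticAt_of_summable {f : ℕ → ℂ} {θ : ℝ}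
    (h : ∀ σ : ℝ, θ < σ → LSeriesSummable f (σ : ℂ)) {z : ℂ} (hz : θ < z.re) :
    AnalyticAt ℂ (LSeries f) z := by
  have h1 : LSeries.abscissaOfAbsConv f ≤ θ :=
    LSeries.abscissaOfAbsConv_le_of_forall_lt_LSeriesSummable h
  have h2 : LSeries.abscissaOfAbsConv f < z.re := lt_of_le_of_lt h1 (by exact_mod_cast hz)
  exact LSeries_analyticOnNhd f z h2

lemma meromorphic_QQ (h7 : S_TRV) (h8 : S_QFB) (b : ℕ) [NeZero b] (a1 a : ZMod b) {z : ℂ}
    (hz : 1 / 3 < z.re) : MeromorphicAt (QQ a1 a) z := by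
  have hell : ∀ χ : DirichletCharacter ℂ b, Meromorphic (ell χ) := (h7 b).2.2
  have hL : ∀ c : ZMod b, MeromorphicAt (LSeries (hh c)) z := fun c =>
    (analyticAt_of_summable (θ := 1 / 3) (h8 b c) hz).meromorphicAt
  have h2 : ∀ χ : DirichletCharacter ℂ b, MeromorphicAt (fun s => ell χ (2 * s)) z := by
    intro χ
    have hg : AnalyticAt ℂ (fun s : ℂ => 2 * s) z := by fun_prop
    have := MeromorphicAt.comp_analyticAt (f := ell χ) (g := fun s : ℂ => 2 * s) (x := z)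
      (hell χ (2 * z)) hg
    exact this
  have hs1 : MeromorphicAt (fun s => ∑ χ : DirichletCharacter ℂ b, ww a1 a χ * ell χ s) z := by
    apply MeromorphicAt.fun_sum
    intro χ _
    exact (MeromorphicAt.const (ww a1 a χ) z).mul (hell χ z)
  have hs2 : MeromorphicAt (fun s => ∑ χ : DirichletCharacter ℂ b, vv a1 a χ * ell χ (2 * s)) z := by
    apply MeromorphicAt.fun_sum
    intro χ _
    exact (MeromorphicAt.const (vv a1 a χ) z).mul (h2 χ)
  have := (((MeromorphicAt.const ((b.totient : ℂ)⁻¹) z).mul hs1).sub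
    ((MeromorphicAt.const ((b.totient : ℂ)⁻¹) z).mul hs2)).sub ((hL a1).sub (hL a))
  exact this

lemma norm_LSeries_le {f : ℕ → ℂ} {σ : ℝ} (h : LSeriesSummable f (σ : ℂ)) {s : ℂ}
    (hs : σ ≤ s.re) : ‖LSeries f s‖ ≤ ∑' n, ‖LSeries.term f (σ : ℂ) n‖ := by
  have hle : ∀ n, ‖LSeries.term f s n‖ ≤ ‖LSeries.term f (σ : ℂ) n‖ := fun n =>
    LSeries.norm_term_le_of_re_le_re f (by simpa using hs) n
  have hsum : Summable (fun n => ‖LSeries.term f (σ : ℂ) n‖) := h.norm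
  have hsum' : Summable (fun n => ‖LSeries.term f s n‖) :=
    Summable.of_nonneg_of_le (fun n => norm_nonneg _) hle hsum
  calc ‖LSeries f s‖ ≤ ∑' n, ‖LSeries.term f s n‖ := norm_tsum_le_tsum_norm hsum'
    _ ≤ ∑' n, ‖LSeries.term f (σ : ℂ) n‖ := hsum'.tsum_le_tsum hle hsum

end CNT

open CNT in
theorem t_CNT (h1 : S_ABL) (h2 : S_QFF) (h3 : S_IDT) (h4 : S_QLC) (h7 : S_TRV) (h8 : S_QFB) :
    S_CNT := by
  intro b _ a1 a ha1 ha hθ
  obtain ⟨θ0, hθ0, hsum⟩ := hθ
  obtain ⟨E, hE, ⟨C, hC⟩, hid⟩ := h1 (cf a1 a) (cf_abs a1 a) (cf_zero a1 a)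
  set F : ℂ → ℂ := fun s => s * LSeries (dd (cf a1 a)) s + E s with hF
  obtain ⟨σ0, hσ0, hσ1, hσ2⟩ : ∃ σ0 : ℝ, θ0 < σ0 ∧ 1 / 3 < σ0 ∧ σ0 < 1 / 2 := by
    refine ⟨(max θ0 (1 / 3) + 1 / 2) / 2, ?_, ?_, ?_⟩
    · have := le_max_left θ0 (1 / 3)
      linarith
    · have := le_max_right θ0 (1 / 3)
      linarith
    · have : max θ0 (1 / 3) < 1 / 2 := max_lt hθ0 (by norm_num)
      linarith
  set U : Set ℂ := {s : ℂ | σ0 < s.re} with hU
  have hUo : IsOpen U := isOpen_lt continuous_const Complex.continuous_re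
  have hUc : IsPreconnected U := (convex_halfSpace_re_gt σ0).isPreconnected
  have hFd : DifferentiableOn ℂ F U := by
    intro s hs
    have hs' : σ0 < s.re := hs
    have hA : DifferentiableAt ℂ (LSeries (dd (cf a1 a))) s :=
      (analyticAt_of_summable hsum (lt_trans hσ0 hs')).differentiableAt
    have hB : DifferentiableAt ℂ E s := by
      have hopen : IsOpen {s : ℂ | 0 < s.re} := isOpen_lt continuous_const Complex.continuous_re
      exact (hE s (by show 0 < s.re; linarith)).differentiableAt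
        (hopen.mem_nhds (by show 0 < s.re; linarith))
    exact ((differentiableAt_id.mul hA).add hB).differentiableWithinAt
  have hF' : DifferentiableOn ℂ (deriv F) U := hFd.deriv hUo
  have hQ : MeromorphicOn (QQ a1 a) U := by
    intro z hz
    have hz' : σ0 < z.re := hz
    exact meromorphic_QQ h7 h8 b a1 a (lt_trans hσ1 hz')
  have h2U : (2 : ℂ) ∈ U := by
    show σ0 < (2 : ℂ).re
    have : (2 : ℂ).re = 2 := by simp
    rw [this]; linarith
  have hnear : ∀ᶠ s in 𝓝 (2 : ℂ), deriv F s = QQ a1 a s := by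
    have hopen : IsOpen {s : ℂ | 1 < s.re} := isOpen_lt continuous_const Complex.continuous_re
    have hmem : {s : ℂ | 1 < s.re} ∈ 𝓝 (2 : ℂ) := hopen.mem_nhds (by show 1 < (2 : ℂ).re; simp)
    filter_upwards [hmem] with s hs
    have heq : F =ᶠ[𝓝 s] LSeries (cc (cf a1 a)) := by
      filter_upwards [hopen.mem_nhds hs] with w hw
      exact (hid w hw).symm
    rw [heq.deriv_eq]
    exact (h2 b a1 a ha1 ha s hs).deriv
  have hall := h3 U (deriv F) (QQ a1 a) 2 hUo hUc hF' hQ h2U hnear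
  constructor
  · intro z hz
    have hzU : z ∈ U := by show σ0 < z.re; linarith
    obtain ⟨h, hh, hev⟩ := h4 b a1 a ha1 ha z hz
    have hev2 := hall z hzU
    have hc1 : ContinuousAt (deriv F) z := (hF' z hzU).differentiableAt (hUo.mem_nhds hzU) |>.continuousAt
    have hc2 : ContinuousAt h z := hh.continuousAt
    have hlim : Tendsto (fun s => (s - z) * (deriv F s - h s)) (𝓝[≠] z) (𝓝 0) := by
      have hc : ContinuousAt (fun s => (s - z) * (deriv F s - h s)) z :=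
        ((continuousAt_id.sub continuousAt_const).mul (hc1.sub hc2))
      have := hc.tendsto
      simp only [sub_self, zero_mul] at this
      exact this.mono_left nhdsWithin_le_nhds
    have hlim2 : Tendsto (fun s => (s - z) * (deriv F s - h s)) (𝓝[≠] z) (𝓝 (rho a1 a z)) := by
      apply Tendsto.congr' _ tendsto_const_nhds
      filter_upwards [hev, hev2, self_mem_nhdsWithin] with s hs1 hs2 hs3
      have hne : s - z ≠ 0 := sub_ne_zero.mpr hs3
      rw [hs2, hs1]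
      field_simp
      ring
    exact tendsto_nhds_unique hlim2 hlim
  · -- the bound
    set σ1 : ℝ := (σ0 + 1 / 2) / 2 with hσ1def
    have hσ1a : σ0 < σ1 := by rw [hσ1def]; linarith
    have hσ1b : σ1 < 1 / 2 := by rw [hσ1def]; linarith
    set r : ℝ := 1 / 2 - σ1 with hr
    have hrpos : 0 < r := by rw [hr]; linarith
    have hr1 : r ≤ 1 := by rw [hr]; linarith
    set A : ℝ := ∑' n, ‖LSeries.term (dd (cf a1 a)) (σ1 : ℂ) n‖ with hA
    have hA0 : 0 ≤ A := tsum_nonneg (fun n => norm_nonneg _)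
    set K : ℝ := A + |C| with hK
    have hK0 : 0 ≤ K := add_nonneg hA0 (abs_nonneg _)
    have hFb : ∀ w : ℂ, σ1 ≤ w.re → ‖F w‖ ≤ K * (1 + ‖w‖) ^ 2 := by
      intro w hw
      have e1 : ‖LSeries (dd (cf a1 a)) w‖ ≤ A := norm_LSeries_le (hsum σ1 (by linarith)) hw
      have e2 : ‖E w‖ ≤ C * (1 + ‖w‖) ^ 2 := hC w (by linarith)
      have hw0 : 0 ≤ ‖w‖ := norm_nonneg w
      have e3 : C * (1 + ‖w‖) ^ 2 ≤ |C| * (1 + ‖w‖) ^ 2 :=
        mul_le_mul_of_nonneg_right (le_abs_self C) (by positivity)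
      have e4 : ‖w‖ * ‖LSeries (dd (cf a1 a)) w‖ ≤ A * (1 + ‖w‖) ^ 2 := by
        have : ‖w‖ ≤ (1 + ‖w‖) ^ 2 := by nlinarith
        calc ‖w‖ * ‖LSeries (dd (cf a1 a)) w‖ ≤ (1 + ‖w‖) ^ 2 * A :=
              mul_le_mul this e1 (norm_nonneg _) (by positivity)
          _ = A * (1 + ‖w‖) ^ 2 := by ring
      calc ‖F w‖ ≤ ‖w * LSeries (dd (cf a1 a)) w‖ + ‖E w‖ := norm_add_le _ _
        _ = ‖w‖ * ‖LSeries (dd (cf a1 a)) w‖ + ‖E w‖ := by rw [norm_mul]
        _ ≤ A * (1 + ‖w‖) ^ 2 + |C| * (1 + ‖w‖) ^ 2 := by linarith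
        _ = K * (1 + ‖w‖) ^ 2 := by rw [hK]; ring
    refine ⟨4 * K / r, fun z hz => ?_⟩
    have hzU : z ∈ U := by show σ0 < z.re; linarith
    have hopen : IsOpen {s : ℂ | 1 / 2 < s.re} := isOpen_lt continuous_const Complex.continuous_re
    have hmem : {s : ℂ | 1 / 2 < s.re} ∈ 𝓝[≠] z := mem_nhdsWithin_of_mem_nhds (hopen.mem_nhds hz)
    filter_upwards [hall z hzU, hmem] with s hs1 hs2
    have hs2' : 1 / 2 < s.re := hs2
    rw [← hs1]
    have hball : ∀ w ∈ Metric.closedBall s r, σ1 ≤ w.re := by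
      intro w hw
      have h1 : ‖w - s‖ ≤ r := by simpa [dist_eq_norm] using hw
      have h2 : |(w - s).re| ≤ r := le_trans (Complex.abs_re_le_norm _) h1
      have h3 := (abs_le.mp h2).1
      rw [Complex.sub_re] at h3
      rw [hr] at h3
      linarith
    have hdc : DiffContOnCl ℂ F (Metric.ball s r) := by
      apply DifferentiableOn.diffContOnCl_ball (U := U)
      · exact hFd
      · intro w hw
        have := hball w hw
        show σ0 < w.re
        linarith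
    have hsph : ∀ w ∈ Metric.sphere s r, ‖F w‖ ≤ 4 * K * (1 + ‖s‖) ^ 2 := by
      intro w hw
      have hw1 : ‖w - s‖ = r := by simpa [dist_eq_norm] using hw
      have hw2 : ‖w‖ ≤ 1 + ‖s‖ := by
        calc ‖w‖ = ‖(w - s) + s‖ := by ring_nf
          _ ≤ ‖w - s‖ + ‖s‖ := norm_add_le _ _
          _ ≤ 1 + ‖s‖ := by linarith
      have hs0 : 0 ≤ ‖s‖ := norm_nonneg s
      have hw0 : 0 ≤ ‖w‖ := norm_nonneg w
      have hsq : (1 + ‖w‖) ^ 2 ≤ 4 * (1 + ‖s‖) ^ 2 := by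
        have : 1 + ‖w‖ ≤ 2 * (1 + ‖s‖) := by linarith
        calc (1 + ‖w‖) ^ 2 ≤ (2 * (1 + ‖s‖)) ^ 2 := pow_le_pow_left₀ (by linarith) this 2
          _ = 4 * (1 + ‖s‖) ^ 2 := by ring
      calc ‖F w‖ ≤ K * (1 + ‖w‖) ^ 2 := hFb w (hball w (Metric.sphere_subset_closedBall hw))
        _ ≤ K * (4 * (1 + ‖s‖) ^ 2) := mul_le_mul_of_nonneg_left hsq hK0
        _ = 4 * K * (1 + ‖s‖) ^ 2 := by ring
    have hd := Complex.norm_deriv_le_of_forall_mem_sphere_norm_le hrpos hdc hsph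
    have hs0 : 0 ≤ ‖s‖ := norm_nonneg s
    calc ‖deriv F s‖ ≤ 4 * K * (1 + ‖s‖) ^ 2 / r := hd
      _ = 4 * K / r * (1 + ‖s‖) ^ 2 := by ring
      _ ≤ 4 * K / r * (1 + ‖s‖) ^ 3 := by
        apply mul_le_mul_of_nonneg_left _ (by positivity)
        exact pow_le_pow_right₀ (by linarith) (by norm_num)

end Pool.Agent.K6.H62.PR
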