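import Pool.Agent.K6.H62.PR.Stm

set_option autoImplicit false

/-! Piece ENT (helper21). -/

open Complex Filter Topology

namespace Pool.Agent.K6.H62.PR

theorem t_ENT : S_ENT := by
  intro M hM
  choose h ha hh using hM
  have key : ∀ z : ℂ, ∀ᶠ w in 𝓝 z, h w w = h z w := by
    intro z
    have h1 := eventually_nhdsWithin_iff.1 (hh z)
    filter_upwards [eventually_eventually_nhds.2 h1, (ha z).eventually_analyticAt] with w hw hwa
    by_cases hwz : w = z
    · rw [hwz]
    · have h2 : ∀ᶠ s in 𝓝 w, s ≠ z := eventually_ne_nhds hwz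
      have h3 : ∀ᶠ s in 𝓝[≠] w, h w s = h z s := by
        filter_upwards [hh w, nhdsWithin_le_nhds hw, nhdsWithin_le_nhds h2] with s u1 u2 u3
        rw [← u1]
        exact u2 u3
      have t1 : Tendsto (h w) (𝓝[≠] w) (𝓝 (h w w)) :=
        (ha w).continuousAt.tendsto.mono_left nhdsWithin_le_nhds
      have t2 : Tendsto (h z) (𝓝[≠] w) (𝓝 (h z w)) :=
        hwa.continuousAt.tendsto.mono_left nhdsWithin_le_nhds
      exact tendsto_nhds_unique (t1.congr' h3) t2
  refine ⟨fun w => h w w, fun z => ?_, fun z => ?_⟩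
  · exact ((ha z).differentiableAt).congr_of_eventuallyEq (key z)
  · filter_upwards [hh z, nhdsWithin_le_nhds (key z)] with s u1 u2
    rw [u1, u2]

end Pool.Agent.K6.H62.PR
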