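import Pool.Agent.K6.H62.PR.Stm

set_option autoImplicit false

open Complex Filter Topology

namespace Pool.Agent.K6.H62.PR

namespace EUL

variable {N : ℕ} [NeZero N]

/-- the Euler factor -/
noncomputable def fac (ψ : DirichletCharacter ℂ N) (p : ℕ) (s : ℂ) : ℂ :=
  1 - ψ (p : ZMod N) * (p : ℂ) ^ (-s)

theorem fac_norm (ψ : DirichletCharacter ℂ N) (p : ℕ) (hp : 0 < p) (s : ℂ) :
    ‖ψ (p : ZMod N) * (p : ℂ) ^ (-s)‖ ≤ (p : ℝ) ^ (-s.re) := by
  rw [norm_mul, Complex.norm_natCast_cpow_of_pos hp]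
  have h1 := ψ.norm_le_one (p : ZMod N)
  have h2 : 0 ≤ (p : ℝ) ^ (-s).re := by positivity
  have h3 : (-s).re = -s.re := by simp
  rw [← h3]
  exact mul_le_of_le_one_left h2 h1

theorem fac_low (ψ : DirichletCharacter ℂ N) (p : ℕ) (hp : 0 < p) (s : ℂ) :
    1 - (p : ℝ) ^ (-s.re) ≤ ‖fac ψ p s‖ := by
  have h1 := fac_norm ψ p hp s
  have h2 := norm_sub_norm_le (1 : ℂ) (ψ (p : ZMod N) * (p : ℂ) ^ (-s))
  rw [norm_one] at h2
  unfold fac
  linarith

theorem fac_ne (ψ : DirichletCharacter ℂ N) (p : ℕ) (hp : 1 < p) (s : ℂ) (hs : 0 < s.re) :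
    fac ψ p s ≠ 0 := by
  have h1 := fac_low ψ p (by omega) s
  have h2 : (p : ℝ) ^ (-s.re) < 1 :=
    Real.rpow_lt_one_of_one_lt_of_neg (by exact_mod_cast hp) (by linarith)
  intro h
  rw [h, norm_zero] at h1
  linarith

theorem fac_der (ψ : DirichletCharacter ℂ N) (p : ℕ) (hp : 0 < p) (s : ℂ) :
    HasDerivAt (fac ψ p) (ψ (p : ZMod N) * ((p : ℂ) ^ (-s) * Complex.log p)) s := by
  have hp0 : (p : ℂ) ≠ 0 := by exact_mod_cast hp.ne'
  have h := ((hasDerivAt_id s).neg).const_cpow (c := (p : ℂ)) (Or.inl hp0)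
  have h2 := (h.const_mul (ψ (p : ZMod N))).const_sub 1
  refine h2.congr_deriv ?_
  simp

/-- the product of the Euler factors -/
noncomputable def P (ψ : DirichletCharacter ℂ N) (b : ℕ) (s : ℂ) : ℂ :=
  ∏ p ∈ b.primeFactors, fac ψ p s

theorem P_diff (ψ : DirichletCharacter ℂ N) (b : ℕ) : Differentiable ℂ (P ψ b) := by
  unfold P
  exact Differentiable.fun_finsetProd fun p hp => fun s =>
    (fac_der ψ p (Nat.prime_of_mem_primeFactors hp).pos s).differentiableAt

theorem P_ne (ψ : DirichletCharacter ℂ N) (b : ℕ) (s : ℂ) (hs : 0 < s.re) : P ψ b s ≠ 0 := by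
  unfold P
  rw [Finset.prod_ne_zero_iff]
  exact fun p hp => fac_ne ψ p (Nat.prime_of_mem_primeFactors hp).one_lt s hs

theorem P_log (ψ : DirichletCharacter ℂ N) (b : ℕ) (s : ℂ) (hs : 0 < s.re) :
    deriv (P ψ b) s / P ψ b s = ∑ p ∈ b.primeFactors, deriv (fac ψ p) s / fac ψ p s := by
  have := logDeriv_prod (s := b.primeFactors) (f := fun p => fac ψ p) (x := s)
    (fun p hp => fac_ne ψ p (Nat.prime_of_mem_primeFactors hp).one_lt s hs)
    (fun p hp => (fac_der ψ p (Nat.prime_of_mem_primeFactors hp).pos s).differentiableAt)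
  simp only [logDeriv_apply] at this
  exact this

/-- nonvanishing near every point -/
theorem nonvan (ψ : DirichletCharacter ℂ N) (z : ℂ) :
    ∀ᶠ s in 𝓝[≠] z, s ≠ 1 ∧ ψ.LFunction s ≠ 0 := by
  have key : ∀ G : ℂ → ℂ, Differentiable ℂ G → G 2 ≠ 0 → ∀ᶠ s in 𝓝[≠] z, G s ≠ 0 := by
    intro G hG h2
    have hA : AnalyticOnNhd ℂ G Set.univ := fun x _ => hG.analyticAt x
    rcases (hG.analyticAt z).eventually_eq_zero_or_eventually_ne_zero with h | h
    · exfalso
      apply h2
      have := AnalyticOnNhd.eq_of_eventuallyEq hA (g := fun _ => 0) (fun x _ => analyticAt_const) h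
      rw [this]
    · exact h
  have h1 : ∀ᶠ s in 𝓝[≠] z, s ≠ 1 := by
    have := key (fun s => s - 1) (differentiable_id.sub_const 1) (by norm_num)
    filter_upwards [this] with s hs h
    exact hs (by rw [h]; ring)
  by_cases hψ : ψ = 1
  · subst hψ
    have := key (DirichletCharacter.LFunctionTrivChar₁ N)
      (DirichletCharacter.differentiable_LFunctionTrivChar₁ N) (by
        rw [DirichletCharacter.LFunctionTrivChar₁, Function.update_of_ne (by norm_num)]
        refine mul_ne_zero (by norm_num) ?_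
        exact DirichletCharacter.LFunction_ne_zero_of_one_le_re _ (Or.inr (by norm_num)) (by norm_num))
    filter_upwards [this, h1] with s hs hs1
    refine ⟨hs1, ?_⟩
    rw [DirichletCharacter.LFunctionTrivChar₁, Function.update_of_ne hs1] at hs
    exact right_ne_zero_of_mul hs
  · have := key ψ.LFunction (DirichletCharacter.differentiable_LFunction hψ)
      (DirichletCharacter.LFunction_ne_zero_of_one_le_re _ (Or.inl hψ) (by norm_num))
    filter_upwards [this, h1] with s hs hs1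
    exact ⟨hs1, hs⟩

end EUL

open EUL in
theorem t_EUL : S_EUL := by
  intro b N _ _ hN ψ
  refine ⟨fun s => -(deriv (P ψ b) s / P ψ b s), ?_, ?_, ?_⟩
  · intro s hs
    have hs' : 0 < s.re := hs
    have hd : DifferentiableAt ℂ (deriv (P ψ b)) s :=
      ((P_diff ψ b).analyticAt s).deriv.differentiableAt
    exact ((hd.div ((P_diff ψ b) s) (P_ne ψ b s hs')).neg).differentiableWithinAt
  · refine ⟨∑ p ∈ b.primeFactors, Real.log p / (1 - (2 : ℝ) ^ (-(1 / 4) : ℝ)), fun s hs => ?_⟩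
    have hs' : 0 < s.re := by linarith
    have hq : (2 : ℝ) ^ (-(1 / 4) : ℝ) < 1 :=
      Real.rpow_lt_one_of_one_lt_of_neg (by norm_num) (by norm_num)
    show ‖-(deriv (P ψ b) s / P ψ b s)‖ ≤ _
    rw [P_log ψ b s hs', norm_neg]
    refine (norm_sum_le _ _).trans (Finset.sum_le_sum fun p hp => ?_)
    have hpp := Nat.prime_of_mem_primeFactors hp
    rw [(fac_der ψ p hpp.pos s).deriv, norm_div]
    have hp1 : (1 : ℝ) < p := by exact_mod_cast hpp.one_lt
    have hp2 : (2 : ℝ) ≤ p := by exact_mod_cast hpp.two_le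
    have hlog : ‖Complex.log (p : ℂ)‖ = Real.log p := by
      rw [Complex.natCast_log.symm, Complex.norm_real, Real.norm_eq_abs, abs_of_nonneg (Real.log_nonneg hp1.le)]
    have hle : (p : ℝ) ^ (-s.re) ≤ (2 : ℝ) ^ (-(1 / 4) : ℝ) :=
      calc (p : ℝ) ^ (-s.re) ≤ (p : ℝ) ^ (-(1 / 4) : ℝ) :=
            Real.rpow_le_rpow_of_exponent_le hp1.le (by linarith)
        _ ≤ (2 : ℝ) ^ (-(1 / 4) : ℝ) := Real.rpow_le_rpow_of_nonpos (by norm_num) hp2 (by norm_num)
    have hnum : ‖ψ (p : ZMod N) * ((p : ℂ) ^ (-s) * Complex.log p)‖ ≤ Real.log p := by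
      rw [← mul_assoc, norm_mul, hlog]
      have h1 := fac_norm ψ p hpp.pos s
      have h2 : ‖ψ (p : ZMod N) * (p : ℂ) ^ (-s)‖ ≤ 1 := h1.trans (hle.trans hq.le)
      exact mul_le_of_le_one_left (Real.log_nonneg hp1.le) h2
    have hden : 1 - (2 : ℝ) ^ (-(1 / 4) : ℝ) ≤ ‖fac ψ p s‖ := by
      have := fac_low ψ p hpp.pos s
      linarith
    exact div_le_div₀ (Real.log_nonneg hp1.le) hnum (by linarith) hden
  · intro z hz
    have hre : ∀ᶠ s in 𝓝[≠] z, 0 < s.re :=
      eventually_nhdsWithin_of_eventually_nhds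
        ((isOpen_lt continuous_const Complex.continuous_re).mem_nhds hz)
    filter_upwards [nonvan ψ z, hre] with s hs hsre
    obtain ⟨hs1, hL⟩ := hs
    have hPne := P_ne ψ b s hsre
    have heq : (DirichletCharacter.changeLevel hN ψ).LFunction =ᶠ[𝓝 s]
        fun w => ψ.LFunction w * P ψ b w := by
      have : ∀ᶠ w in 𝓝 s, w ≠ 1 := isOpen_ne.mem_nhds hs1
      filter_upwards [this] with w hw
      exact DirichletCharacter.LFunction_changeLevel hN ψ (Or.inr hw)
    have hder : deriv (DirichletCharacter.changeLevel hN ψ).LFunction s =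
        deriv ψ.LFunction s * P ψ b s + ψ.LFunction s * deriv (P ψ b) s := by
      rw [heq.deriv_eq]
      exact deriv_mul (DirichletCharacter.differentiableAt_LFunction ψ s (Or.inl hs1)) ((P_diff ψ b) s)
    unfold ell
    rw [hder, heq.eq_of_nhds]
    field_simp
    ring

end Pool.Agent.K6.H62.PR
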