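import Pool.Agent.K6.H62.PR.Stm
import Pool.Agent.H370R2.DirGood

set_option autoImplicit false

/-! Piece FEQ: symmetry of `GG`. -/

open Complex Filter Topology

namespace Pool.Agent.K6.H62.PR

namespace FEQ

variable {N : ℕ} [NeZero N]

omit [NeZero N] in
lemma inv_prim {ψ : DirichletCharacter ℂ N} (h : ψ.IsPrimitive) : (ψ⁻¹).IsPrimitive := by
  have h' := h
  rw [DirichletCharacter.isPrimitive_def] at h' ⊢
  rw [DirichletCharacter.conductor_inv, h']

lemma ne_one_of_prim {ψ : DirichletCharacter ℂ N} (h : ψ.IsPrimitive) (hN : N ≠ 1) : ψ ≠ 1 := by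
  rintro rfl
  rw [DirichletCharacter.isPrimitive_def, DirichletCharacter.conductor_one] at h
  exact hN h.symm

omit [NeZero N] in
lemma gf_ne {ψ : DirichletCharacter ℂ N} {s : ℂ} (hs : 0 < s.re) :
    DirichletCharacter.gammaFactor ψ s ≠ 0 := by
  unfold DirichletCharacter.gammaFactor
  split_ifs
  · exact Gammaℝ_ne_zero_of_re_pos hs
  · exact Gammaℝ_ne_zero_of_re_pos (by simp; linarith)

lemma gr_diff {s : ℂ} (hs : 0 < s.re) : DifferentiableAt ℂ Gammaℝ s := by
  have h1 : DifferentiableAt ℂ (fun s ↦ (Gammaℝ s)⁻¹) s := differentiable_Gammaℝ_inv s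
  have h2 := h1.inv (inv_ne_zero (Gammaℝ_ne_zero_of_re_pos hs))
  simpa [Pi.inv_def] using h2

lemma gf_diff {ψ : DirichletCharacter ℂ N} {s : ℂ} (hs : 0 < s.re) :
    DifferentiableAt ℂ (DirichletCharacter.gammaFactor ψ) s := by
  have : DirichletCharacter.gammaFactor ψ = fun s => Gammaℝ (s + H370.DL.aa ψ) := by
    funext s
    exact H370.DL.gammaFactor_eq s
  rw [this]
  have h0 : 0 ≤ (H370.DL.aa ψ).re := by
    unfold H370.DL.aa
    split_ifs <;> simp
  have h1 : DifferentiableAt ℂ Gammaℝ (s + H370.DL.aa ψ) := gr_diff (by simp; linarith)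
  exact DifferentiableAt.fun_comp' s h1 (by fun_prop)

/-- logarithmic derivative of the completed L-function -/
lemma ld_completed {ψ : DirichletCharacter ℂ N} (hψ : ψ ≠ 1) {s : ℂ} (hs : 0 < s.re)
    (hL : ψ.LFunction s ≠ 0) :
    deriv ψ.completedLFunction s / ψ.completedLFunction s =
      deriv (DirichletCharacter.gammaFactor ψ) s / DirichletCharacter.gammaFactor ψ s + ell ψ s := by
  have hs0 : s ≠ 0 := by
    rintro rfl
    simp at hs
  have h1 : ∀ z : ℂ, 0 < z.re → ψ.completedLFunction z =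
      DirichletCharacter.gammaFactor ψ z * ψ.LFunction z := by
    intro z hz
    have hz0 : z ≠ 0 := by
      rintro rfl
      simp at hz
    rw [DirichletCharacter.LFunction_eq_completed_div_gammaFactor ψ z (Or.inl hz0),
      mul_div_cancel₀ _ (gf_ne hz)]
  have h2 : ψ.completedLFunction =ᶠ[𝓝 s]
      fun z => DirichletCharacter.gammaFactor ψ z * ψ.LFunction z := by
    filter_upwards [(isOpen_lt continuous_const continuous_re).mem_nhds hs] with z hz
    exact h1 z hz
  have h3 : DifferentiableAt ℂ ψ.LFunction s :=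
    DirichletCharacter.differentiableAt_LFunction ψ s (Or.inr hψ)
  have h4 : DifferentiableAt ℂ (DirichletCharacter.gammaFactor ψ) s := gf_diff hs
  rw [h2.deriv_eq, h1 s hs]
  have h5 : deriv (fun z => DirichletCharacter.gammaFactor ψ z * ψ.LFunction z) s =
      deriv (DirichletCharacter.gammaFactor ψ) s * ψ.LFunction s +
        DirichletCharacter.gammaFactor ψ s * deriv ψ.LFunction s :=
    (h4.hasDerivAt.mul h3.hasDerivAt).deriv
  rw [h5]
  unfold ell
  have h6 := gf_ne (ψ := ψ) hs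
  field_simp

lemma gg_ell {ψ : DirichletCharacter ℂ N} (hψ : ψ ≠ 1) {s : ℂ} (hs : 0 < s.re)
    (hL : ψ.LFunction s ≠ 0) (hL' : ψ⁻¹.LFunction s ≠ 0) :
    GG ψ s = ell ψ s - ell ψ⁻¹ s := by
  have hψ' : ψ⁻¹ ≠ 1 := inv_ne_one.mpr hψ
  unfold GG
  rw [ld_completed hψ hs hL, ld_completed hψ' hs hL']
  have h1 : DirichletCharacter.gammaFactor ψ⁻¹ = DirichletCharacter.gammaFactor ψ := by
    funext z
    exact H370.DL.gammaFactor_inv z
  rw [h1]
  ring

/-- the functional equation for the logarithmic derivatives -/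
lemma ld_one_sub {ψ : DirichletCharacter ℂ N} (h : ψ.IsPrimitive) (hN : N ≠ 1) {s : ℂ}
    (hs : ψ⁻¹.completedLFunction s ≠ 0) :
    deriv ψ.completedLFunction (1 - s) / ψ.completedLFunction (1 - s) =
      - Complex.log (N : ℂ) - deriv ψ⁻¹.completedLFunction s / ψ⁻¹.completedLFunction s := by
  have hψ := ne_one_of_prim h hN
  have hψ' : ψ⁻¹ ≠ 1 := inv_ne_one.mpr hψ
  have hd : DifferentiableAt ℂ ψ.completedLFunction (1 - s) :=
    DirichletCharacter.differentiable_completedLFunction hψ (1 - s)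
  have hd' : DifferentiableAt ℂ ψ⁻¹.completedLFunction s :=
    DirichletCharacter.differentiable_completedLFunction hψ' s
  have hNc : (N : ℂ) ≠ 0 := by exact_mod_cast NeZero.ne N
  have hW := H370.DL.rootNumber_ne_zero h
  have h1 : (fun z => ψ.completedLFunction (1 - z)) = fun z =>
      (N : ℂ) ^ (z - 1 / 2) * DirichletCharacter.rootNumber ψ * ψ⁻¹.completedLFunction z := by
    funext z
    exact DirichletCharacter.IsPrimitive.completedLFunction_one_sub h z
  have h2 : HasDerivAt (fun z => ψ.completedLFunction (1 - z))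
      (deriv ψ.completedLFunction (1 - s) * (-1)) s := by
    have h3 : HasDerivAt (fun z : ℂ => 1 - z) (-1) s := (hasDerivAt_id s).const_sub 1
    exact HasDerivAt.comp s hd.hasDerivAt h3
  have h4 : HasDerivAt (fun z : ℂ => (N : ℂ) ^ (z - 1 / 2))
      ((N : ℂ) ^ (s - 1 / 2) * Complex.log (N : ℂ) * 1) s := by
    have h5 : HasDerivAt (fun z : ℂ => z - 1 / 2) 1 s := (hasDerivAt_id s).sub_const (1 / 2)
    exact h5.const_cpow (Or.inl hNc)
  have h6 : HasDerivAt (fun z => (N : ℂ) ^ (z - 1 / 2) * DirichletCharacter.rootNumber ψ *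
      ψ⁻¹.completedLFunction z)
      ((N : ℂ) ^ (s - 1 / 2) * Complex.log (N : ℂ) * 1 * DirichletCharacter.rootNumber ψ *
        ψ⁻¹.completedLFunction s + (N : ℂ) ^ (s - 1 / 2) * DirichletCharacter.rootNumber ψ *
        deriv ψ⁻¹.completedLFunction s) s :=
    (h4.mul_const _).mul hd'.hasDerivAt
  rw [← h1] at h6
  have h7 := h2.unique h6
  have h8 : ψ.completedLFunction (1 - s) =
      (N : ℂ) ^ (s - 1 / 2) * DirichletCharacter.rootNumber ψ * ψ⁻¹.completedLFunction s :=
    DirichletCharacter.IsPrimitive.completedLFunction_one_sub h s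
  have h9 : (N : ℂ) ^ (s - 1 / 2) ≠ 0 := by
    rw [Ne, cpow_eq_zero_iff]
    exact fun h => hNc h.1
  have h10 : deriv ψ.completedLFunction (1 - s) =
      - ((N : ℂ) ^ (s - 1 / 2) * Complex.log (N : ℂ) * 1 * DirichletCharacter.rootNumber ψ *
        ψ⁻¹.completedLFunction s + (N : ℂ) ^ (s - 1 / 2) * DirichletCharacter.rootNumber ψ *
        deriv ψ⁻¹.completedLFunction s) := by
    rw [← h7]
    ring
  rw [h10, h8]
  generalize deriv ψ⁻¹.completedLFunction s = D at *
  generalize ψ⁻¹.completedLFunction s = F at *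
  generalize (N : ℂ) ^ (s - 1 / 2) = P at *
  generalize DirichletCharacter.rootNumber ψ = W at *
  field_simp
  ring

lemma gg_symm {ψ : DirichletCharacter ℂ N} (h : ψ.IsPrimitive) (hN : N ≠ 1) {s : ℂ}
    (hs : ψ.completedLFunction s ≠ 0) (hs' : ψ⁻¹.completedLFunction s ≠ 0) :
    GG ψ (1 - s) = GG ψ s := by
  have h1 := ld_one_sub h hN hs'
  have h2 := ld_one_sub (inv_prim h) hN (s := s) (by rwa [inv_inv])
  rw [inv_inv] at h2
  unfold GG
  rw [h1, h2]
  ring

lemma an_completed {ψ : DirichletCharacter ℂ N} (hψ : ψ ≠ 1) (z : ℂ) :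
    AnalyticAt ℂ ψ.completedLFunction z :=
  (DirichletCharacter.differentiable_completedLFunction hψ).analyticAt z

/-- the completed L-function does not vanish to the right of `1` -/
lemma completed_two {ψ : DirichletCharacter ℂ N} (hψ : ψ ≠ 1) : ψ.completedLFunction 2 ≠ 0 := by
  have h0 : (2 : ℂ) ≠ 0 := two_ne_zero
  have h1 := DirichletCharacter.LFunction_eq_completed_div_gammaFactor ψ 2 (Or.inl h0)
  have h2 : ψ.LFunction 2 ≠ 0 :=
    DirichletCharacter.LFunction_ne_zero_of_one_le_re ψ (Or.inl hψ) (by norm_num)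
  intro h3
  rw [h3, zero_div] at h1
  exact h2 h1

lemma ev_completed {ψ : DirichletCharacter ℂ N} (hψ : ψ ≠ 1) (z : ℂ) :
    ∀ᶠ s in 𝓝[≠] z, ψ.completedLFunction s ≠ 0 := by
  rcases (an_completed hψ z).eventually_eq_zero_or_eventually_ne_zero with h | h
  · exfalso
    have h1 : AnalyticOnNhd ℂ ψ.completedLFunction Set.univ := fun w _ => an_completed hψ w
    have h2 := h1.eqOn_zero_of_preconnected_of_eventuallyEq_zero isPreconnected_univ
      (Set.mem_univ z) h
    exact completed_two hψ (h2 (Set.mem_univ 2))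
  · exact h

lemma ev_L {ψ : DirichletCharacter ℂ N} (hψ : ψ ≠ 1) (z : ℂ) :
    ∀ᶠ s in 𝓝[≠] z, 0 < s.re → ψ.LFunction s ≠ 0 := by
  filter_upwards [ev_completed hψ z] with s hs hs0
  have hz0 : s ≠ 0 := by
    rintro rfl
    simp at hs0
  rw [DirichletCharacter.LFunction_eq_completed_div_gammaFactor ψ s (Or.inl hz0)]
  exact div_ne_zero hs (gf_ne hs0)

end FEQ

open FEQ in
theorem t_FEQ : S_FEQ := by
  intro N _ ψ h hN
  have hψ := ne_one_of_prim h hN
  have hψ' : ψ⁻¹ ≠ 1 := inv_ne_one.mpr hψ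
  refine ⟨?_, ?_, ?_, ?_⟩
  · intro z
    filter_upwards [ev_completed hψ z, ev_completed hψ' z] with s h1 h2
    exact gg_symm h hN h1 h2
  · intro z hz
    have h0 : ∀ᶠ s : ℂ in 𝓝[≠] z, 0 < s.re :=
      nhdsWithin_le_nhds ((isOpen_lt continuous_const continuous_re).mem_nhds hz)
    filter_upwards [h0, ev_L hψ z, ev_L hψ' z] with s h1 h2 h3
    exact gg_ell hψ h1 (h2 h1) (h3 h1)
  · intro s hs
    exact gg_ell hψ (by linarith)
      (DirichletCharacter.LFunction_ne_zero_of_one_le_re ψ (Or.inl hψ) hs.le)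
      (DirichletCharacter.LFunction_ne_zero_of_one_le_re ψ⁻¹ (Or.inl hψ') hs.le)
  · intro z
    have h1 := an_completed hψ z
    have h2 := an_completed hψ' z
    exact (h1.deriv.meromorphicAt.div h1.meromorphicAt).sub
      (h2.deriv.meromorphicAt.div h2.meromorphicAt)

end Pool.Agent.K6.H62.PR
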