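import Pool.Agent.K6.H62.PR.Stm

/-!
Piece FIN of the project of helper62 (`MP_c04f8f_nt`), by helper36.
-/

open Complex Filter Topology

namespace Pool.Agent.K6.H62.PR

namespace FIN

theorem DD_cf {b : ℕ} (a₁ a n : ℕ) :
    DD (cf (a₁ : ZMod b) (a : ZMod b)) n =
      (((Finset.range (n + 1)).filter (fun p => p.Prime ∧ p ≡ a₁ [MOD b])).card : ℝ) -
      (((Finset.range (n + 1)).filter (fun p => p.Prime ∧ p ≡ a [MOD b])).card : ℝ) := by
  unfold DD cf
  rw [Finset.card_filter, Finset.card_filter]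
  push_cast
  rw [← Finset.sum_sub_distrib]
  refine Finset.sum_congr rfl fun k _ => ?_
  simp only [ZMod.natCast_eq_natCast_iff]
  by_cases hp : k.Prime
  · simp [hp]
  · simp [hp]

theorem step {b : ℕ} (a₁ a : ℕ)
    (h : ¬ ∃ n0 : ℕ, ∀ n, n0 ≤ n → 0 ≤ DD (cf (a₁ : ZMod b) (a : ZMod b)) n) (N : ℕ) :
    ∃ n : ℕ, N ≤ n ∧
        ((Finset.range (n + 1)).filter (fun p => p.Prime ∧ p ≡ a₁ [MOD b])).card <
        ((Finset.range (n + 1)).filter (fun p => p.Prime ∧ p ≡ a [MOD b])).card := by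
  by_contra hcon
  apply h
  refine ⟨N, fun n hn => ?_⟩
  rw [DD_cf]
  have h1 := fun hlt => hcon ⟨n, hn, hlt⟩
  have h2 := not_lt.1 h1
  have h3 : (((Finset.range (n + 1)).filter (fun p => p.Prime ∧ p ≡ a [MOD b])).card : ℝ) ≤
      (((Finset.range (n + 1)).filter (fun p => p.Prime ∧ p ≡ a₁ [MOD b])).card : ℝ) := by
    exact_mod_cast h2
  linarith

end FIN

theorem t_FIN (h1 : S_ONE) (h2 : S_INV) : S_FIN := by
  intro a b a₁ hb hab hne hcase N
  have hbz : NeZero b := ⟨by omega⟩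
  have hu : IsUnit (a : ZMod b) := (ZMod.isUnit_iff_coprime a b).2 hab
  have hne' : (a₁ : ZMod b) ≠ (a : ZMod b) := by
    intro h
    exact hne ((ZMod.natCast_eq_natCast_iff a₁ a b).1 h)
  apply FIN.step
  rcases hcase with h | h
  · have e : (a₁ : ZMod b) = 1 := by
      have := (ZMod.natCast_eq_natCast_iff a₁ 1 b).2 h
      simpa using this
    rw [e]
    rw [e] at hne'
    exact h1 b (a : ZMod b) hu (Ne.symm hne')
  · have e : (a : ZMod b) * (a₁ : ZMod b) = 1 := by
      have := (ZMod.natCast_eq_natCast_iff (a * a₁) 1 b).2 h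
      push_cast at this
      exact this
    have e2 : (a₁ : ZMod b) = (a : ZMod b)⁻¹ := by
      have h3 := ZMod.mul_inv_of_unit (a : ZMod b) hu
      have h4 : (a : ZMod b) * (a₁ : ZMod b) = (a : ZMod b) * (a : ZMod b)⁻¹ := by rw [e, h3]
      exact hu.mul_left_cancel h4
    have e3 : (a : ZMod b) * (a : ZMod b) ≠ 1 := by
      intro h3
      apply hne'
      exact hu.mul_left_cancel (e.trans h3.symm)
    rw [e2]
    exact h2 b (a : ZMod b) hu e3

end Pool.Agent.K6.H62.PR
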