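import Pool.Agent.K6.H62.PR.Stm

set_option autoImplicit false

/-! Piece GRQ of the prime number race theorem (helper1 for helper62). -/

open Complex Filter Topology

namespace Pool.Agent.K6.H62.PR

open scoped ArithmeticFunction.vonMangoldt

namespace GRQ

open ArithmeticFunction

lemma res_eq (n : ℕ) : vonMangoldt.residueClass (1 : ZMod 1) n = vonMangoldt n := by
  unfold vonMangoldt.residueClass
  rw [Set.indicator_of_mem]
  exact Subsingleton.elim _ _

lemma unit1 : IsUnit (1 : ZMod 1) := isUnit_one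

lemma exists_aux : ∃ C : ℝ, 0 ≤ C ∧ ∀ x : ℝ, 1 < x → x ≤ 2 →
    ‖LSeries (fun n => (vonMangoldt n : ℂ)) (x : ℂ)‖ ≤ 1 / (x - 1) + C := by
  have hc := vonMangoldt.continuousOn_LFunctionResidueClassAux (1 : ZMod 1)
  have hK : IsCompact ((fun x : ℝ => (x : ℂ)) '' Set.Icc (1 : ℝ) 2) :=
    isCompact_Icc.image Complex.continuous_ofReal
  have hsub : ((fun x : ℝ => (x : ℂ)) '' Set.Icc (1 : ℝ) 2) ⊆ {s : ℂ | 1 ≤ s.re} := by
    rintro _ ⟨x, hx, rfl⟩
    simpa using hx.1
  obtain ⟨C, hC⟩ := hK.exists_bound_of_continuousOn (hc.mono hsub)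
  refine ⟨max C 0, le_max_right _ _, fun x hx hx2 => ?_⟩
  have h1 := hC (x : ℂ) ⟨x, ⟨hx.le, hx2⟩, rfl⟩
  have h2 := vonMangoldt.eqOn_LFunctionResidueClassAux unit1 (show (x : ℂ) ∈ {s : ℂ | 1 < s.re} by
    simpa using hx)
  have h3 : LSeries (fun n => (vonMangoldt n : ℂ)) (x : ℂ) =
      LSeries (fun n => ((vonMangoldt.residueClass (1 : ZMod 1) n : ℝ) : ℂ)) (x : ℂ) := by
    congr 1
    funext n
    rw [res_eq]
  have h4 : LSeries (fun n => (vonMangoldt n : ℂ)) (x : ℂ) =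
      vonMangoldt.LFunctionResidueClassAux (1 : ZMod 1) (x : ℂ) + 1 / ((x : ℂ) - 1) := by
    rw [h3, h2]
    simp
  rw [h4]
  refine (norm_add_le _ _).trans ?_
  have h5 : ‖1 / ((x : ℂ) - 1)‖ = 1 / (x - 1) := by
    rw [norm_div, norm_one]
    congr 1
    rw [show ((x : ℂ) - 1) = ((x - 1 : ℝ) : ℂ) by push_cast; ring, Complex.norm_real,
      Real.norm_of_nonneg (by linarith)]
  rw [h5]
  have := le_max_left C 0
  linarith

lemma term_norm (x : ℝ) (n : ℕ) :
    ‖LSeries.term (fun n => (vonMangoldt n : ℂ)) (x : ℂ) n‖ =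
      (LSeries.term (fun n => (vonMangoldt n : ℂ)) (x : ℂ) n).re := by
  rcases Nat.eq_zero_or_pos n with rfl | hn
  · simp
  · rw [LSeries.term_of_ne_zero hn.ne']
    have : ((vonMangoldt n : ℝ) : ℂ) / (n : ℂ) ^ (x : ℂ) = ((vonMangoldt n / (n : ℝ) ^ x : ℝ) : ℂ) := by
      push_cast
      rw [Complex.ofReal_cpow (Nat.cast_nonneg n)]
      simp
    rw [this, Complex.norm_real, Complex.ofReal_re, Real.norm_of_nonneg]
    exact div_nonneg vonMangoldt_nonneg (Real.rpow_nonneg (Nat.cast_nonneg n) _)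

lemma tsum_norm_le (x : ℝ) (hx : 1 < x) :
    ∑' n, ‖LSeries.term (fun n => (vonMangoldt n : ℂ)) (x : ℂ) n‖ ≤
      ‖LSeries (fun n => (vonMangoldt n : ℂ)) (x : ℂ)‖ := by
  have hs : LSeriesSummable (fun n => (vonMangoldt n : ℂ)) (x : ℂ) :=
    LSeriesSummable_vonMangoldt (by simpa using hx)
  have h1 : ∑' n, ‖LSeries.term (fun n => (vonMangoldt n : ℂ)) (x : ℂ) n‖ =
      (LSeries (fun n => (vonMangoldt n : ℂ)) (x : ℂ)).re := by
    unfold LSeries
    rw [Complex.re_tsum hs]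
    exact tsum_congr fun n => term_norm x n
  rw [h1]
  exact Complex.re_le_norm _

lemma exists_bound : ∃ C : ℝ, 0 ≤ C ∧ ∀ x : ℝ, 1 < x →
    ∑' n, ‖LSeries.term (fun n => (vonMangoldt n : ℂ)) (x : ℂ) n‖ ≤ C * (1 + 1 / (x - 1)) := by
  obtain ⟨C, hC0, hC⟩ := exists_aux
  refine ⟨1 + C, by linarith, fun x hx => ?_⟩
  have hpos : 0 ≤ 1 / (x - 1) := by
    apply div_nonneg zero_le_one; linarith
  rcases le_total x 2 with h2 | h2
  · refine (tsum_norm_le x hx).trans ((hC x hx h2).trans ?_)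
    nlinarith
  · have hs2 : LSeriesSummable (fun n => (vonMangoldt n : ℂ)) ((2 : ℝ) : ℂ) :=
      LSeriesSummable_vonMangoldt (by simp)
    have hsx : LSeriesSummable (fun n => (vonMangoldt n : ℂ)) (x : ℂ) :=
      LSeriesSummable_vonMangoldt (by simpa using hx)
    have h3 : ∑' n, ‖LSeries.term (fun n => (vonMangoldt n : ℂ)) (x : ℂ) n‖ ≤
        ∑' n, ‖LSeries.term (fun n => (vonMangoldt n : ℂ)) ((2 : ℝ) : ℂ) n‖ := by
      refine hsx.norm.tsum_le_tsum (fun n => ?_) hs2.norm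
      exact LSeries.norm_term_le_of_re_le_re _ (by simpa using h2) n
    refine h3.trans ((tsum_norm_le 2 (by norm_num)).trans ((hC 2 (by norm_num) le_rfl).trans ?_))
    have h4 : 1 / ((2 : ℝ) - 1) + C = 1 + C := by norm_num
    rw [h4]
    have h5 : 0 ≤ (1 + C) * (1 / (x - 1)) := mul_nonneg (by linarith) hpos
    linarith

end GRQ

open ArithmeticFunction in
theorem t_GRQ (hQFB : S_QFB) : S_GRQ := by
  intro b _
  obtain ⟨C, hC0, hC⟩ := GRQ.exists_bound
  set D : ℝ := ∑ c : ZMod b, ∑' n, ‖LSeries.term (hh c) (((5 : ℝ) / 12 : ℝ) : ℂ) n‖ with hD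
  have hD0 : 0 ≤ D := Finset.sum_nonneg fun c _ => tsum_nonneg fun n => norm_nonneg _
  refine ⟨C + D, fun s hs => ⟨fun χ => ?_, fun c => ?_⟩⟩
  · have h2 : 1 < (2 * s).re := by simp; linarith
    have e1 : ell χ (2 * s) = - LSeries ((fun n : ℕ => χ n) * (fun n : ℕ => (vonMangoldt n : ℂ))) (2 * s) := by
      unfold ell
      rw [DirichletCharacter.LSeries_twist_vonMangoldt_eq χ h2,
        DirichletCharacter.deriv_LFunction_eq_deriv_LSeries _ h2,
        DirichletCharacter.LFunction_eq_LSeries _ h2]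
      ring
    rw [e1, norm_neg]
    have hsum := DirichletCharacter.LSeriesSummable_twist_vonMangoldt χ h2
    have hx : 1 < 2 * s.re := by linarith
    have hsx : LSeriesSummable (fun n => (vonMangoldt n : ℂ)) ((2 * s.re : ℝ) : ℂ) :=
      LSeriesSummable_vonMangoldt (by rw [Complex.ofReal_re]; exact hx)
    have h3 : ‖LSeries ((fun n : ℕ => χ n) * (fun n : ℕ => (vonMangoldt n : ℂ))) (2 * s)‖ ≤
        ∑' n, ‖LSeries.term (fun n => (vonMangoldt n : ℂ)) ((2 * s.re : ℝ) : ℂ) n‖ := by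
      unfold LSeries
      refine (norm_tsum_le_tsum_norm hsum.norm).trans ?_
      refine hsum.norm.tsum_le_tsum (fun n => ?_) hsx.norm
      rcases Nat.eq_zero_or_pos n with rfl | hn
      · simp
      · rw [LSeries.term_of_ne_zero hn.ne', LSeries.term_of_ne_zero hn.ne', norm_div, norm_div,
          Complex.norm_natCast_cpow_of_pos hn, Complex.norm_natCast_cpow_of_pos hn]
        have e2 : (2 * s).re = ((2 * s.re : ℝ) : ℂ).re := by simp
        rw [e2]
        apply div_le_div_of_nonneg_right _ (Real.rpow_nonneg (Nat.cast_nonneg n) _)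
        rw [Pi.mul_apply, norm_mul]
        calc ‖χ n‖ * ‖(vonMangoldt n : ℂ)‖ ≤ 1 * ‖(vonMangoldt n : ℂ)‖ :=
              mul_le_mul_of_nonneg_right (χ.norm_le_one _) (norm_nonneg _)
          _ = _ := one_mul _
    refine h3.trans ((hC _ hx).trans ?_)
    have h4 : 1 / (2 * s.re - 1) ≤ 1 / (s.re - 1 / 2) := by
      apply one_div_le_one_div_of_le <;> linarith
    have h5 : 0 ≤ 1 / (s.re - 1 / 2) := by apply div_nonneg zero_le_one; linarith
    nlinarith
  · have hs' : LSeriesSummable (hh c) (((5 : ℝ) / 12 : ℝ) : ℂ) := hQFB b c (5 / 12) (by norm_num)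
    have hre : (((5 : ℝ) / 12 : ℝ) : ℂ).re ≤ s.re := by
      rw [Complex.ofReal_re]; linarith
    have hss : LSeriesSummable (hh c) s := hs'.of_re_le_re hre
    have h1 : ‖LSeries (hh c) s‖ ≤ ∑' n, ‖LSeries.term (hh c) (((5 : ℝ) / 12 : ℝ) : ℂ) n‖ := by
      unfold LSeries
      refine (norm_tsum_le_tsum_norm hss.norm).trans ?_
      exact hss.norm.tsum_le_tsum (fun n => LSeries.norm_term_le_of_re_le_re _ hre n) hs'.norm
    have h2 : ∑' n, ‖LSeries.term (hh c) (((5 : ℝ) / 12 : ℝ) : ℂ) n‖ ≤ D :=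
      Finset.single_le_sum (f := fun c : ZMod b => ∑' n, ‖LSeries.term (hh c) (((5 : ℝ) / 12 : ℝ) : ℂ) n‖)
        (fun c _ => tsum_nonneg fun n => norm_nonneg _) (Finset.mem_univ c)
    linarith

end Pool.Agent.K6.H62.PR
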