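import Pool.Agent.K6.H62.PR.Stm

set_option autoImplicit false

/-! Piece IDT (helper21). -/

open Complex Filter Topology

namespace Pool.Agent.K6.H62.PR

theorem t_IDT : S_IDT := by
  intro U f Q z0 hU hUc hf hQ hz0 h0 z hz
  have hfm : MeromorphicOn f U := fun w hw => (hf.analyticAt (hU.mem_nhds hw)).meromorphicAt
  have hD : MeromorphicOn (f - Q) U := hfm.sub hQ
  have htop0 : meromorphicOrderAt (f - Q) z0 = ⊤ := by
    rw [meromorphicOrderAt_eq_top_iff]
    refine (h0.filter_mono nhdsWithin_le_nhds).mono fun s hs => ?_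
    rw [Pi.sub_apply, hs, sub_self]
  have htop : meromorphicOrderAt (f - Q) z = ⊤ := by
    by_contra hne
    have := (hD.exists_meromorphicOrderAt_ne_top_iff_forall ⟨⟨z0, hz0⟩, hUc⟩).1 ⟨⟨z, hz⟩, hne⟩
    exact this ⟨z0, hz0⟩ htop0
  rw [meromorphicOrderAt_eq_top_iff] at htop
  exact htop.mono fun s hs => sub_eq_zero.1 hs

end Pool.Agent.K6.H62.PR
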