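import Pool.Agent.K6.H62.PR.Stm

set_option autoImplicit false

/-! Piece LDL (helper21). -/

open Complex Filter Topology

namespace Pool.Agent.K6.H62.PR

theorem t_LDL : S_LDL := by
  intro f z hf ho
  have hn : ((analyticOrderNatAt f z : ℕ) : ℕ∞) = analyticOrderAt f z :=
    Nat.cast_analyticOrderNatAt ho
  obtain ⟨g, hg, hgz, hfg⟩ := (hf.analyticOrderAt_eq_natCast (n := analyticOrderNatAt f z)).1 hn.symm
  set m := analyticOrderNatAt f z with hm
  refine ⟨fun s => deriv g s / g s, hg.deriv.div hg hgz, ?_⟩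
  have h1 : ∀ᶠ s in 𝓝 z, deriv f s = deriv (fun s => (s - z) ^ m • g s) s :=
    (Filter.EventuallyEq.deriv (show f =ᶠ[𝓝 z] fun s => (s - z) ^ m • g s from hfg))
  have h2 : ∀ᶠ s in 𝓝 z, g s ≠ 0 := hg.continuousAt.eventually_ne hgz
  have h3 : ∀ᶠ s in 𝓝 z, AnalyticAt ℂ g s := hg.eventually_analyticAt
  rw [eventually_nhdsWithin_iff]
  filter_upwards [hfg, h1, h2, h3] with s e0 e1 e2 e3 hs
  have hsz : s - z ≠ 0 := sub_ne_zero.2 hs
  have hd : HasDerivAt (fun s => (s - z) ^ m • g s)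
      ((m : ℂ) * (s - z) ^ (m - 1) * 1 * g s + (s - z) ^ m * deriv g s) s := by
    exact (((hasDerivAt_id s).sub_const z).fun_pow m).fun_mul e3.differentiableAt.hasDerivAt
  rw [e1, hd.deriv, e0, smul_eq_mul]
  rcases Nat.eq_zero_or_pos m with h0 | h0
  · simp [h0]
  · obtain ⟨k, hk⟩ : ∃ k, m = k + 1 := ⟨m - 1, by omega⟩
    rw [hk]
    simp only [Nat.add_sub_cancel]
    field_simp
    ring

end Pool.Agent.K6.H62.PR
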