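import Pool.Agent.K6.H62.PR.Stm

/-! Piece LIO (seat helper7). -/

set_option autoImplicit false

open Complex Filter Topology Metric

namespace Pool.Agent.K6.H62.PR

namespace LIO

theorem norm_sq_add (w : ℂ) (R : ℝ) (hw : ‖w‖ = R) : ‖w ^ 2 + (R : ℂ) ^ 2‖ = R * (2 * |w.re|) := by
  have h1 : (R : ℂ) ^ 2 = w * (starRingEnd ℂ) w := by
    rw [Complex.mul_conj, Complex.normSq_eq_norm_sq, hw]
    push_cast
    rfl
  have h2 : w ^ 2 + (R : ℂ) ^ 2 = w * ((2 * w.re : ℝ) : ℂ) := by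
    rw [h1, sq, ← mul_add, Complex.add_conj]
  rw [h2, norm_mul, hw, Complex.norm_real, Real.norm_eq_abs, abs_mul, abs_two]

theorem C_nonneg (g : ℂ → ℂ) (C : ℝ)
    (hb : ∀ s : ℂ, s.re ≠ 1 / 2 → ‖g s‖ ≤ C * (1 + ‖s‖) ^ 3 * (1 + 1 / |s.re - 1 / 2|)) :
    0 ≤ C := by
  have h := hb 0 (by simp)
  rw [norm_zero, add_zero, one_pow, mul_one] at h
  have h1 := (norm_nonneg _).trans h
  have h2 : (0 : ℝ) < 1 + 1 / |(0 : ℂ).re - 1 / 2| := by positivity
  exact nonneg_of_mul_nonneg_left h1 h2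

/-- bound on a circle -/
theorem circle (g : ℂ → ℂ) (C : ℝ)
    (hb : ∀ s : ℂ, s.re ≠ 1 / 2 → ‖g s‖ ≤ C * (1 + ‖s‖) ^ 3 * (1 + 1 / |s.re - 1 / 2|))
    (R : ℝ) (hR : 1 ≤ R) (w : ℂ) (hw : ‖w‖ = R) :
    ‖g (w + 1 / 2) * (w ^ 2 + (R : ℂ) ^ 2)‖ ≤ 63 * C * R ^ 5 := by
  have hC := C_nonneg g C hb
  rw [norm_mul, norm_sq_add w R hw]
  by_cases h0 : w.re = 0
  · rw [h0, abs_zero, mul_zero, mul_zero, mul_zero]
    positivity
  have hre : (w + 1 / 2).re = w.re + 1 / 2 := by simp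
  have hne : (w + 1 / 2).re ≠ 1 / 2 := by
    rw [hre]
    intro h
    apply h0
    linarith
  have h1 := hb (w + 1 / 2) hne
  have h2 : (w + 1 / 2).re - 1 / 2 = w.re := by rw [hre]; ring
  rw [h2] at h1
  have ha : 0 < |w.re| := abs_pos.2 h0
  have hle : |w.re| ≤ R := hw ▸ Complex.abs_re_le_norm w
  have h3 : ‖w + 1 / 2‖ ≤ R + 1 / 2 := by
    refine (norm_add_le _ _).trans ?_
    rw [hw]
    norm_num
  have h4 : (1 + ‖w + 1 / 2‖) ^ 3 ≤ (5 / 2 * R) ^ 3 := by
    apply pow_le_pow_left₀ (by positivity)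
    linarith
  calc ‖g (w + 1 / 2)‖ * (R * (2 * |w.re|))
      ≤ (C * (1 + ‖w + 1 / 2‖) ^ 3 * (1 + 1 / |w.re|)) * (R * (2 * |w.re|)) :=
        mul_le_mul_of_nonneg_right h1 (by positivity)
    _ = C * (1 + ‖w + 1 / 2‖) ^ 3 * (2 * R * (|w.re| + 1)) := by
        field_simp
    _ ≤ C * (5 / 2 * R) ^ 3 * (2 * R * (R + R)) := by
        apply mul_le_mul _ _ (by positivity) (by positivity)
        · exact mul_le_mul_of_nonneg_left h4 hC
        · apply mul_le_mul_of_nonneg_left _ (by positivity)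
          linarith
    _ = 62.5 * (C * R ^ 5) := by ring
    _ ≤ 63 * C * R ^ 5 := by
        have : 0 ≤ C * R ^ 5 := by positivity
        linarith

/-- polynomial growth -/
theorem growth (g : ℂ → ℂ) (C : ℝ) (hg : Differentiable ℂ g)
    (hb : ∀ s : ℂ, s.re ≠ 1 / 2 → ‖g s‖ ≤ C * (1 + ‖s‖) ^ 3 * (1 + 1 / |s.re - 1 / 2|))
    (z : ℂ) (hz : 1 ≤ ‖z‖) : ‖g (z + 1 / 2)‖ ≤ 700 * C * ‖z‖ ^ 3 := by
  have hC := C_nonneg g C hb
  set R : ℝ := 2 * ‖z‖ with hR
  have hR1 : 1 ≤ R := by rw [hR]; linarith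
  have hR0 : 0 < R := by linarith
  have hd : Differentiable ℂ fun w : ℂ => g (w + 1 / 2) * (w ^ 2 + (R : ℂ) ^ 2) := by
    have h1 : Differentiable ℂ fun w : ℂ => g (w + 1 / 2) :=
      hg.comp (differentiable_id.add_const _)
    exact h1.mul ((differentiable_id.pow 2).add_const _)
  have hmax := Complex.norm_le_of_forall_mem_frontier_norm_le (U := ball (0 : ℂ) R)
    isBounded_ball hd.diffContOnCl (C := 63 * C * R ^ 5) (fun w hw => by
      rw [frontier_ball (0 : ℂ) hR0.ne', mem_sphere_zero_iff_norm] at hw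
      exact circle g C hb R hR1 w hw) (z := z) (by
      apply subset_closure
      rw [mem_ball_zero_iff, hR]
      linarith)
  rw [norm_mul] at hmax
  have h2 : 3 * ‖z‖ ^ 2 ≤ ‖z ^ 2 + (R : ℂ) ^ 2‖ := by
    have h3 : ‖(R : ℂ) ^ 2‖ - ‖z ^ 2‖ ≤ ‖z ^ 2 + (R : ℂ) ^ 2‖ := by
      have := norm_sub_norm_le ((R : ℂ) ^ 2) (-(z ^ 2))
      rw [norm_neg, sub_neg_eq_add, add_comm ((R : ℂ) ^ 2)] at this
      exact this
    rw [norm_pow, norm_pow, Complex.norm_real, Real.norm_eq_abs, abs_of_pos hR0, hR] at h3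
    nlinarith
  have hz2 : 0 < ‖z‖ ^ 2 := by positivity
  have h4 : ‖g (z + 1 / 2)‖ * (3 * ‖z‖ ^ 2) ≤ 63 * C * (2 * ‖z‖) ^ 5 :=
    (mul_le_mul_of_nonneg_left h2 (norm_nonneg _)).trans hmax
  have h5 : 63 * C * (2 * ‖z‖) ^ 5 = 672 * C * ‖z‖ ^ 3 * (3 * ‖z‖ ^ 2) := by ring
  rw [h5] at h4
  have h6 := le_of_mul_le_mul_right h4 (by positivity)
  refine h6.trans ?_
  have : 0 ≤ C * ‖z‖ ^ 3 := by positivity
  nlinarith

theorem deriv_zero (g : ℂ → ℂ) (C : ℝ) (hg : Differentiable ℂ g)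
    (hb : ∀ s : ℂ, s.re ≠ 1 / 2 → ‖g s‖ ≤ C * (1 + ‖s‖) ^ 3 * (1 + 1 / |s.re - 1 / 2|))
    (n : ℕ) (hn : 4 ≤ n) : iteratedDeriv n (fun w : ℂ => g (w + 1 / 2)) 0 = 0 := by
  have hC := C_nonneg g C hb
  have hG : Differentiable ℂ fun w : ℂ => g (w + 1 / 2) :=
    hg.comp (differentiable_id.add_const _)
  have h1 : ∀ R : ℝ, 1 ≤ R →
      ‖iteratedDeriv n (fun w : ℂ => g (w + 1 / 2)) 0‖ ≤ n.factorial * (700 * C) * R⁻¹ := by
    intro R hR
    have hR0 : 0 < R := by linarith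
    have h2 := Complex.norm_iteratedDeriv_le_of_forall_mem_sphere_norm_le (c := 0) (R := R)
      (C := 700 * C * R ^ 3) (f := fun w : ℂ => g (w + 1 / 2)) n hR0 hG.diffContOnCl (by
        intro z hz
        rw [mem_sphere_zero_iff_norm] at hz
        have := growth g C hg hb z (by rw [hz]; exact hR)
        rw [hz] at this
        exact this)
    refine h2.trans ?_
    rw [div_le_iff₀ (by positivity)]
    have h3 : R ^ 4 ≤ R ^ n := pow_le_pow_right₀ hR hn
    have h4 : (n.factorial : ℝ) * (700 * C * R ^ 3) =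
        n.factorial * (700 * C) * R⁻¹ * R ^ 4 := by
      field_simp
    rw [h4]
    apply mul_le_mul_of_nonneg_left h3
    positivity
  have h2 : Tendsto (fun R : ℝ => n.factorial * (700 * C) * R⁻¹) atTop (𝓝 0) := by
    have := (tendsto_inv_atTop_zero (𝕜 := ℝ)).const_mul (n.factorial * (700 * C) : ℝ)
    rwa [mul_zero] at this
  have h3 : ‖iteratedDeriv n (fun w : ℂ => g (w + 1 / 2)) 0‖ ≤ 0 :=
    ge_of_tendsto h2 ((eventually_ge_atTop 1).mono h1)
  exact norm_le_zero_iff.1 h3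

end LIO

/-- piece LIO -/
theorem t_LIO : S_LIO := by
  intro g C hg hb hlim
  set G : ℂ → ℂ := fun w => g (w + 1 / 2) with hGdef
  have hG : Differentiable ℂ G := hg.comp (differentiable_id.add_const _)
  set a : ℕ → ℂ := fun n => (n.factorial : ℂ)⁻¹ * iteratedDeriv n G 0 with ha
  set P : Polynomial ℂ := ∑ n ∈ Finset.range 4, Polynomial.C (a n) * Polynomial.X ^ n with hP
  have hGP : ∀ z, G z = P.eval z := by
    intro z
    have h1 := Complex.hasSum_taylorSeries_of_entire hG 0 z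
    have h2 : HasSum (fun n : ℕ => (n.factorial : ℂ)⁻¹ • (z - 0) ^ n • iteratedDeriv n G 0)
        (∑ n ∈ Finset.range 4, (n.factorial : ℂ)⁻¹ • (z - 0) ^ n • iteratedDeriv n G 0) :=
      hasSum_sum_of_ne_finset_zero (by
        intro n hn
        rw [Finset.mem_range, not_lt] at hn
        rw [LIO.deriv_zero g C hg hb n hn, smul_zero, smul_zero])
    rw [h1.unique h2, hP, Polynomial.eval_finsetSum]
    refine Finset.sum_congr rfl fun n _ => ?_
    rw [ha]
    simp only [smul_eq_mul, sub_zero, Polynomial.eval_mul, Polynomial.eval_C,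
      Polynomial.eval_pow, Polynomial.eval_X]
    ring
  have hlim2 : Tendsto (fun x : ℝ => P.eval (x : ℂ)) atTop (𝓝 0) := by
    have h1 : Tendsto (fun x : ℝ => x + 1 / 2) atTop atTop :=
      tendsto_atTop_add_const_right _ _ tendsto_id
    have h2 := hlim.comp h1
    refine h2.congr fun x => ?_
    rw [← hGP, hGdef]
    simp
  have hdeg : P.degree ≤ 0 := by
    by_contra hcon
    have hcon' := not_le.1 hcon
    have h1 : Tendsto (fun x : ℝ => ‖(x : ℂ)‖) atTop atTop := by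
      have : (fun x : ℝ => ‖(x : ℂ)‖) = fun x : ℝ => |x| := by
        funext x
        rw [Complex.norm_real, Real.norm_eq_abs]
      rw [this]
      exact tendsto_abs_atTop_atTop
    have h2 := P.tendsto_norm_atTop hcon' h1
    have h3 := hlim2.norm
    exact not_tendsto_nhds_of_tendsto_atTop h2 _ h3
  have hconst : P = Polynomial.C (P.coeff 0) := Polynomial.eq_C_of_degree_le_zero hdeg
  have h0 : P.coeff 0 = 0 := by
    rw [hconst] at hlim2
    simp only [Polynomial.eval_C] at hlim2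
    exact tendsto_nhds_unique tendsto_const_nhds hlim2
  intro s
  have h1 := hGP (s - 1 / 2)
  rw [hconst, h0, Polynomial.eval_C] at h1
  rw [hGdef] at h1
  simpa using h1

end Pool.Agent.K6.H62.PR
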