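import Pool.Agent.K6.H62.PR.Stm

/-!
Piece `LND` of the call `call62p` (MP_c04f8f_nt, statement of helper62, proof of helper95): the local
form of Landau's theorem for Dirichlet series with nonnegative coefficients.
-/

set_option autoImplicit false

open Complex Filter Topology

namespace Pool.Agent.K6.H62.PR

namespace LND

/-- the real terms -/
noncomputable def tt (d : ℕ → ℝ) (σ : ℝ) (n : ℕ) : ℝ :=
  if n = 0 then 0 else d n * (n : ℝ) ^ (-σ)

theorem term_eq (d : ℕ → ℝ) (σ : ℝ) (n : ℕ) :
    LSeries.term (cc d) (σ : ℂ) n = ((tt d σ n : ℝ) : ℂ) := by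
  rcases eq_or_ne n 0 with rfl | hn
  · simp [tt]
  · rw [LSeries.term_of_ne_zero hn, tt, if_neg hn, cc, div_eq_mul_inv, ← Complex.cpow_neg,
      Complex.ofReal_mul, Complex.ofReal_cpow (Nat.cast_nonneg n)]
    push_cast
    rfl

theorem iter_logMul (f : ℕ → ℂ) (k n : ℕ) :
    (LSeries.logMul^[k] f) n = ((Real.log n ^ k : ℝ) : ℂ) * f n := by
  induction k with
  | zero => simp
  | succ k ih =>
    rw [Function.iterate_succ_apply', LSeries.logMul, ih, pow_succ, ← Complex.natCast_log]
    push_cast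
    ring

theorem term_iter (d : ℕ → ℝ) (σ : ℝ) (k n : ℕ) :
    LSeries.term (LSeries.logMul^[k] (cc d)) (σ : ℂ) n =
      ((Real.log n ^ k * tt d σ n : ℝ) : ℂ) := by
  rcases eq_or_ne n 0 with rfl | hn
  · simp [tt]
  · rw [Complex.ofReal_mul, ← term_eq, LSeries.term_of_ne_zero hn, LSeries.term_of_ne_zero hn,
      iter_logMul]
    ring

theorem swap_sum (a : ℕ → ℕ → ℝ) (h0 : ∀ k n, 0 ≤ a k n) (h1 : ∀ k, Summable (a k))
    (h2 : Summable fun k => ∑' n, a k n) : Summable fun n => ∑' k, a k n := by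
  have hprod : Summable fun p : ℕ × ℕ => a p.1 p.2 :=
    (summable_prod_of_nonneg (fun p => h0 p.1 p.2)).mpr ⟨h1, h2⟩
  have hswap : Summable fun p : ℕ × ℕ => a p.2 p.1 := hprod.prod_symm
  exact hswap.prod

theorem core (d : ℕ → ℝ) (θ r : ℝ) (g : ℂ → ℂ) (hd : ∀ n, 0 ≤ d n)
    (hs : ∀ σ : ℝ, θ < σ → LSeriesSummable (cc d) (σ : ℂ)) (hr : 0 < r)
    (hg : DifferentiableOn ℂ g (Metric.ball (θ : ℂ) r))
    (hgs : ∀ s ∈ Metric.ball (θ : ℂ) r, θ < s.re → g s = LSeries (cc d) s) :
    LSeriesSummable (cc d) ((θ - r / 8 : ℝ) : ℂ) := by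
  set c : ℝ := θ + r / 4 with hc
  have habs : LSeries.abscissaOfAbsConv (cc d) ≤ θ :=
    LSeries.abscissaOfAbsConv_le_of_forall_lt_LSeriesSummable hs
  have hcre : LSeries.abscissaOfAbsConv (cc d) < ((c : ℂ)).re := by
    rw [Complex.ofReal_re]
    refine lt_of_le_of_lt habs ?_
    exact_mod_cast (by rw [hc]; linarith : θ < c)
  have hsub : Metric.ball (c : ℂ) (r / 2) ⊆ Metric.ball (θ : ℂ) r := by
    apply Metric.ball_subset_ball'
    rw [Complex.dist_of_im_eq (by simp), Complex.ofReal_re, Complex.ofReal_re, hc, Real.dist_eq]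
    rw [show θ + r / 4 - θ = r / 4 by ring, abs_of_pos (by positivity)]
    linarith
  have hball : DifferentiableOn ℂ g (Metric.ball (c : ℂ) (r / 2)) := hg.mono hsub
  set z : ℂ := ((θ - r / 8 : ℝ) : ℂ) with hz
  have hzm : z ∈ Metric.ball (c : ℂ) (r / 2) := by
    rw [Metric.mem_ball, hz, Complex.dist_of_im_eq (by simp), Complex.ofReal_re,
      Complex.ofReal_re, hc, Real.dist_eq, show θ - r / 8 - (θ + r / 4) = -(3 * r / 8) by ring,
      abs_neg, abs_of_pos (by positivity)]
    linarith
  have hT := Complex.hasSum_taylorSeries_on_ball hball hzm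
  -- the derivatives at `c`
  have hev : g =ᶠ[𝓝 (c : ℂ)] LSeries (cc d) := by
    have h1 : ∀ᶠ s in 𝓝 (c : ℂ), s ∈ Metric.ball (θ : ℂ) r :=
      Metric.isOpen_ball.mem_nhds (hsub (Metric.mem_ball_self (by positivity)))
    have h2 : ∀ᶠ s : ℂ in 𝓝 (c : ℂ), θ < s.re := by
      apply (isOpen_lt continuous_const Complex.continuous_re).mem_nhds
      show θ < ((c : ℂ)).re
      rw [Complex.ofReal_re, hc]
      linarith
    filter_upwards [h1, h2] with s h3 h4 using hgs s h3 h4
  set x0 : ℝ := 3 * r / 8 with hx0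
  have hx00 : 0 < x0 := by positivity
  set a : ℕ → ℕ → ℝ := fun k n => x0 ^ k / (Nat.factorial k) * (Real.log n ^ k * tt d c n) with ha
  have hlog : ∀ n : ℕ, 0 ≤ Real.log n := fun n => Real.log_natCast_nonneg n
  have htt : ∀ (σ : ℝ) (n : ℕ), 0 ≤ tt d σ n := by
    intro σ n
    unfold tt
    split_ifs
    · exact le_rfl
    · exact mul_nonneg (hd n) (Real.rpow_nonneg (Nat.cast_nonneg n) _)
  have ha0 : ∀ k n, 0 ≤ a k n := fun k n =>
    mul_nonneg (by positivity) (mul_nonneg (pow_nonneg (hlog n) k) (htt c n))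
  have hsum1 : ∀ k : ℕ, Summable fun n : ℕ => Real.log n ^ k * tt d c n := by
    intro k
    have h1 : LSeriesSummable (LSeries.logMul^[k] (cc d)) (c : ℂ) := by
      apply LSeriesSummable_of_abscissaOfAbsConv_lt_re
      rw [LSeries.absicssaOfAbsConv_logPowMul]
      exact hcre
    have h2 : Summable fun n : ℕ => ((Real.log n ^ k * tt d c n : ℝ) : ℂ) := by
      have h3 : (fun n : ℕ => ((Real.log n ^ k * tt d c n : ℝ) : ℂ)) =
          LSeries.term (LSeries.logMul^[k] (cc d)) (c : ℂ) := by
        funext n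
        rw [term_iter]
      rw [h3]
      exact h1
    exact Complex.summable_ofReal.mp h2
  have hcoef : ∀ k : ℕ, ((Nat.factorial k : ℂ))⁻¹ • (z - c) ^ k • iteratedDeriv k g c =
      ((∑' n, a k n : ℝ) : ℂ) := by
    intro k
    rw [hev.iteratedDeriv_eq, LSeries_iteratedDeriv k hcre]
    have h1 : LSeries (LSeries.logMul^[k] (cc d)) (c : ℂ) =
        ((∑' n : ℕ, Real.log n ^ k * tt d c n : ℝ) : ℂ) := by
      rw [LSeries, Complex.ofReal_tsum]
      exact tsum_congr fun n => term_iter d c k n
    have h2 : z - c = ((-x0 : ℝ) : ℂ) := by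
      rw [hz, hc, hx0]
      push_cast
      ring
    rw [h1, h2, ha]
    simp only
    rw [tsum_mul_left, smul_eq_mul, smul_eq_mul]
    generalize (∑' n : ℕ, Real.log n ^ k * tt d c n) = S
    push_cast
    have h3 : (-(x0 : ℂ)) ^ k * ((-1) ^ k) = (x0 : ℂ) ^ k := by
      rw [← mul_pow]; congr 1; ring
    linear_combination ((Nat.factorial k : ℂ))⁻¹ * (S : ℂ) * h3
  have hsum2 : Summable fun k => ∑' n, a k n := by
    have h1 : Summable fun k : ℕ => ((∑' n, a k n : ℝ) : ℂ) := by
      have := hT.summable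
      simpa only [hcoef] using this
    exact Complex.summable_ofReal.mp h1
  have hn : Summable fun n => ∑' k, a k n :=
    swap_sum a ha0 (fun k => (hsum1 k).mul_left _) hsum2
  have hval : ∀ n, ∑' k, a k n = tt d (θ - r / 8) n := by
    intro n
    rw [ha]
    simp only
    rcases eq_or_ne n 0 with rfl | hn0
    · simp [tt]
    · have h1 : (fun k : ℕ => x0 ^ k / (Nat.factorial k) * (Real.log n ^ k * tt d c n)) =
          fun k : ℕ => (x0 * Real.log n) ^ k / (Nat.factorial k) * tt d c n := by
        funext k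
        rw [mul_pow]
        ring
      rw [h1, tsum_mul_right]
      have h2 : ∑' k : ℕ, (x0 * Real.log n) ^ k / (Nat.factorial k) =
          Real.exp (x0 * Real.log n) := by
        rw [Real.exp_eq_exp_ℝ, NormedSpace.exp_eq_tsum_div]
      have hnpos : (0 : ℝ) < n := by exact_mod_cast Nat.pos_of_ne_zero hn0
      rw [h2, tt, tt, if_neg hn0, if_neg hn0, mul_comm x0, ← Real.rpow_def_of_pos hnpos,
        show -(θ - r / 8) = x0 + -c by rw [hx0, hc]; ring, Real.rpow_add hnpos]
      ring
  simp only [hval] at hn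
  have hfin : Summable fun n => ((tt d (θ - r / 8) n : ℝ) : ℂ) := Complex.summable_ofReal.mpr hn
  have h3 : (fun n => ((tt d (θ - r / 8) n : ℝ) : ℂ)) =
      LSeries.term (cc d) ((θ - r / 8 : ℝ) : ℂ) := by
    funext n
    rw [term_eq]
  rw [h3] at hfin
  exact hfin

end LND

theorem t_LND : S_LND := by
  intro d n0 θ r g hd hs hr hg hgs
  -- remove the first coefficients
  set d' : ℕ → ℝ := fun n => if n < n0 then 0 else d n with hd'
  set e : ℕ → ℝ := fun n => if n < n0 then d n else 0 with he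
  have hde : cc d = cc d' + cc e := by
    funext n
    simp only [cc, hd', he, Pi.add_apply]
    split_ifs <;> simp
  have hesum : ∀ s : ℂ, LSeriesSummable (cc e) s := by
    intro s
    apply summable_of_hasFiniteSupport
    apply (Finset.range n0).finite_toSet.subset
    intro n hn
    rw [Function.mem_support] at hn
    by_contra hcon
    apply hn
    have hlt : ¬ n < n0 := by simpa using hcon
    rcases eq_or_ne n 0 with rfl | h0
    · simp
    · rw [LSeries.term_of_ne_zero h0]
      simp [cc, he, hlt]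
  have hsplit : ∀ s : ℂ, LSeriesSummable (cc d) s ↔ LSeriesSummable (cc d') s := by
    intro s
    constructor
    · intro h
      have : cc d' = cc d - cc e := by rw [hde]; ring
      rw [this]
      exact h.sub (hesum s)
    · intro h
      rw [hde]
      exact h.add (hesum s)
  have hE : Differentiable ℂ (LSeries (cc e)) := by
    intro s
    have habs : LSeries.abscissaOfAbsConv (cc e) < s.re := by
      have h1 : LSeries.abscissaOfAbsConv (cc e) ≤ ((s.re - 1 : ℝ) : EReal) := by
        have := (hesum ((s.re - 1 : ℝ) : ℂ)).abscissaOfAbsConv_le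
        simpa using this
      refine lt_of_le_of_lt h1 ?_
      exact_mod_cast (by linarith : s.re - 1 < s.re)
    exact (LSeries_hasDerivAt habs).differentiableAt
  refine ⟨r / 8, by positivity, ?_⟩
  rw [hsplit]
  refine LND.core d' θ r (fun s => g s - LSeries (cc e) s) ?_ (fun σ hσ => (hsplit _).mp (hs σ hσ))
    hr (hg.sub hE.differentiableOn) ?_
  · intro n
    simp only [hd']
    split_ifs with h
    · exact le_rfl
    · exact hd n (not_lt.mp h)
  · intro s hsb hsr
    rw [hgs s hsb hsr]
    have habs : LSeries.abscissaOfAbsConv (cc d) ≤ θ :=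
      LSeries.abscissaOfAbsConv_le_of_forall_lt_LSeriesSummable hs
    have hsum : LSeriesSummable (cc d) s := by
      apply LSeriesSummable_of_abscissaOfAbsConv_lt_re
      refine lt_of_le_of_lt habs ?_
      exact_mod_cast hsr
    have hsum' : LSeriesSummable (cc d') s := (hsplit s).mp hsum
    rw [hde, LSeries_add hsum' (hesum s)]
    ring

end Pool.Agent.K6.H62.PR
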