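import Pool.Agent.K6.H62.PR.Stm

/-! Piece MST (seat helper7). -/

set_option autoImplicit false

open Complex Filter Topology

namespace Pool.Agent.K6.H62.PR

namespace MST

open scoped ArithmeticFunction.vonMangoldt

/-- antisymmetric weights: reindexing by the inverse -/
theorem reindex {b : ℕ} [NeZero b] (ω : DirichletCharacter ℂ b → ℂ) (hω : ∀ χ, ω χ⁻¹ = - ω χ)
    (f : DirichletCharacter ℂ b → ℂ) :
    ∑ χ, ω χ * f χ⁻¹ = - ∑ χ, ω χ * f χ := by
  rw [← Finset.sum_neg_distrib]
  rw [← Equiv.sum_comp (Equiv.inv (DirichletCharacter ℂ b)) (fun χ => ω χ * f χ⁻¹)]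
  refine Finset.sum_congr rfl fun χ _ => ?_
  simp only [Equiv.inv_apply, inv_inv]
  rw [hω]
  ring

theorem half {b : ℕ} [NeZero b] (ω : DirichletCharacter ℂ b → ℂ) (hω : ∀ χ, ω χ⁻¹ = - ω χ)
    (f : DirichletCharacter ℂ b → ℂ) :
    (1 / 2 : ℂ) * ∑ χ, ω χ * (f χ - f χ⁻¹) = ∑ χ, ω χ * f χ := by
  have h1 : ∑ χ, ω χ * (f χ - f χ⁻¹) = ∑ χ, ω χ * f χ - ∑ χ, ω χ * f χ⁻¹ := by
    rw [← Finset.sum_sub_distrib]
    exact Finset.sum_congr rfl fun χ _ => by ring
  rw [h1, reindex ω hω f]
  ring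

theorem ell_eq {N : ℕ} [NeZero N] (ψ : DirichletCharacter ℂ N) {s : ℂ} (hs : 1 < s.re) :
    ell ψ s = - LSeries (fun n => ψ n * (ArithmeticFunction.vonMangoldt n : ℂ)) s := by
  have h1 := DirichletCharacter.LSeries_twist_vonMangoldt_eq ψ hs
  have h2 : LSeries (fun n => ψ n * (ArithmeticFunction.vonMangoldt n : ℂ)) s =
      LSeries ((fun n : ℕ => ψ n) * fun n : ℕ => (ArithmeticFunction.vonMangoldt n : ℂ)) s := rfl
  unfold ell
  rw [h2, h1, DirichletCharacter.deriv_LFunction_eq_deriv_LSeries ψ hs,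
    DirichletCharacter.LFunction_eq_LSeries ψ hs]
  ring

theorem summ {N : ℕ} [NeZero N] (ψ : DirichletCharacter ℂ N) {s : ℂ} (hs : 1 < s.re) :
    LSeriesSummable (fun n => ψ n * (ArithmeticFunction.vonMangoldt n : ℂ)) s :=
  DirichletCharacter.LSeriesSummable_twist_vonMangoldt ψ hs

end MST

/-- piece MST -/
theorem t_MST (h1 : S_FEQ) (h2 : S_EUL) : S_MST := by
  intro b _ ω hω
  classical
  have hN : ∀ χ : DirichletCharacter ℂ b, NeZero χ.conductor := fun χ =>
    ⟨fun h => NeZero.ne b (Nat.eq_zero_of_zero_dvd (h ▸ χ.conductor_dvd_level))⟩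
  have hω1 : ω 1 = 0 := by
    have := hω 1
    rw [inv_one] at this
    linear_combination this / 2
  have hF : ∀ χ : DirichletCharacter ℂ b, χ ≠ 1 →
      (∀ z : ℂ, ∀ᶠ s in 𝓝[≠] z, GG χ.primitiveCharacter (1 - s) = GG χ.primitiveCharacter s) ∧
      (∀ z : ℂ, 0 < z.re → ∀ᶠ s in 𝓝[≠] z, GG χ.primitiveCharacter s =
        ell χ.primitiveCharacter s - ell χ.primitiveCharacter⁻¹ s) ∧
      (∀ s : ℂ, 1 < s.re → GG χ.primitiveCharacter s =
        ell χ.primitiveCharacter s - ell χ.primitiveCharacter⁻¹ s) ∧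
      Meromorphic (GG χ.primitiveCharacter) := fun χ hχ =>
    h1 χ.conductor χ.primitiveCharacter χ.primitiveCharacter_isPrimitive
      (fun h => hχ (χ.eq_one_iff_conductor_eq_one.2 h))
  choose e1 he1 using fun χ : DirichletCharacter ℂ b =>
    h2 b χ.conductor χ.conductor_dvd_level χ.primitiveCharacter
  choose e2 he2 using fun χ : DirichletCharacter ℂ b =>
    h2 b χ.conductor χ.conductor_dvd_level χ.primitiveCharacter⁻¹
  choose C1 hC1 using fun χ => (he1 χ).2.1
  choose C2 hC2 using fun χ => (he2 χ).2.1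
  set M : ℂ → ℂ := fun s => (1 / 2 : ℂ) * ∑ χ : DirichletCharacter ℂ b,
    ω χ * GG χ.primitiveCharacter s with hM
  set e : ℂ → ℂ := fun s => (1 / 2 : ℂ) * ∑ χ : DirichletCharacter ℂ b,
    ω χ * (e1 χ s - e2 χ s) with he
  set c : ℕ → ℂ := fun n => (1 / 2 : ℂ) * ∑ χ : DirichletCharacter ℂ b,
    ω χ * (χ.primitiveCharacter⁻¹ n * (ArithmeticFunction.vonMangoldt n : ℂ) -
      χ.primitiveCharacter n * (ArithmeticFunction.vonMangoldt n : ℂ)) with hc
  set A : ℝ := ∑ χ : DirichletCharacter ℂ b, ‖ω χ‖ * (|C1 χ| + |C2 χ|) with hA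
  set B : ℝ := ∑ χ : DirichletCharacter ℂ b, ‖ω χ‖ with hB
  have hA0 : 0 ≤ A := Finset.sum_nonneg fun χ _ => by positivity
  have hB0 : 0 ≤ B := Finset.sum_nonneg fun χ _ => norm_nonneg _
  -- evaluation for `1 < re s`
  refine ⟨M, e, c, A + B, ?_, ?_, ?_, ?_, ?_, ?_, ?_, ?_⟩
  · -- meromorphic
    have h3 : M = (1 / 2 : ℂ) • ∑ χ : DirichletCharacter ℂ b,
        (ω χ • GG χ.primitiveCharacter) := by
      funext s
      simp only [hM, Pi.smul_apply, Finset.sum_apply, smul_eq_mul]
    rw [h3]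
    refine Meromorphic.const_smul (Meromorphic.sum fun χ _ => ?_) _
    by_cases hχ : χ = 1
    · rw [hχ, hω1, zero_smul]
      exact Meromorphic.const 0
    · exact Meromorphic.const_smul (hF χ hχ).2.2.2 _
  · intro z
    have h3 : ∀ᶠ s in 𝓝[≠] z, ∀ χ : DirichletCharacter ℂ b,
        ω χ * GG χ.primitiveCharacter (1 - s) = ω χ * GG χ.primitiveCharacter s := by
      rw [eventually_all]
      intro χ
      by_cases hχ : χ = 1
      · filter_upwards with s
        rw [hχ, hω1, zero_mul, zero_mul]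
      · filter_upwards [(hF χ hχ).1 z] with s hs
        rw [hs]
    filter_upwards [h3] with s hs
    simp only [hM]
    rw [Finset.sum_congr rfl fun χ _ => hs χ]
  · -- e differentiable
    rw [he]
    refine DifferentiableOn.const_mul ?_ _
    refine DifferentiableOn.fun_sum fun χ _ => ?_
    exact ((he1 χ).1.sub (he2 χ).1).const_mul _
  · intro s hs
    simp only [he]
    rw [norm_mul]
    have h3 : ‖∑ χ : DirichletCharacter ℂ b, ω χ * (e1 χ s - e2 χ s)‖ ≤ A := by
      refine (norm_sum_le _ _).trans (Finset.sum_le_sum fun χ _ => ?_)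
      rw [norm_mul]
      apply mul_le_mul_of_nonneg_left _ (norm_nonneg _)
      refine (norm_sub_le _ _).trans (add_le_add ?_ ?_)
      · exact (hC1 χ s hs).trans (le_abs_self _)
      · exact (hC2 χ s hs).trans (le_abs_self _)
    have h4 : ‖(1 / 2 : ℂ)‖ = 1 / 2 := by norm_num
    rw [h4]
    nlinarith [norm_nonneg (∑ χ : DirichletCharacter ℂ b, ω χ * (e1 χ s - e2 χ s))]
  · intro z hz
    have h3 : ∀ᶠ s in 𝓝[≠] z, ∀ χ : DirichletCharacter ℂ b,
        ω χ * GG χ.primitiveCharacter s =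
          ω χ * (ell χ s - ell χ⁻¹ s) + ω χ * (e1 χ s - e2 χ s) := by
      rw [eventually_all]
      intro χ
      by_cases hχ : χ = 1
      · filter_upwards with s
        rw [hχ, hω1, zero_mul, zero_mul, zero_mul, zero_add]
      · filter_upwards [(hF χ hχ).2.1 z hz, (he1 χ).2.2 z hz, (he2 χ).2.2 z hz] with s a1 a2 a3
        rw [DirichletCharacter.changeLevel_primitiveCharacter] at a2
        rw [map_inv, DirichletCharacter.changeLevel_primitiveCharacter] at a3
        rw [a1, a2, a3]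
        ring
    filter_upwards [h3] with s hs
    simp only [hM, he]
    rw [Finset.sum_congr rfl fun χ _ => hs χ, Finset.sum_add_distrib, mul_add]
    rw [MST.half ω hω (fun χ => ell χ s)]
  · intro n
    simp only [hc]
    have hL : 0 ≤ ArithmeticFunction.vonMangoldt n := ArithmeticFunction.vonMangoldt_nonneg
    have h3 : ‖∑ χ : DirichletCharacter ℂ b,
        ω χ * (χ.primitiveCharacter⁻¹ n * (ArithmeticFunction.vonMangoldt n : ℂ) -
          χ.primitiveCharacter n * (ArithmeticFunction.vonMangoldt n : ℂ))‖ ≤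
        B * (2 * ArithmeticFunction.vonMangoldt n) := by
      rw [hB, Finset.sum_mul]
      refine (norm_sum_le _ _).trans (Finset.sum_le_sum fun χ _ => ?_)
      rw [norm_mul]
      apply mul_le_mul_of_nonneg_left _ (norm_nonneg _)
      refine (norm_sub_le _ _).trans ?_
      rw [norm_mul, norm_mul, Complex.norm_real, Real.norm_eq_abs, abs_of_nonneg hL]
      have a1 := DirichletCharacter.norm_le_one χ.primitiveCharacter⁻¹ (n : ZMod χ.conductor)
      have a2 := DirichletCharacter.norm_le_one χ.primitiveCharacter (n : ZMod χ.conductor)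
      nlinarith
    rw [norm_mul]
    have h4 : ‖(1 / 2 : ℂ)‖ = 1 / 2 := by norm_num
    rw [h4]
    nlinarith [mul_nonneg hA0 hL]
  · intro s hs
    have h3 : ∀ χ : DirichletCharacter ℂ b, ω χ * GG χ.primitiveCharacter s =
        ω χ * (LSeries (fun n => χ.primitiveCharacter⁻¹ n *
          (ArithmeticFunction.vonMangoldt n : ℂ)) s -
          LSeries (fun n => χ.primitiveCharacter n *
            (ArithmeticFunction.vonMangoldt n : ℂ)) s) := by
      intro χ
      by_cases hχ : χ = 1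
      · rw [hχ, hω1, zero_mul, zero_mul]
      · rw [(hF χ hχ).2.2.1 s hs, MST.ell_eq _ hs, MST.ell_eq _ hs]
        ring
    have h4 : c = (1 / 2 : ℂ) • ∑ χ : DirichletCharacter ℂ b, ω χ •
        ((fun n : ℕ => χ.primitiveCharacter⁻¹ n * (ArithmeticFunction.vonMangoldt n : ℂ)) -
          fun n : ℕ => χ.primitiveCharacter n * (ArithmeticFunction.vonMangoldt n : ℂ)) := by
      funext n
      simp only [hc, Pi.smul_apply, Finset.sum_apply, Pi.sub_apply, smul_eq_mul]
    have h5 : ∀ χ : DirichletCharacter ℂ b, LSeriesSummable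
        ((fun n : ℕ => χ.primitiveCharacter⁻¹ n * (ArithmeticFunction.vonMangoldt n : ℂ)) -
          fun n : ℕ => χ.primitiveCharacter n * (ArithmeticFunction.vonMangoldt n : ℂ)) s :=
      fun χ => (MST.summ _ hs).sub (MST.summ _ hs)
    rw [h4, LSeries_smul, LSeries_sum fun χ _ => (h5 χ).smul (ω χ)]
    simp only [hM]
    congr 1
    refine Finset.sum_congr rfl fun χ _ => ?_
    rw [LSeries_smul, LSeries_sub (MST.summ _ hs) (MST.summ _ hs), h3]
  · intro q hq
    have hcop : Nat.Coprime q b := (ZMod.isUnit_iff_coprime q b).1 hq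
    have h3 : ∀ χ : DirichletCharacter ℂ b, χ.primitiveCharacter q = χ q := by
      intro χ
      have := χ.primitiveCharacter_apply_of_isCoprime (a := (q : ℤ))
        (Nat.isCoprime_iff_coprime.2 hcop)
      rwa [Int.cast_natCast, Int.cast_natCast] at this
    have h4 : ∀ χ : DirichletCharacter ℂ b, χ.primitiveCharacter⁻¹ q = χ⁻¹ q := by
      intro χ
      rw [MulChar.inv_apply_eq_inv', MulChar.inv_apply_eq_inv', h3]
    simp only [hc, h3, h4]
    have h5 := MST.half ω hω (fun χ => χ q)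
    have h6 : ∑ χ : DirichletCharacter ℂ b, ω χ * (χ⁻¹ q * (ArithmeticFunction.vonMangoldt q : ℂ) -
        χ q * (ArithmeticFunction.vonMangoldt q : ℂ)) =
        -(∑ χ : DirichletCharacter ℂ b, ω χ * (χ q - χ⁻¹ q)) *
          (ArithmeticFunction.vonMangoldt q : ℂ) := by
      rw [← Finset.sum_neg_distrib, Finset.sum_mul]
      exact Finset.sum_congr rfl fun χ _ => by ring
    rw [h6]
    linear_combination (-(ArithmeticFunction.vonMangoldt q : ℂ)) * h5

end Pool.Agent.K6.H62.PR
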