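import Pool.Agent.K6.H62.PR.Stm

set_option autoImplicit false

/-! Piece ONE of the prime number race theorem (helper1 for helper62). -/

open Complex Filter Topology

namespace Pool.Agent.K6.H62.PR

namespace ONE

lemma re_le {b : ℕ} [NeZero b] (χ : DirichletCharacter ℂ b) (x : ZMod b) : (χ x).re ≤ 1 :=
  (Complex.re_le_norm _).trans (χ.norm_le_one x)

lemma eq_one {b : ℕ} [NeZero b] (χ : DirichletCharacter ℂ b) (x : ZMod b) (h : (χ x).re = 1) :
    χ x = 1 := by
  have h1 : ‖χ x‖ ≤ 1 := χ.norm_le_one x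
  have h2 : (χ x).re ^ 2 + (χ x).im ^ 2 ≤ 1 := by
    have := Complex.sq_norm (χ x)
    rw [Complex.normSq_apply] at this
    nlinarith [norm_nonneg (χ x)]
  apply Complex.ext
  · simpa using h
  · have : (χ x).im ^ 2 ≤ 0 := by rw [h] at h2; linarith
    have h3 : (χ x).im ^ 2 = 0 := le_antisymm this (sq_nonneg _)
    simpa using h3

lemma re_rho {b : ℕ} [NeZero b] (a : ZMod b) (z : ℂ) :
    (rho 1 a z).re = (b.totient : ℝ)⁻¹ * ∑ χ : DirichletCharacter ℂ b,
        (1 - (χ a⁻¹).re) * (analyticOrderNatAt χ.LFunction z : ℝ)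
      + (if z = 1 / 2 then (b.totient : ℝ)⁻¹ * (vv 1 a (1 : DirichletCharacter ℂ b)).re / 2 else 0) := by
  have h1 : ∀ χ : DirichletCharacter ℂ b,
      (ww 1 a χ * (analyticOrderNatAt χ.LFunction z : ℂ)).re =
        (1 - (χ a⁻¹).re) * (analyticOrderNatAt χ.LFunction z : ℝ) := by
    intro χ
    have e1 : ((analyticOrderNatAt χ.LFunction z : ℕ) : ℂ) =
        (((analyticOrderNatAt χ.LFunction z : ℕ) : ℝ) : ℂ) := by push_cast; rfl
    rw [e1, Complex.re_mul_ofReal]
    congr 1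
    unfold ww
    simp
  have e2 : ((b.totient : ℂ))⁻¹ = (((b.totient : ℝ)⁻¹ : ℝ) : ℂ) := by push_cast; rfl
  unfold rho
  rw [Complex.add_re, e2, Complex.re_ofReal_mul, Complex.re_sum]
  congr 1
  · congr 1
    exact Finset.sum_congr rfl fun χ _ => h1 χ
  · split_ifs with h
    · rw [mul_div_assoc, Complex.re_ofReal_mul, mul_div_assoc]
      congr 1
      simp
    · rfl

lemma term_nonneg {b : ℕ} [NeZero b] (a : ZMod b) (z : ℂ) (χ : DirichletCharacter ℂ b) :
    0 ≤ (1 - (χ a⁻¹).re) * (analyticOrderNatAt χ.LFunction z : ℝ) :=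
  mul_nonneg (by linarith [re_le χ a⁻¹]) (Nat.cast_nonneg _)

lemma zero_terms {b : ℕ} [NeZero b] (a : ZMod b)
    (hv : 0 ≤ (vv 1 a (1 : DirichletCharacter ℂ b)).re) (z : ℂ) (h : (rho 1 a z).re = 0) :
    (∀ χ : DirichletCharacter ℂ b, (1 - (χ a⁻¹).re) * (analyticOrderNatAt χ.LFunction z : ℝ) = 0) ∧
      (z = 1 / 2 → (vv 1 a (1 : DirichletCharacter ℂ b)).re = 0) := by
  have hφ : 0 < (b.totient : ℝ)⁻¹ := by
    apply inv_pos.2
    exact_mod_cast Nat.totient_pos.2 (Nat.pos_of_ne_zero (NeZero.ne b))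
  rw [re_rho] at h
  have hS : 0 ≤ ∑ χ : DirichletCharacter ℂ b,
      (1 - (χ a⁻¹).re) * (analyticOrderNatAt χ.LFunction z : ℝ) :=
    Finset.sum_nonneg fun χ _ => term_nonneg a z χ
  have hT : 0 ≤ (if z = 1 / 2 then (b.totient : ℝ)⁻¹ * (vv 1 a (1 : DirichletCharacter ℂ b)).re / 2
      else 0) := by
    split_ifs
    · positivity
    · exact le_rfl
  have hS0 := mul_nonneg hφ.le hS
  have hS1 : (b.totient : ℝ)⁻¹ * ∑ χ : DirichletCharacter ℂ b,
      (1 - (χ a⁻¹).re) * (analyticOrderNatAt χ.LFunction z : ℝ) = 0 := by linarith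
  have hS2 : ∑ χ : DirichletCharacter ℂ b,
      (1 - (χ a⁻¹).re) * (analyticOrderNatAt χ.LFunction z : ℝ) = 0 := by
    rcases mul_eq_zero.1 hS1 with h | h
    · exact absurd h hφ.ne'
    · exact h
  refine ⟨fun χ => ?_, fun hz => ?_⟩
  · exact (Finset.sum_eq_zero_iff_of_nonneg fun χ _ => term_nonneg a z χ).1 hS2 χ (Finset.mem_univ _)
  · have hT1 : (if z = 1 / 2 then (b.totient : ℝ)⁻¹ * (vv 1 a (1 : DirichletCharacter ℂ b)).re / 2
      else 0) = 0 := by linarith
    rw [if_pos hz] at hT1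
    have : (b.totient : ℝ)⁻¹ * (vv 1 a (1 : DirichletCharacter ℂ b)).re = 0 := by linarith
    rcases mul_eq_zero.1 this with h | h
    · exact absurd h hφ.ne'
    · exact h

end ONE

theorem t_ONE (hSTP : S_STP) (hCNT : S_CNT) (hZER : S_ZER) (hSQR : S_SQR) : S_ONE := by
  intro b _ a ha hne hex
  have hsq := (hSQR b a ha).1
  have hφ : 0 < (b.totient : ℝ)⁻¹ := by
    apply inv_pos.2
    exact_mod_cast Nat.totient_pos.2 (Nat.pos_of_ne_zero (NeZero.ne b))
  have hst := hSTP b 1 a isUnit_one ha hex (by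
    intro θ hθ
    have h0 : 0 ≤ (rho 1 a (θ : ℂ)).re := by
      rw [ONE.re_rho]
      apply add_nonneg
      · exact mul_nonneg hφ.le (Finset.sum_nonneg fun χ _ => ONE.term_nonneg a _ χ)
      · split_ifs
        · have := hsq.1
          positivity
        · exact le_rfl
    rcases h0.lt_or_eq with h | h
    · exact Or.inl h
    · right
      obtain ⟨h1, h2⟩ := ONE.zero_terms a hsq.1 (θ : ℂ) h.symm
      unfold rho
      have h3 : ∑ χ : DirichletCharacter ℂ b, ww 1 a χ * (analyticOrderNatAt χ.LFunction (θ : ℂ) : ℂ) = 0 := by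
        apply Finset.sum_eq_zero
        intro χ _
        rcases mul_eq_zero.1 (h1 χ) with h | h
        · have : χ a⁻¹ = 1 := ONE.eq_one χ _ (by linarith)
          unfold ww
          rw [this]
          simp
        · have : analyticOrderNatAt χ.LFunction (θ : ℂ) = 0 := by exact_mod_cast h
          rw [this]; simp
      rw [h3, mul_zero, zero_add]
      split_ifs with hz
      · rw [hsq.2 (h2 hz)]; simp
      · rfl)
  obtain ⟨hz0, -⟩ := hCNT b 1 a isUnit_one ha hst
  -- a character with `χ a⁻¹ ≠ 1`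
  have hne' : a⁻¹ ≠ 1 := by
    intro h
    apply hne
    have h1 := ZMod.mul_inv_of_unit a ha
    rw [h, mul_one] at h1
    exact h1
  obtain ⟨χ, hχ⟩ : ∃ χ : DirichletCharacter ℂ b, χ a⁻¹ ≠ 1 := by
    exact MulChar.exists_apply_ne_one_of_hasEnoughRootsOfUnity (ZMod b) ℂ hne'
  have hχ1 : χ ≠ 1 := by
    rintro rfl
    apply hχ
    have hu : IsUnit a⁻¹ := by
      obtain ⟨u, rfl⟩ := ha
      rw [ZMod.inv_coe_unit]
      exact Units.isUnit _
    exact MulChar.one_apply hu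
  obtain ⟨z, hz1, -, -, hz4⟩ := hZER b χ hχ1
  have h5 : (rho 1 a z).re = 0 := by rw [hz0 z hz1]; simp
  obtain ⟨h6, -⟩ := ONE.zero_terms a hsq.1 z h5
  rcases mul_eq_zero.1 (h6 χ) with h | h
  · exact hχ (ONE.eq_one χ _ (by linarith))
  · have : analyticOrderNatAt χ.LFunction z = 0 := by exact_mod_cast h
    omega

end Pool.Agent.K6.H62.PR
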