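import Pool.Agent.K6.H62.PR.Stm

/-! # Piece QFA: squares of prime powers in the class `c` -/

set_option autoImplicit false

open Complex Filter Topology

namespace Pool.Agent.K6.H62.PR

open scoped ArithmeticFunction.vonMangoldt

theorem QFA.term_sq (b : ℕ) [NeZero b] (c : ZMod b) (s : ℂ) (m : ℕ) :
    LSeries.term (fun n => if ((n : ZMod b) = c ∧ IsSquare n) then
      (ArithmeticFunction.vonMangoldt n : ℂ) else 0) s (m ^ 2) =
    ∑ u ∈ Finset.univ.filter (fun u : ZMod b => u * u = c),
      LSeries.term (fun n => ((ArithmeticFunction.vonMangoldt.residueClass u n : ℝ) : ℂ)) (2 * s)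
        m := by
  rcases Nat.eq_zero_or_pos m with rfl | hm
  · simp [LSeries.term]
  have hm0 : m ≠ 0 := hm.ne'
  have hm2 : m ^ 2 ≠ 0 := pow_ne_zero 2 hm0
  simp only [LSeries.term_of_ne_zero hm2, LSeries.term_of_ne_zero hm0]
  rw [← Finset.sum_div]
  have h1 : ((m ^ 2 : ℕ) : ℂ) ^ s = (m : ℂ) ^ (2 * s) := by
    have h2 : ((m ^ 2 : ℕ) : ℂ) = (m : ℂ) * (m : ℂ) := by push_cast; ring
    rw [h2, Complex.natCast_mul_natCast_cpow, ← Complex.cpow_add _ _ (by exact_mod_cast hm0),
      two_mul]
  rw [h1]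
  congr 1
  have h3 : ∑ u ∈ Finset.univ.filter (fun u : ZMod b => u * u = c),
      ((ArithmeticFunction.vonMangoldt.residueClass u m : ℝ) : ℂ) =
      ∑ u ∈ Finset.univ.filter (fun u : ZMod b => u * u = c),
        if (m : ZMod b) = u then (ArithmeticFunction.vonMangoldt m : ℂ) else 0 := by
    apply Finset.sum_congr rfl
    intro u _
    simp only [ArithmeticFunction.vonMangoldt.residueClass, Set.indicator_apply, Set.mem_ofPred_eq]
    split_ifs <;> simp
  rw [h3, Finset.sum_ite_eq]
  have h4 : (m : ZMod b) ∈ Finset.univ.filter (fun u : ZMod b => u * u = c) ↔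
      (((m ^ 2 : ℕ) : ZMod b) = c ∧ IsSquare (m ^ 2)) := by
    rw [Finset.mem_filter]
    constructor
    · rintro ⟨-, h⟩
      exact ⟨by push_cast; rw [sq]; exact h, ⟨m, sq m⟩⟩
    · rintro ⟨h, -⟩
      refine ⟨Finset.mem_univ _, ?_⟩
      push_cast at h
      rw [← sq]
      exact h
  by_cases h : (((m ^ 2 : ℕ) : ZMod b) = c ∧ IsSquare (m ^ 2))
  · rw [if_pos h, if_pos (h4.2 h), ArithmeticFunction.vonMangoldt_apply_pow two_ne_zero]
  · rw [if_neg h, if_neg (fun h' => h (h4.1 h'))]

/-- **Piece QFA**. -/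
theorem t_QFA : S_QFA := by
  intro b _ c hc s hs
  have hinj : Function.Injective (fun m : ℕ => m ^ 2) := fun a b h => by
    simpa using h
  have hsupp : Function.support (LSeries.term (fun n => if ((n : ZMod b) = c ∧ IsSquare n) then
      (ArithmeticFunction.vonMangoldt n : ℂ) else 0) s) ⊆ Set.range (fun m : ℕ => m ^ 2) := by
    intro n hn
    by_contra hr
    apply hn
    rcases Nat.eq_zero_or_pos n with rfl | hn0
    · simp [LSeries.term]
    rw [LSeries.term_of_ne_zero hn0.ne', if_neg, zero_div]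
    rintro ⟨-, m, hm⟩
    exact hr ⟨m, by simp only; rw [hm, sq]⟩
  rw [LSeries, ← hinj.tsum_eq hsupp]
  simp only [QFA.term_sq]
  rw [Summable.tsum_finsetSum]
  · rfl
  · intro u _
    have h2 : LSeriesSummable
        (fun n => ((ArithmeticFunction.vonMangoldt.residueClass u n : ℝ) : ℂ)) (2 * s) := by
      apply LSeriesSummable_of_abscissaOfAbsConv_lt_re
      refine lt_of_le_of_lt
        (ArithmeticFunction.vonMangoldt.abscissaOfAbsConv_residueClass_le_one u) ?_
      have : (1 : ℝ) < (2 * s).re := by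
        simp
        linarith
      exact_mod_cast this
    exact h2

end Pool.Agent.K6.H62.PR
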