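import Pool.Agent.K6.H62.PR.Stm

/-!
# Piece QFB (helper84): the odd higher prime powers converge for `Re s > 1/3`
-/

set_option autoImplicit false

open Complex Filter Topology

namespace Pool.Agent.K6.H62.PR

open scoped ArithmeticFunction.vonMangoldt

namespace QFB

theorem summable_log {τ : ℝ} (hτ : 1 < τ) :
    Summable fun m : ℕ => Real.log m / (m : ℝ) ^ τ := by
  have hε : 0 < (τ - 1) / 2 := by linarith
  have h1 : Summable fun m : ℕ => ((m : ℝ) ^ ((τ - 1) / 2 - τ)) / ((τ - 1) / 2) := by
    refine Summable.div_const ?_ _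
    exact Real.summable_nat_rpow.mpr (by linarith)
  refine Summable.of_nonneg_of_le (fun m => ?_) (fun m => ?_) h1
  · exact div_nonneg (Real.log_natCast_nonneg m) (by positivity)
  · rcases Nat.eq_zero_or_pos m with rfl | hm
    · simp only [Nat.cast_zero, Real.log_zero, zero_div]
      positivity
    · have hm' : (0 : ℝ) < m := by exact_mod_cast hm
      rw [Real.rpow_sub hm', div_right_comm]
      refine div_le_div_of_nonneg_right ?_ (by positivity)
      exact Real.log_le_rpow_div hm'.le hε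

theorem pp {n : ℕ} (h : IsPrimePow n) (h1 : ¬ n.Prime) (h2 : ¬ IsSquare n) :
    n.minFac.Prime ∧ 3 ≤ n.factorization n.minFac ∧
      n.minFac ^ (n.factorization n.minFac) = n := by
  have hn1 : n ≠ 1 := h.one_lt.ne'
  have h3 := h.minFac_pow_factorization_eq
  refine ⟨Nat.minFac_prime hn1, ?_, h3⟩
  by_contra h4
  have h5 : n.factorization n.minFac = 0 ∨ n.factorization n.minFac = 1 ∨
      n.factorization n.minFac = 2 := by omega
  rcases h5 with h5 | h5 | h5
  · rw [h5, pow_zero] at h3
    exact hn1 h3.symm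
  · rw [h5, pow_one] at h3
    apply h1
    rw [← h3]
    exact Nat.minFac_prime hn1
  · rw [h5] at h3
    apply h2
    exact ⟨n.minFac, by rw [← sq, h3]⟩

end QFB

theorem t_QFB : S_QFB := by
  classical
  intro b _ c σ hσ
  have hσ0 : 0 < σ := by linarith
  let s : Set ℕ := {n | IsPrimePow n ∧ ¬ n.Prime ∧ ¬ IsSquare n}
  let f : ℕ → ℝ := fun m => Real.log m / (m : ℝ) ^ (3 * σ)
  let r : ℝ := ((2 : ℝ) ^ σ)⁻¹
  have hr0 : 0 ≤ r := by positivity
  have h2σ : (1 : ℝ) < (2 : ℝ) ^ σ := Real.one_lt_rpow (by norm_num) hσ0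
  have hr1 : r < 1 := inv_lt_one_of_one_lt₀ h2σ
  have hf0 : 0 ≤ f := fun m => div_nonneg (Real.log_natCast_nonneg m) (by positivity)
  have hg : Summable fun x : ℕ × ℕ => f x.1 * r ^ x.2 :=
    Summable.mul_of_nonneg (QFB.summable_log (by linarith : 1 < 3 * σ))
      (summable_geometric_of_lt_one hr0 hr1) hf0 (fun j => pow_nonneg hr0 j)
  let i : s → ℕ × ℕ := fun n => ((n : ℕ).minFac, (n : ℕ).factorization (n : ℕ).minFac - 3)
  have hi : Function.Injective i := by
    rintro ⟨n, hn1, hn2, hn3⟩ ⟨m, hm1, hm2, hm3⟩ h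
    simp only [i, Prod.mk.injEq] at h
    obtain ⟨-, a2, a3⟩ := QFB.pp hn1 hn2 hn3
    obtain ⟨-, b2, b3⟩ := QFB.pp hm1 hm2 hm3
    have h4 : n.factorization n.minFac = m.factorization m.minFac := by omega
    rw [Subtype.mk.injEq, ← a3, ← b3, h4, h.1]
  have hgi : Summable ((fun x : ℕ × ℕ => f x.1 * r ^ x.2) ∘ i) := hg.comp_injective hi
  let B : ℕ → ℝ := fun n => f n.minFac * r ^ (n.factorization n.minFac - 3)
  have hB : Summable (s.indicator B) := by
    rw [← summable_subtype_iff_indicator]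
    exact hgi
  refine Summable.of_norm_bounded hB fun n => ?_
  rw [LSeries.norm_term_eq]
  have hB0 : 0 ≤ B n := mul_nonneg (hf0 _) (pow_nonneg hr0 _)
  have hind : 0 ≤ s.indicator B n := by
    by_cases h : n ∈ s
    · rw [Set.indicator_of_mem h]
      exact hB0
    · rw [Set.indicator_of_notMem h]
  split_ifs with h0
  · exact hind
  · rw [Complex.ofReal_re]
    by_cases h : (n : ZMod b) = c ∧ ¬ n.Prime ∧ ¬ IsSquare n
    · have h1 : hh c n = - (ArithmeticFunction.vonMangoldt n : ℂ) := by
        unfold hh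
        rw [if_pos h]
      rw [h1, norm_neg, Complex.norm_real, Real.norm_of_nonneg
        ArithmeticFunction.vonMangoldt_nonneg]
      by_cases hpp : IsPrimePow n
      · have hs : n ∈ s := ⟨hpp, h.2⟩
        rw [Set.indicator_of_mem hs, ArithmeticFunction.vonMangoldt_apply, if_pos hpp]
        obtain ⟨a1, a2, a3⟩ := QFB.pp hpp h.2.1 h.2.2
        set p := n.minFac with hp
        set k := n.factorization p with hk
        have hp2 : (2 : ℝ) ≤ p := by exact_mod_cast a1.two_le
        have hp0 : (0 : ℝ) < p := by linarith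
        have h3 : ((n : ℝ)) ^ σ = (p : ℝ) ^ (3 * σ) * ((p : ℝ) ^ σ) ^ (k - 3) := by
          conv_lhs => rw [← a3]
          push_cast
          rw [← Real.rpow_natCast ((p : ℝ) ^ σ) (k - 3), ← Real.rpow_mul hp0.le,
            ← Real.rpow_add hp0, ← Real.rpow_natCast (p : ℝ) k, ← Real.rpow_mul hp0.le]
          congr 1
          have h4 : ((k - 3 : ℕ) : ℝ) = (k : ℝ) - 3 := by
            rw [Nat.cast_sub a2]
            norm_num
          rw [h4]
          ring
        rw [h3]
        show Real.log p / ((p : ℝ) ^ (3 * σ) * ((p : ℝ) ^ σ) ^ (k - 3)) ≤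
          Real.log p / (p : ℝ) ^ (3 * σ) * (((2 : ℝ) ^ σ)⁻¹) ^ (k - 3)
        rw [← div_div, div_eq_mul_inv (Real.log p / (p : ℝ) ^ (3 * σ)), ← inv_pow]
        refine mul_le_mul_of_nonneg_left ?_ (hf0 p)
        refine pow_le_pow_left₀ (by positivity) ?_ _
        refine inv_anti₀ (by positivity) ?_
        exact Real.rpow_le_rpow (by norm_num) hp2 hσ0.le
      · rw [ArithmeticFunction.vonMangoldt_apply, if_neg hpp, zero_div]
        exact hind
    · have h1 : hh c n = 0 := by
        unfold hh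
        rw [if_neg h]
      rw [h1, norm_zero, zero_div]
      exact hind

end Pool.Agent.K6.H62.PR
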