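import Pool.Agent.K6.H62.PR.Stm

set_option autoImplicit false

open Complex Filter Topology

namespace Pool.Agent.K6.H62.PR

open ArithmeticFunction (vonMangoldt)

namespace QFF

/-- comparison with the von Mangoldt function -/
lemma summ {f : ℕ → ℂ} (hf : ∀ n, ‖f n‖ ≤ vonMangoldt n) {s : ℂ} (hs : 1 < s.re) :
    LSeriesSummable f s := by
  have h := ArithmeticFunction.LSeriesSummable_vonMangoldt hs
  rw [LSeriesSummable, ← summable_norm_iff] at h ⊢
  refine h.of_nonneg_of_le (fun _ => norm_nonneg _) fun n => LSeries.norm_term_le s ?_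
  rw [Complex.norm_real, Real.norm_of_nonneg ArithmeticFunction.vonMangoldt_nonneg]
  exact hf n

/-- primes in the class `c` -/
noncomputable def pc {b : ℕ} (c : ZMod b) (n : ℕ) : ℂ :=
  if ((n : ZMod b) = c ∧ n.Prime) then (vonMangoldt n : ℂ) else 0

/-- squares in the class `c` -/
noncomputable def qc {b : ℕ} (c : ZMod b) (n : ℕ) : ℂ :=
  if ((n : ZMod b) = c ∧ IsSquare n) then (vonMangoldt n : ℂ) else 0

/-- all numbers in the class `c` -/
noncomputable def rc {b : ℕ} (c : ZMod b) (n : ℕ) : ℂ :=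
  ((vonMangoldt.residueClass c n : ℝ) : ℂ)

lemma nΛ (n : ℕ) : ‖(vonMangoldt n : ℂ)‖ = vonMangoldt n := by
  rw [Complex.norm_real, Real.norm_of_nonneg ArithmeticFunction.vonMangoldt_nonneg]

lemma pc_le {b : ℕ} (c : ZMod b) (n : ℕ) : ‖pc c n‖ ≤ vonMangoldt n := by
  unfold pc
  split_ifs
  · rw [nΛ]
  · rw [norm_zero]; exact ArithmeticFunction.vonMangoldt_nonneg

lemma qc_le {b : ℕ} (c : ZMod b) (n : ℕ) : ‖qc c n‖ ≤ vonMangoldt n := by
  unfold qc
  split_ifs
  · rw [nΛ]
  · rw [norm_zero]; exact ArithmeticFunction.vonMangoldt_nonneg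

lemma hh_le {b : ℕ} (c : ZMod b) (n : ℕ) : ‖hh c n‖ ≤ vonMangoldt n := by
  unfold hh
  split_ifs
  · rw [norm_neg, nΛ]
  · rw [norm_zero]; exact ArithmeticFunction.vonMangoldt_nonneg

lemma rc_le {b : ℕ} (c : ZMod b) (n : ℕ) : ‖rc c n‖ ≤ vonMangoldt n := by
  unfold rc
  rw [Complex.norm_real, Real.norm_of_nonneg (vonMangoldt.residueClass_nonneg c n)]
  exact vonMangoldt.residueClass_le c n

lemma not_sq {n : ℕ} (h : n.Prime) : ¬ IsSquare n := by
  rintro ⟨r, hr⟩
  exact Nat.not_prime_mul (a := r) (b := r) (by rintro rfl; simp at hr; exact h.ne_one hr)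
    (by rintro rfl; simp at hr; exact h.ne_one hr) (hr ▸ h)

lemma split {b : ℕ} (c : ZMod b) : pc c = rc c - qc c + hh c := by
  funext n
  show pc c n = rc c n - qc c n + hh c n
  unfold pc rc qc hh vonMangoldt.residueClass
  rw [Set.indicator_apply]
  by_cases h1 : (n : ZMod b) = c
  · by_cases h2 : n.Prime
    · have h3 := not_sq h2
      simp [h1, h2, h3]
    · by_cases h3 : IsSquare n
      · simp [h1, h2, h3]
      · simp [h1, h2, h3]
  · simp [h1]

end QFF

open QFF in
theorem t_QFF (h1 : S_QFA) (_h2 : S_QFB) : S_QFF := by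
  classical
  intro b _ a1 a ha1 ha s hs
  have habs : LSeries.abscissaOfAbsConv (cc (cf a1 a)) < s.re := by
    refine lt_of_le_of_lt (LSeries.abscissaOfAbsConv_le_of_le_const ⟨1, fun n _ => ?_⟩)
      (by exact_mod_cast hs)
    unfold cc cf
    rw [Complex.norm_real, Real.norm_eq_abs]
    split_ifs <;> norm_num
  have hd := LSeries_hasDerivAt habs
  have hs2 : 1 < (2 * s).re := by
    rw [Complex.mul_re]
    norm_num
    linarith
  -- value for one class
  have key : ∀ c : ZMod b, IsUnit c → LSeries (pc c) s =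
      -(b.totient : ℂ)⁻¹ * ∑ χ : DirichletCharacter ℂ b, χ c⁻¹ * ell χ s
      + (b.totient : ℂ)⁻¹ * ∑ χ : DirichletCharacter ℂ b,
        (∑ u ∈ Finset.univ.filter (fun u : ZMod b => u * u = c), χ u⁻¹) * ell χ (2 * s)
      + LSeries (hh c) s := by
    intro c hc
    have e1 : LSeries (rc c) s = -(b.totient : ℂ)⁻¹ * ∑ χ : DirichletCharacter ℂ b,
        χ c⁻¹ * ell χ s := vonMangoldt.LSeries_residueClass_eq hc hs
    have e2 : LSeries (qc c) s = ∑ u ∈ Finset.univ.filter (fun u : ZMod b => u * u = c),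
        (-(b.totient : ℂ)⁻¹ * ∑ χ : DirichletCharacter ℂ b, χ u⁻¹ * ell χ (2 * s)) := by
      refine (h1 b c hc s hs).trans (Finset.sum_congr rfl fun u hu => ?_)
      have hu' : IsUnit u := by
        rw [Finset.mem_filter] at hu
        exact isUnit_of_mul_isUnit_left (hu.2 ▸ hc)
      exact vonMangoldt.LSeries_residueClass_eq hu' hs2
    rw [split c, LSeries_add ((summ (rc_le c) hs).sub (summ (qc_le c) hs)) (summ (hh_le c) hs),
      LSeries_sub (summ (rc_le c) hs) (summ (qc_le c) hs), e1, e2, ← Finset.mul_sum,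
      Finset.sum_comm]
    simp only [Finset.sum_mul]
    ring
  have e3 : LSeries.logMul (cc (cf a1 a)) = pc a1 - pc a := by
    funext n
    show Complex.log n * cc (cf a1 a) n = pc a1 n - pc a n
    unfold cc cf pc
    by_cases hn : n.Prime
    · have h3 : Complex.log n = (vonMangoldt n : ℂ) := by
        rw [ArithmeticFunction.vonMangoldt_apply_prime hn, Complex.natCast_log]
      rw [h3]
      simp only [hn, and_true, if_true]
      split_ifs <;> simp
    · simp [hn]
  have e4 : -LSeries (LSeries.logMul (cc (cf a1 a))) s = QQ a1 a s := by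
    rw [e3, LSeries_sub (summ (pc_le a1) hs) (summ (pc_le a) hs), key a1 ha1, key a ha, QQ]
    unfold ww vv
    simp only [sub_mul, Finset.sum_sub_distrib]
    ring
  rw [← e4]
  exact hd

end Pool.Agent.K6.H62.PR
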