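import Mathlib

set_option autoImplicit false

/-!
Statements for MP_c04f8f_nt (prime number races): for every modulus `b` the class `a ≠ 1` leads
the class `1` infinitely often, and `a`, `a⁻¹` (`a² ≠ 1`) exchange the lead infinitely often.
-/

open Complex Filter Topology

namespace Pool.Agent.K6.H62.PR

open scoped ArithmeticFunction.vonMangoldt

/-- logarithmic derivative of the Dirichlet L-function -/
noncomputable def ell {b : ℕ} [NeZero b] (χ : DirichletCharacter ℂ b) (s : ℂ) : ℂ :=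
  deriv χ.LFunction s / χ.LFunction s

/-- the weights `χ(a₁)⁻¹ - χ(a)⁻¹` -/
noncomputable def ww {b : ℕ} [NeZero b] (a1 a : ZMod b) (χ : DirichletCharacter ℂ b) : ℂ :=
  χ a1⁻¹ - χ a⁻¹

/-- the weights of the squares of primes -/
noncomputable def vv {b : ℕ} [NeZero b] (a1 a : ZMod b) (χ : DirichletCharacter ℂ b) : ℂ :=
  ∑ u ∈ Finset.univ.filter (fun u : ZMod b => u * u = a1), χ u⁻¹ -
    ∑ u ∈ Finset.univ.filter (fun u : ZMod b => u * u = a), χ u⁻¹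

/-- coefficients of the (odd) higher prime powers in the class `c` -/
noncomputable def hh {b : ℕ} (c : ZMod b) (n : ℕ) : ℂ :=
  if ((n : ZMod b) = c ∧ ¬ n.Prime ∧ ¬ IsSquare n) then - (ArithmeticFunction.vonMangoldt n : ℂ) else 0

/-- the function `Q`, meromorphic continuation of the derivative of `∑ cf(p) p^{-s}` -/
noncomputable def QQ {b : ℕ} [NeZero b] (a1 a : ZMod b) (s : ℂ) : ℂ :=
  (b.totient : ℂ)⁻¹ * ∑ χ : DirichletCharacter ℂ b, ww a1 a χ * ell χ s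
    - (b.totient : ℂ)⁻¹ * ∑ χ : DirichletCharacter ℂ b, vv a1 a χ * ell χ (2 * s)
    - (LSeries (hh a1) s - LSeries (hh a) s)

/-- `1` at primes `≡ a₁`, `-1` at primes `≡ a` -/
noncomputable def cf {b : ℕ} (a1 a : ZMod b) (n : ℕ) : ℝ :=
  if n.Prime then (if (n : ZMod b) = a1 then (1 : ℝ) else 0) - (if (n : ZMod b) = a then (1 : ℝ) else 0) else 0

/-- summatory function of a sequence -/
noncomputable def DD (c : ℕ → ℝ) (n : ℕ) : ℝ := ∑ k ∈ Finset.range (n + 1), c k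

/-- `DD c n / n` as a complex sequence -/
noncomputable def dd (c : ℕ → ℝ) (n : ℕ) : ℂ := ((DD c n / n : ℝ) : ℂ)

/-- the sequence `cf` as a complex sequence -/
noncomputable def cc (c : ℕ → ℝ) (n : ℕ) : ℂ := ((c n : ℝ) : ℂ)

/-- the residue of `QQ` at a point `z` with `1/2 ≤ Re z` -/
noncomputable def rho {b : ℕ} [NeZero b] (a1 a : ZMod b) (z : ℂ) : ℂ :=
  (b.totient : ℂ)⁻¹ * ∑ χ : DirichletCharacter ℂ b, ww a1 a χ * (analyticOrderNatAt χ.LFunction z : ℂ)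
    + (if z = 1 / 2 then (b.totient : ℂ)⁻¹ * vv a1 a 1 / 2 else 0)

/-! ### pieces -/

/-- LND: local form of Landau's theorem for Dirichlet series with nonnegative coefficients -/
def S_LND : Prop :=
  ∀ (d : ℕ → ℝ) (n0 : ℕ) (θ r : ℝ) (g : ℂ → ℂ), (∀ n, n0 ≤ n → 0 ≤ d n) →
    (∀ σ : ℝ, θ < σ → LSeriesSummable (cc d) (σ : ℂ)) → 0 < r →
    DifferentiableOn ℂ g (Metric.ball (θ : ℂ) r) →
    (∀ s ∈ Metric.ball (θ : ℂ) r, θ < s.re → g s = LSeries (cc d) s) →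
    ∃ ε : ℝ, 0 < ε ∧ LSeriesSummable (cc d) ((θ - ε : ℝ) : ℂ)

/-- ABL: Abel summation, with an error term analytic on `Re s > 0` -/
def S_ABL : Prop :=
  ∀ c : ℕ → ℝ, (∀ n, |c n| ≤ 1) → c 0 = 0 →
    ∃ E : ℂ → ℂ, DifferentiableOn ℂ E {s : ℂ | 0 < s.re} ∧
      (∃ C : ℝ, ∀ s : ℂ, 1 / 4 ≤ s.re → ‖E s‖ ≤ C * (1 + ‖s‖) ^ 2) ∧
      ∀ s : ℂ, 1 < s.re → LSeries (cc c) s = s * LSeries (dd c) s + E s

/-- QFA: squares of prime powers in the class `c` -/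
def S_QFA : Prop :=
  ∀ (b : ℕ) [NeZero b] (c : ZMod b), IsUnit c → ∀ s : ℂ, 1 < s.re →
    LSeries (fun n => if ((n : ZMod b) = c ∧ IsSquare n) then (ArithmeticFunction.vonMangoldt n : ℂ) else 0) s =
      ∑ u ∈ Finset.univ.filter (fun u : ZMod b => u * u = c),
        LSeries (fun n => ((ArithmeticFunction.vonMangoldt.residueClass u n : ℝ) : ℂ)) (2 * s)

/-- QFB: the odd higher prime powers converge for `Re s > 1/3` -/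
def S_QFB : Prop :=
  ∀ (b : ℕ) [NeZero b] (c : ZMod b) (σ : ℝ), 1 / 3 < σ → LSeriesSummable (hh c) (σ : ℂ)

/-- QFF: the derivative of the prime Dirichlet series is `QQ` -/
def S_QFF : Prop :=
  ∀ (b : ℕ) [NeZero b] (a1 a : ZMod b), IsUnit a1 → IsUnit a → ∀ s : ℂ, 1 < s.re →
    HasDerivAt (LSeries (cc (cf a1 a))) (QQ a1 a s) s

/-- LDL: local expansion of a logarithmic derivative -/
def S_LDL : Prop :=
  ∀ (f : ℂ → ℂ) (z : ℂ), AnalyticAt ℂ f z → analyticOrderAt f z ≠ ⊤ →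
    ∃ h : ℂ → ℂ, AnalyticAt ℂ h z ∧
      ∀ᶠ s in 𝓝[≠] z, deriv f s / f s = (analyticOrderNatAt f z : ℂ) / (s - z) + h s

/-- TRV: local expansion for the trivial character at `1`, and analyticity elsewhere on `Re s ≥ 1` -/
def S_TRV : Prop :=
  ∀ (b : ℕ) [NeZero b], (∃ h : ℂ → ℂ, AnalyticAt ℂ h 1 ∧
      ∀ᶠ s in 𝓝[≠] (1 : ℂ), ell (1 : DirichletCharacter ℂ b) s = - 1 / (s - 1) + h s) ∧
    (∀ (χ : DirichletCharacter ℂ b) (z : ℂ), 1 ≤ z.re → (χ ≠ 1 ∨ z ≠ 1) → AnalyticAt ℂ (ell χ) z) ∧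
    (∀ χ : DirichletCharacter ℂ b, Meromorphic (ell χ))

/-- QLC: local expansion of `QQ` at the points of `Re z ≥ 1/2` -/
def S_QLC : Prop :=
  ∀ (b : ℕ) [NeZero b] (a1 a : ZMod b), IsUnit a1 → IsUnit a → ∀ z : ℂ, 1 / 2 ≤ z.re →
    ∃ h : ℂ → ℂ, AnalyticAt ℂ h z ∧
      ∀ᶠ s in 𝓝[≠] z, QQ a1 a s = rho a1 a z / (s - z) + h s

/-- IDT: identity theorem for an analytic and a meromorphic function -/
def S_IDT : Prop :=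
  ∀ (U : Set ℂ) (f Q : ℂ → ℂ) (z0 : ℂ), IsOpen U → IsPreconnected U → DifferentiableOn ℂ f U →
    MeromorphicOn Q U → z0 ∈ U → (∀ᶠ s in 𝓝 z0, f s = Q s) →
    ∀ z ∈ U, ∀ᶠ s in 𝓝[≠] z, f s = Q s

/-- STA: a positive residue is impossible -/
def S_STA : Prop :=
  ∀ (d : ℕ → ℝ) (n0 : ℕ) (θ : ℝ) (E Q h : ℂ → ℂ) (ρ : ℂ), (∀ n, n0 ≤ n → 0 ≤ d n) → 0 < θ →
    (∀ σ : ℝ, θ < σ → LSeriesSummable (cc d) (σ : ℂ)) →
    DifferentiableOn ℂ E {s : ℂ | 0 < s.re} → AnalyticAt ℂ h (θ : ℂ) →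
    (∀ᶠ s in 𝓝[≠] (θ : ℂ), Q s = ρ / (s - θ) + h s) →
    (∀ᶠ s in 𝓝 (θ : ℂ), θ < s.re → HasDerivAt (fun s => s * LSeries (cc d) s + E s) (Q s) s) →
    ¬ (0 < ρ.re)

/-- STB: without residue the abscissa of convergence is smaller -/
def S_STB : Prop :=
  ∀ (d : ℕ → ℝ) (n0 : ℕ) (θ : ℝ) (E Q h : ℂ → ℂ), (∀ n, n0 ≤ n → 0 ≤ d n) → 0 < θ →
    (∀ σ : ℝ, θ < σ → LSeriesSummable (cc d) (σ : ℂ)) →
    DifferentiableOn ℂ E {s : ℂ | 0 < s.re} → AnalyticAt ℂ h (θ : ℂ) →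
    (∀ᶠ s in 𝓝[≠] (θ : ℂ), Q s = h s) →
    (∀ᶠ s in 𝓝 (θ : ℂ), θ < s.re → HasDerivAt (fun s => s * LSeries (cc d) s + E s) (Q s) s) →
    ∃ ε : ℝ, 0 < ε ∧ LSeriesSummable (cc d) ((θ - ε : ℝ) : ℂ)

/-- STP: eventual nonnegativity gives convergence to the left of `1/2` -/
def S_STP : Prop :=
  ∀ (b : ℕ) [NeZero b] (a1 a : ZMod b), IsUnit a1 → IsUnit a →
    (∃ n0 : ℕ, ∀ n, n0 ≤ n → 0 ≤ DD (cf a1 a) n) →
    (∀ θ : ℝ, 1 / 2 ≤ θ → 0 < (rho a1 a (θ : ℂ)).re ∨ rho a1 a (θ : ℂ) = 0) →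
    ∃ θ0 : ℝ, θ0 < 1 / 2 ∧ ∀ σ : ℝ, θ0 < σ → LSeriesSummable (dd (cf a1 a)) (σ : ℂ)

/-- CNT: consequences of the convergence -/
def S_CNT : Prop :=
  ∀ (b : ℕ) [NeZero b] (a1 a : ZMod b), IsUnit a1 → IsUnit a →
    (∃ θ0 : ℝ, θ0 < 1 / 2 ∧ ∀ σ : ℝ, θ0 < σ → LSeriesSummable (dd (cf a1 a)) (σ : ℂ)) →
    (∀ z : ℂ, 1 / 2 ≤ z.re → rho a1 a z = 0) ∧
    ∃ C : ℝ, ∀ z : ℂ, 1 / 2 < z.re → ∀ᶠ s in 𝓝[≠] z, ‖QQ a1 a s‖ ≤ C * (1 + ‖s‖) ^ 3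

/-- ZER: nontrivial Dirichlet L-functions have a zero with real part in `[1/2,1)` -/
def S_ZER : Prop :=
  ∀ (b : ℕ) [NeZero b] (χ : DirichletCharacter ℂ b), χ ≠ 1 →
    ∃ z : ℂ, 1 / 2 ≤ z.re ∧ z.re < 1 ∧ χ.LFunction z = 0 ∧ 0 < analyticOrderNatAt χ.LFunction z

/-- SQR: number of square roots -/
def S_SQR : Prop :=
  ∀ (b : ℕ) [NeZero b] (a : ZMod b), IsUnit a →
    (0 ≤ (vv 1 a (1 : DirichletCharacter ℂ b)).re ∧
      ((vv 1 a (1 : DirichletCharacter ℂ b)).re = 0 → vv 1 a (1 : DirichletCharacter ℂ b) = 0)) ∧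
    vv a⁻¹ a (1 : DirichletCharacter ℂ b) = 0

/-- ONE: the class `1` -/
def S_ONE : Prop :=
  ∀ (b : ℕ) [NeZero b] (a : ZMod b), IsUnit a → a ≠ 1 →
    ¬ ∃ n0 : ℕ, ∀ n, n0 ≤ n → 0 ≤ DD (cf 1 a) n

/-- CNJ: the orders of `L(s,χ)` and `L(s,χ⁻¹)` at real points agree -/
def S_CNJ : Prop :=
  ∀ (b : ℕ) [NeZero b] (χ : DirichletCharacter ℂ b) (θ : ℝ), χ ≠ 1 →
    analyticOrderNatAt χ⁻¹.LFunction (θ : ℂ) = analyticOrderNatAt χ.LFunction (θ : ℂ)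

/-- the difference of the logarithmic derivatives of the completed L-functions of `ψ`, `ψ⁻¹` -/
noncomputable def GG {N : ℕ} [NeZero N] (ψ : DirichletCharacter ℂ N) (s : ℂ) : ℂ :=
  deriv ψ.completedLFunction s / ψ.completedLFunction s -
    deriv ψ⁻¹.completedLFunction s / ψ⁻¹.completedLFunction s

/-- FEQ: symmetry of `GG` -/
def S_FEQ : Prop :=
  ∀ (N : ℕ) [NeZero N] (ψ : DirichletCharacter ℂ N), ψ.IsPrimitive → N ≠ 1 →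
    (∀ z : ℂ, ∀ᶠ s in 𝓝[≠] z, GG ψ (1 - s) = GG ψ s) ∧
    (∀ z : ℂ, 0 < z.re → ∀ᶠ s in 𝓝[≠] z, GG ψ s = ell ψ s - ell ψ⁻¹ s) ∧
    (∀ s : ℂ, 1 < s.re → GG ψ s = ell ψ s - ell ψ⁻¹ s) ∧ Meromorphic (GG ψ)

/-- EUL: imprimitive characters: the difference is analytic and bounded on `Re s ≥ 1/4` -/
def S_EUL : Prop :=
  ∀ (b N : ℕ) [NeZero b] [NeZero N] (hN : N ∣ b) (ψ : DirichletCharacter ℂ N),
    ∃ e : ℂ → ℂ, DifferentiableOn ℂ e {s : ℂ | 0 < s.re} ∧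
      (∃ C : ℝ, ∀ s : ℂ, 1 / 4 ≤ s.re → ‖e s‖ ≤ C) ∧
      ∀ z : ℂ, 0 < z.re → ∀ᶠ s in 𝓝[≠] z, ell ψ s = ell (DirichletCharacter.changeLevel hN ψ) s + e s

/-- MST: the symmetric function attached to antisymmetric weights -/
def S_MST : Prop :=
  ∀ (b : ℕ) [NeZero b] (ω : DirichletCharacter ℂ b → ℂ), (∀ χ, ω χ⁻¹ = - ω χ) →
    ∃ (M e : ℂ → ℂ) (c : ℕ → ℂ) (C : ℝ), Meromorphic M ∧
      (∀ z : ℂ, ∀ᶠ s in 𝓝[≠] z, M (1 - s) = M s) ∧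
      DifferentiableOn ℂ e {s : ℂ | 0 < s.re} ∧ (∀ s : ℂ, 1 / 4 ≤ s.re → ‖e s‖ ≤ C) ∧
      (∀ z : ℂ, 0 < z.re → ∀ᶠ s in 𝓝[≠] z, M s = ∑ χ : DirichletCharacter ℂ b, ω χ * ell χ s + e s) ∧
      (∀ n, ‖c n‖ ≤ C * ArithmeticFunction.vonMangoldt n) ∧
      (∀ s : ℂ, 1 < s.re → M s = LSeries c s) ∧
      (∀ q : ℕ, IsUnit (q : ZMod b) →
        c q = - (∑ χ : DirichletCharacter ℂ b, ω χ * χ q) * (ArithmeticFunction.vonMangoldt q : ℂ))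

/-- ENT: a function with removable singularities only agrees with an entire function -/
def S_ENT : Prop :=
  ∀ M : ℂ → ℂ, (∀ z : ℂ, ∃ h : ℂ → ℂ, AnalyticAt ℂ h z ∧ ∀ᶠ s in 𝓝[≠] z, M s = h s) →
    ∃ g : ℂ → ℂ, Differentiable ℂ g ∧ ∀ z : ℂ, ∀ᶠ s in 𝓝[≠] z, M s = g s

/-- LIO: an entire function of polynomial growth off a vertical line, tending to `0`, vanishes -/
def S_LIO : Prop :=
  ∀ (g : ℂ → ℂ) (C : ℝ), Differentiable ℂ g →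
    (∀ s : ℂ, s.re ≠ 1 / 2 → ‖g s‖ ≤ C * (1 + ‖s‖) ^ 3 * (1 + 1 / |s.re - 1 / 2|)) →
    Tendsto (fun x : ℝ => g (x : ℂ)) atTop (𝓝 0) → ∀ s, g s = 0

/-- GRQ: growth of the terms of `QQ` other than the first one -/
def S_GRQ : Prop :=
  ∀ (b : ℕ) [NeZero b], ∃ C : ℝ, ∀ s : ℂ, 1 / 2 < s.re →
    (∀ χ : DirichletCharacter ℂ b, ‖ell χ (2 * s)‖ ≤ C * (1 + 1 / (s.re - 1 / 2))) ∧
    ∀ c : ZMod b, ‖LSeries (hh c) s‖ ≤ C

/-- INV: the classes `a` and `a⁻¹` -/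
def S_INV : Prop :=
  ∀ (b : ℕ) [NeZero b] (a : ZMod b), IsUnit a → a * a ≠ 1 →
    ¬ ∃ n0 : ℕ, ∀ n, n0 ≤ n → 0 ≤ DD (cf a⁻¹ a) n

/-- FIN: the theorem in the form of the problem -/
def S_FIN : Prop :=
  ∀ a b a₁ : ℕ, 1 ≤ b → Nat.Coprime a b → ¬ (a₁ ≡ a [MOD b]) →
    (a₁ ≡ 1 [MOD b] ∨ a * a₁ ≡ 1 [MOD b]) →
      ∀ N : ℕ, ∃ n : ℕ, N ≤ n ∧
        ((Finset.range (n + 1)).filter (fun p => p.Prime ∧ p ≡ a₁ [MOD b])).card <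
        ((Finset.range (n + 1)).filter (fun p => p.Prime ∧ p ≡ a [MOD b])).card

end Pool.Agent.K6.H62.PR
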