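import Mathlib
import Pool.Agent.K6.H62.PR.Stm

set_option autoImplicit false

/-! Piece QLC: local expansion of `QQ` at the points of `Re z ≥ 1/2`. -/

open Complex Filter Topology

namespace Pool.Agent.K6.H62.PR

namespace QLC

/-- `f` has a simple pole at `z` with residue `ρ` (or is analytic there if `ρ = 0`) -/
def Loc (z ρ : ℂ) (f : ℂ → ℂ) : Prop :=
  ∃ h : ℂ → ℂ, AnalyticAt ℂ h z ∧ ∀ᶠ s in 𝓝[≠] z, f s = ρ / (s - z) + h s

theorem Loc.add {z ρ σ : ℂ} {f g : ℂ → ℂ} (hf : Loc z ρ f) (hg : Loc z σ g) :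
    Loc z (ρ + σ) (fun s => f s + g s) := by
  obtain ⟨h, h1, h2⟩ := hf
  obtain ⟨k, k1, k2⟩ := hg
  refine ⟨fun s => h s + k s, h1.add k1, ?_⟩
  filter_upwards [h2, k2] with s e1 e2
  rw [e1, e2]
  ring

theorem Loc.mul {z ρ : ℂ} {f : ℂ → ℂ} (c : ℂ) (hf : Loc z ρ f) :
    Loc z (c * ρ) (fun s => c * f s) := by
  obtain ⟨h, h1, h2⟩ := hf
  refine ⟨fun s => c * h s, analyticAt_const.mul h1, ?_⟩
  filter_upwards [h2] with s e1
  rw [e1]
  ring

theorem Loc.sub {z ρ σ : ℂ} {f g : ℂ → ℂ} (hf : Loc z ρ f) (hg : Loc z σ g) :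
    Loc z (ρ - σ) (fun s => f s - g s) := by
  obtain ⟨h, h1, h2⟩ := hf
  obtain ⟨k, k1, k2⟩ := hg
  refine ⟨fun s => h s - k s, h1.sub k1, ?_⟩
  filter_upwards [h2, k2] with s e1 e2
  rw [e1, e2]
  ring

theorem loc_of_analytic {z : ℂ} {f : ℂ → ℂ} (hf : AnalyticAt ℂ f z) : Loc z 0 f :=
  ⟨f, hf, Eventually.of_forall fun s => by simp⟩

theorem Loc.sum {ι : Type*} {z : ℂ} {ρ : ι → ℂ} {f : ι → ℂ → ℂ} (s : Finset ι)
    (h : ∀ i ∈ s, Loc z (ρ i) (f i)) : Loc z (∑ i ∈ s, ρ i) (fun w => ∑ i ∈ s, f i w) := by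
  classical
  induction s using Finset.induction_on with
  | empty =>
    simp only [Finset.sum_empty]
    exact loc_of_analytic analyticAt_const
  | insert i s hi ih =>
    have h1 := h i (Finset.mem_insert_self i s)
    have h2 := ih fun j hj => h j (Finset.mem_insert_of_mem hj)
    have h3 := h1.add h2
    simpa only [Finset.sum_insert hi] using h3

/-- the orders are finite -/
theorem order_ne_top {b : ℕ} [NeZero b] (χ : DirichletCharacter ℂ b) (hχ : χ ≠ 1) (z : ℂ) :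
    analyticOrderAt χ.LFunction z ≠ ⊤ := by
  intro h
  rw [analyticOrderAt_eq_top] at h
  have hd := DirichletCharacter.differentiable_LFunction hχ
  have ha : AnalyticOnNhd ℂ χ.LFunction Set.univ :=
    fun w _ => hd.analyticAt w
  have h0 : AnalyticOnNhd ℂ (fun _ : ℂ => (0 : ℂ)) Set.univ := fun w _ => analyticAt_const
  have he := ha.eq_of_eventuallyEq h0 (z₀ := z) h
  have h2 := DirichletCharacter.LFunction_ne_zero_of_one_le_re χ (s := 2) (Or.inl hχ) (by norm_num)
  exact h2 (congrFun he 2)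

theorem ww_one {b : ℕ} [NeZero b] {a1 a : ZMod b} (h1 : IsUnit a1) (h : IsUnit a) :
    ww a1 a (1 : DirichletCharacter ℂ b) = 0 := by
  unfold ww
  obtain ⟨u, rfl⟩ := h1
  obtain ⟨v, rfl⟩ := h
  rw [ZMod.inv_coe_unit, ZMod.inv_coe_unit, MulChar.one_apply_coe, MulChar.one_apply_coe, sub_self]

theorem loc_first (h1 : S_LDL) {b : ℕ} [NeZero b] {a1 a : ZMod b} (ha1 : IsUnit a1)
    (ha : IsUnit a) (z : ℂ) (χ : DirichletCharacter ℂ b) :
    Loc z (ww a1 a χ * (analyticOrderNatAt χ.LFunction z : ℂ)) (fun s => ww a1 a χ * ell χ s) := by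
  by_cases hχ : χ = 1
  · subst hχ
    rw [ww_one ha1 ha]
    simp only [zero_mul]
    exact loc_of_analytic analyticAt_const
  · obtain ⟨h, e1, e2⟩ := h1 χ.LFunction z
      ((DirichletCharacter.differentiable_LFunction hχ).analyticAt z) (order_ne_top χ hχ z)
    exact Loc.mul (ww a1 a χ) ⟨h, e1, e2⟩

theorem loc_second (h2 : S_TRV) {b : ℕ} [NeZero b] (z : ℂ) (hz : 1 / 2 ≤ z.re)
    (χ : DirichletCharacter ℂ b) :
    Loc z (if z = 1 / 2 ∧ χ = 1 then -1 / 2 else 0) (fun s => ell χ (2 * s)) := by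
  obtain ⟨⟨h, e1, e2⟩, e3, -⟩ := h2 b
  have hm : AnalyticAt ℂ (fun s : ℂ => 2 * s) z := analyticAt_const.mul analyticAt_id
  split_ifs with hc
  · obtain ⟨rfl, rfl⟩ := hc
    have hval : (2 : ℂ) * (1 / 2) = 1 := by norm_num
    refine ⟨fun s => h (2 * s), ?_, ?_⟩
    · have : AnalyticAt ℂ h ((fun s : ℂ => 2 * s) (1 / 2)) := by
        simpa only [hval] using e1
      exact this.comp (x := (1 / 2 : ℂ)) hm
    · have ht : Tendsto (fun s : ℂ => 2 * s) (𝓝[≠] (1 / 2 : ℂ)) (𝓝[≠] (1 : ℂ)) := by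
        refine tendsto_nhdsWithin_of_tendsto_nhds_of_eventually_within _ ?_ ?_
        · have := hm.continuousAt.tendsto
          rw [hval] at this
          exact this.mono_left nhdsWithin_le_nhds
        · filter_upwards [self_mem_nhdsWithin] with s hs
          simp only [Set.mem_compl_iff, Set.mem_singleton_iff] at hs ⊢
          intro h3
          apply hs
          rw [eq_div_iff (by norm_num : (2 : ℂ) ≠ 0), mul_comm]
          exact h3
      filter_upwards [ht.eventually e2, self_mem_nhdsWithin] with s hs hne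
      have hne' : s - 1 / 2 ≠ 0 := sub_ne_zero.2 hne
      rw [hs]
      congr 1
      have : (2 : ℂ) * s - 1 = 2 * (s - 1 / 2) := by ring
      rw [this]
      field_simp
  · refine loc_of_analytic ?_
    have hz2 : 1 ≤ ((2 : ℂ) * z).re := by
      simp only [mul_re, re_ofNat, im_ofNat, zero_mul, sub_zero]
      linarith
    have h4 : χ ≠ 1 ∨ 2 * z ≠ 1 := by
      by_contra h5
      push Not at h5
      apply hc
      refine ⟨?_, h5.1⟩
      rw [eq_div_iff (by norm_num : (2 : ℂ) ≠ 0), mul_comm]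
      exact h5.2
    exact (e3 χ (2 * z) hz2 h4).comp (x := z) hm

theorem loc_third (h3 : S_QFB) {b : ℕ} [NeZero b] (c : ZMod b) (z : ℂ) (hz : 1 / 2 ≤ z.re) :
    AnalyticAt ℂ (LSeries (hh c)) z := by
  have h := h3 b c (2 / 5) (by norm_num)
  have h4 := h.abscissaOfAbsConv_le
  refine LSeries_analyticOnNhd (hh c) z ?_
  simp only [Set.mem_setOf_eq]
  refine lt_of_le_of_lt h4 ?_
  rw [ofReal_re]
  exact_mod_cast (by linarith : (2 / 5 : ℝ) < z.re)

end QLC

open QLC

theorem t_QLC (h1 : S_LDL) (h2 : S_TRV) (h3 : S_QFB) : S_QLC := by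
  intro b _ a1 a ha1 ha z hz
  have l1 : Loc z _ _ := Loc.mul ((b.totient : ℂ)⁻¹)
    (Loc.sum Finset.univ fun χ (_ : χ ∈ (Finset.univ : Finset (DirichletCharacter ℂ b))) =>
      loc_first h1 ha1 ha z χ)
  have l2 : Loc z _ _ := Loc.mul ((b.totient : ℂ)⁻¹)
    (Loc.sum Finset.univ fun χ (_ : χ ∈ (Finset.univ : Finset (DirichletCharacter ℂ b))) =>
      Loc.mul (vv a1 a χ) (loc_second h2 z hz χ))
  have l3 := loc_of_analytic ((loc_third h3 a1 z hz).sub (loc_third h3 a z hz))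
  have l4 := (l1.sub l2).sub l3
  have hres : ((b.totient : ℂ)⁻¹ * ∑ χ : DirichletCharacter ℂ b, ww a1 a χ *
      (analyticOrderNatAt χ.LFunction z : ℂ) - (b.totient : ℂ)⁻¹ *
      ∑ χ : DirichletCharacter ℂ b, vv a1 a χ * (if z = 1 / 2 ∧ χ = 1 then -1 / 2 else 0)) - 0 =
      rho a1 a z := by
    unfold rho
    rw [sub_zero, sub_eq_add_neg]
    congr 1
    by_cases hz2 : z = 1 / 2
    · rw [if_pos hz2]
      have : ∀ χ : DirichletCharacter ℂ b,
          vv a1 a χ * (if z = 1 / 2 ∧ χ = 1 then (-1 / 2 : ℂ) else 0) =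
            if χ = 1 then vv a1 a χ * (-1 / 2) else 0 := by
        intro χ
        by_cases hχ : χ = 1
        · rw [if_pos ⟨hz2, hχ⟩, if_pos hχ]
        · rw [if_neg (fun h => hχ h.2), if_neg hχ, mul_zero]
      simp only [this]
      rw [Finset.sum_ite_eq' Finset.univ (1 : DirichletCharacter ℂ b), if_pos (Finset.mem_univ _)]
      ring
    · rw [if_neg hz2]
      have : ∀ χ : DirichletCharacter ℂ b,
          vv a1 a χ * (if z = 1 / 2 ∧ χ = 1 then (-1 / 2 : ℂ) else 0) = 0 := by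
        intro χ
        rw [if_neg (fun h => hz2 h.1), mul_zero]
      simp only [this]
      simp
  rw [← hres]
  exact l4

end Pool.Agent.K6.H62.PR
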