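import Pool.Agent.K6.H62.PR.Stm

/-! # Piece SQR: number of square roots in `ZMod b` -/

set_option autoImplicit false

open Complex Filter Topology

namespace Pool.Agent.K6.H62.PR

theorem SQR.isUnit_of_sq {b : ℕ} {a u : ZMod b} (ha : IsUnit a) (h : u * u = a) : IsUnit u := by
  rw [← h] at ha
  exact isUnit_of_mul_isUnit_left ha

theorem SQR.inv_mul {b : ℕ} [NeZero b] {u : ZMod b} (h : IsUnit u) : u⁻¹ * u = 1 :=
  ZMod.inv_mul_of_unit u h

theorem SQR.mul_inv {b : ℕ} [NeZero b] {u : ZMod b} (h : IsUnit u) : u * u⁻¹ = 1 :=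
  ZMod.mul_inv_of_unit u h

theorem SQR.isUnit_inv {b : ℕ} [NeZero b] {u : ZMod b} (h : IsUnit u) : IsUnit u⁻¹ :=
  IsUnit.of_mul_eq_one _ (SQR.inv_mul h)

/-- the number of square roots -/
def SQR.nn {b : ℕ} [NeZero b] (a : ZMod b) : ℕ :=
  (Finset.univ.filter (fun u : ZMod b => u * u = a)).card

theorem SQR.sum_one {b : ℕ} [NeZero b] {a : ZMod b} (ha : IsUnit a) :
    ∑ u ∈ Finset.univ.filter (fun u : ZMod b => u * u = a),
      (1 : DirichletCharacter ℂ b) u⁻¹ = (SQR.nn a : ℂ) := by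
  rw [Finset.sum_congr rfl (g := fun _ => (1 : ℂ))]
  · rw [Finset.sum_const, nsmul_eq_mul, mul_one]
    rfl
  · intro u hu
    rw [Finset.mem_filter] at hu
    exact MulChar.one_apply (SQR.isUnit_inv (SQR.isUnit_of_sq ha hu.2))

theorem SQR.vv_one {b : ℕ} [NeZero b] {a1 a : ZMod b} (ha1 : IsUnit a1) (ha : IsUnit a) :
    vv a1 a (1 : DirichletCharacter ℂ b) = (SQR.nn a1 : ℂ) - (SQR.nn a : ℂ) := by
  unfold vv
  rw [SQR.sum_one ha1, SQR.sum_one ha]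

theorem SQR.nn_le {b : ℕ} [NeZero b] {a : ZMod b} (ha : IsUnit a) : SQR.nn a ≤ SQR.nn (1 : ZMod b) := by
  unfold SQR.nn
  rcases Finset.eq_empty_or_nonempty (Finset.univ.filter (fun u : ZMod b => u * u = a)) with h | ⟨w, hw⟩
  · rw [h]
    simp
  · rw [Finset.mem_filter] at hw
    have hwu := SQR.isUnit_of_sq ha hw.2
    apply Finset.card_le_card_of_injOn (fun u => u * w⁻¹)
    · intro u hu
      rw [Finset.mem_coe, Finset.mem_filter] at hu ⊢
      refine ⟨Finset.mem_univ _, ?_⟩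
      calc u * w⁻¹ * (u * w⁻¹) = (u * u) * (w⁻¹ * w⁻¹) := by ring
        _ = (w * w) * (w⁻¹ * w⁻¹) := by rw [hu.2, hw.2]
        _ = (w * w⁻¹) * (w * w⁻¹) := by ring
        _ = 1 := by rw [SQR.mul_inv hwu, one_mul]
    · intro u _ v _ huv
      have h : u * w⁻¹ = v * w⁻¹ := huv
      calc u = u * w⁻¹ * w := by rw [mul_assoc, SQR.inv_mul hwu, mul_one]
        _ = v * w⁻¹ * w := by rw [h]
        _ = v := by rw [mul_assoc, SQR.inv_mul hwu, mul_one]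

theorem SQR.nn_inv_le {b : ℕ} [NeZero b] {a : ZMod b} (ha : IsUnit a) :
    SQR.nn a ≤ SQR.nn a⁻¹ := by
  unfold SQR.nn
  apply Finset.card_le_card_of_injOn (fun u => u⁻¹)
  · intro u hu
    rw [Finset.mem_coe, Finset.mem_filter] at hu ⊢
    refine ⟨Finset.mem_univ _, ?_⟩
    have hu1 := SQR.isUnit_of_sq ha hu.2
    calc u⁻¹ * u⁻¹ = u⁻¹ * u⁻¹ * (a * a⁻¹) := by rw [SQR.mul_inv ha, mul_one]
      _ = (u⁻¹ * u) * (u⁻¹ * u) * a⁻¹ := by rw [← hu.2]; ring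
      _ = a⁻¹ := by rw [SQR.inv_mul hu1, one_mul, one_mul]
  · intro u hu v hv huv
    rw [Finset.mem_coe, Finset.mem_filter] at hu hv
    have hu1 := SQR.isUnit_of_sq ha hu.2
    have hv1 := SQR.isUnit_of_sq ha hv.2
    have h : u⁻¹ = v⁻¹ := huv
    calc u = u * (v⁻¹ * v) := by rw [SQR.inv_mul hv1, mul_one]
      _ = (u * u⁻¹) * v := by rw [← h]; ring
      _ = v := by rw [SQR.mul_inv hu1, one_mul]

theorem SQR.nn_inv {b : ℕ} [NeZero b] {a : ZMod b} (ha : IsUnit a) : SQR.nn a⁻¹ = SQR.nn a := by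
  apply le_antisymm _ (SQR.nn_inv_le ha)
  have h := SQR.nn_inv_le (SQR.isUnit_inv ha)
  have h2 : (a⁻¹)⁻¹ = a := by
    calc (a⁻¹)⁻¹ = (a⁻¹)⁻¹ * (a⁻¹ * a) := by rw [SQR.inv_mul ha, mul_one]
      _ = ((a⁻¹)⁻¹ * a⁻¹) * a := by ring
      _ = a := by rw [SQR.inv_mul (SQR.isUnit_inv ha), one_mul]
  rwa [h2] at h

/-- **Piece SQR**. -/
theorem t_SQR : S_SQR := by
  intro b _ a ha
  refine ⟨⟨?_, ?_⟩, ?_⟩
  · rw [SQR.vv_one isUnit_one ha]
    simp only [Complex.sub_re, Complex.natCast_re]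
    have := SQR.nn_le ha
    have h2 : (SQR.nn a : ℝ) ≤ (SQR.nn (1 : ZMod b) : ℝ) := by exact_mod_cast this
    linarith
  · rw [SQR.vv_one isUnit_one ha]
    simp only [Complex.sub_re, Complex.natCast_re]
    intro h
    have h2 : (SQR.nn (1 : ZMod b) : ℝ) = (SQR.nn a : ℝ) := by linarith
    have h3 : SQR.nn (1 : ZMod b) = SQR.nn a := by exact_mod_cast h2
    rw [h3, sub_self]
  · rw [SQR.vv_one (SQR.isUnit_inv ha) ha, SQR.nn_inv ha, sub_self]

end Pool.Agent.K6.H62.PR
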