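import Pool.Agent.K6.H62.PR.Stm

set_option autoImplicit false

open Complex Filter Topology

namespace Pool.Agent.K6.H62.PR

namespace STA

/-- lower bound for the real part of the Dirichlet series -/
theorem re_lseries {d : ℕ → ℝ} {n0 : ℕ} (hd : ∀ n, n0 ≤ n → 0 ≤ d n) {x : ℝ} (hx : 0 < x)
    (hs : LSeriesSummable (cc d) (x : ℂ)) :
    - ∑ n ∈ Finset.range n0, |d n| ≤ (LSeries (cc d) (x : ℂ)).re := by
  have hterm : ∀ n : ℕ, (LSeries.term (cc d) (x : ℂ) n).re =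
      if n = 0 then 0 else d n / (n : ℝ) ^ x := by
    intro n
    rcases eq_or_ne n 0 with h | h
    · simp [h]
    · rw [LSeries.term_of_ne_zero h, if_neg h]
      have : ((n : ℂ)) ^ (x : ℂ) = (((n : ℝ) ^ x : ℝ) : ℂ) := by
        rw [Complex.ofReal_cpow (Nat.cast_nonneg n)]; simp
      rw [this, cc, ← Complex.ofReal_div, Complex.ofReal_re]
  have hsr : Summable (fun n => (LSeries.term (cc d) (x : ℂ) n).re) :=
    (Complex.hasSum_re hs.hasSum).summable
  have hre : (LSeries (cc d) (x : ℂ)).re = ∑' n, (LSeries.term (cc d) (x : ℂ) n).re := by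
    rw [LSeries]; exact Complex.re_tsum hs
  rw [hre]
  refine le_trans ?_ (hsr.sum_le_tsum (Finset.range n0) ?_)
  · rw [← Finset.sum_neg_distrib]
    refine Finset.sum_le_sum fun n _ => ?_
    rw [hterm]
    split_ifs with h
    · simp
    · have h1 : (1 : ℝ) ≤ (n : ℝ) ^ x :=
        Real.one_le_rpow (by exact_mod_cast Nat.one_le_iff_ne_zero.mpr h) hx.le
      have h2 : |d n / (n : ℝ) ^ x| ≤ |d n| := by
        rw [abs_div, abs_of_pos (lt_of_lt_of_le one_pos h1)]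
        exact div_le_self (abs_nonneg _) h1
      linarith [neg_abs_le (d n / (n : ℝ) ^ x)]
  · intro n hn
    have hn' : n0 ≤ n := by simpa using hn
    rw [hterm]
    split_ifs with h
    · exact le_rfl
    · exact div_nonneg (hd n hn') (Real.rpow_nonneg (Nat.cast_nonneg n) x)

end STA

theorem t_STA : S_STA := by
  intro d n0 θ E Q h ρ hd hθ hsum hE hh hQ hF hρ
  set K : ℝ := ∑ n ∈ Finset.range n0, |d n| with hK
  have hK0 : 0 ≤ K := Finset.sum_nonneg fun n _ => abs_nonneg _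
  set F : ℂ → ℂ := fun s => s * LSeries (cc d) s + E s with hFdef
  -- the coercion from the reals to the complex numbers at `θ`
  have hcont : Tendsto (fun x : ℝ => (x : ℂ)) (𝓝 θ) (𝓝 (θ : ℂ)) :=
    Complex.continuous_ofReal.tendsto θ
  have hcont' : Tendsto (fun x : ℝ => (x : ℂ)) (𝓝[≠] θ) (𝓝[≠] (θ : ℂ)) := by
    refine tendsto_nhdsWithin_iff.mpr ⟨hcont.mono_left nhdsWithin_le_nhds, ?_⟩
    filter_upwards [self_mem_nhdsWithin] with x hx
    simpa using hx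
  have hle : 𝓝[>] θ ≤ 𝓝[≠] θ := nhdsWithin_mono θ fun x hx => ne_of_gt hx
  have hEc : ContinuousAt E (θ : ℂ) := by
    have hop : IsOpen {s : ℂ | 0 < s.re} := isOpen_lt continuous_const Complex.continuous_re
    exact (hE.differentiableAt (hop.mem_nhds (by simpa using hθ))).continuousAt
  have hE1 : ∀ᶠ x : ℝ in 𝓝 θ, (E (θ : ℂ)).re - 1 ≤ (E (x : ℂ)).re := by
    have h1 : ∀ᶠ s : ℂ in 𝓝 (θ : ℂ), (E (θ : ℂ)).re - 1 < (E s).re :=
      (Complex.continuous_re.continuousAt.comp hEc).eventually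
        (lt_mem_nhds (show (E (θ : ℂ)).re - 1 < (Complex.re ∘ E) (θ : ℂ) by
          simp only [Function.comp]; linarith))
    filter_upwards [hcont.eventually h1] with x hx using hx.le
  have hh1 : ∀ᶠ x : ℝ in 𝓝 θ, (h (θ : ℂ)).re - 1 ≤ (h (x : ℂ)).re := by
    have h1 : ∀ᶠ s : ℂ in 𝓝 (θ : ℂ), (h (θ : ℂ)).re - 1 < (h s).re :=
      (Complex.continuous_re.continuousAt.comp hh.continuousAt).eventually
        (lt_mem_nhds (show (h (θ : ℂ)).re - 1 < (Complex.re ∘ h) (θ : ℂ) by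
          simp only [Function.comp]; linarith))
    filter_upwards [hcont.eventually h1] with x hx using hx.le
  have hQ1 : ∀ᶠ x : ℝ in 𝓝[>] θ, Q (x : ℂ) = ρ / ((x : ℂ) - θ) + h (x : ℂ) :=
    (hcont'.mono_left hle).eventually hQ
  have hF1 : ∀ᶠ x : ℝ in 𝓝 θ, θ < x → HasDerivAt F (Q (x : ℂ)) (x : ℂ) := by
    filter_upwards [hcont.eventually hF] with x hx hxx
    exact hx (by simpa using hxx)
  -- everything on an interval
  have hall : ∀ᶠ x : ℝ in 𝓝[>] θ, ((E (θ : ℂ)).re - 1 ≤ (E (x : ℂ)).re ∧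
      (h (θ : ℂ)).re - 1 ≤ (h (x : ℂ)).re) ∧ (Q (x : ℂ) = ρ / ((x : ℂ) - θ) + h (x : ℂ) ∧
      HasDerivAt F (Q (x : ℂ)) (x : ℂ)) := by
    have hg : ∀ᶠ x : ℝ in 𝓝[>] θ, θ < x := self_mem_nhdsWithin
    filter_upwards [hE1.filter_mono nhdsWithin_le_nhds, hh1.filter_mono nhdsWithin_le_nhds, hQ1,
      hF1.filter_mono nhdsWithin_le_nhds, hg] with x h1 h2 h3 h4 h5
    exact ⟨⟨h1, h2⟩, h3, h4 h5⟩
  obtain ⟨u, hu, hu2⟩ := (mem_nhdsGT_iff_exists_Ioo_subset).mp hall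
  have huθ : θ < u := hu
  set C : ℝ := |(h (θ : ℂ)).re - 1| with hC
  set x0 : ℝ := min ((θ + u) / 2) (θ + 1) with hx0
  have hx0u : x0 < u := lt_of_le_of_lt (min_le_left _ _) (by linarith)
  have hx0θ : θ < x0 := lt_min (by linarith) (by linarith)
  have hx01 : x0 ≤ θ + 1 := min_le_right _ _
  set ψ : ℝ → ℝ := fun x => (F (x : ℂ)).re - ρ.re * Real.log (x - θ) + C * x with hψ
  have hder : ∀ x ∈ Set.Ioc θ x0, HasDerivAt ψ ((Q (x : ℂ)).re - ρ.re * (1 / (x - θ)) + C * 1) x := by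
    intro x hx
    have h1 := (hu2 ⟨hx.1, lt_of_le_of_lt hx.2 hx0u⟩).2.2
    have h2 : HasDerivAt (fun x : ℝ => (F (x : ℂ)).re) (Q (x : ℂ)).re x := by
      have := h1.real_of_complex
      exact this
    have h3 : HasDerivAt (fun x : ℝ => Real.log (x - θ)) (1 / (x - θ)) x := by
      have := (((hasDerivAt_id x).sub_const θ).log (by simpa using (sub_pos.mpr hx.1).ne'))
      simpa using this
    exact (h2.sub (h3.const_mul ρ.re)).add ((hasDerivAt_id x).const_mul C)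
  have hnonneg : ∀ x ∈ Set.Ioc θ x0, 0 ≤ (Q (x : ℂ)).re - ρ.re * (1 / (x - θ)) + C * 1 := by
    intro x hx
    have h1 := (hu2 ⟨hx.1, lt_of_le_of_lt hx.2 hx0u⟩)
    have h3 : (Q (x : ℂ)).re = ρ.re / (x - θ) + (h (x : ℂ)).re := by
      rw [h1.2.1, Complex.add_re, ← Complex.ofReal_sub, Complex.div_ofReal_re]
    have h4 : (h (θ : ℂ)).re - 1 ≤ (h (x : ℂ)).re := h1.1.2
    have h5 : - C ≤ (h (θ : ℂ)).re - 1 := neg_abs_le _
    rw [h3, mul_one_div]
    linarith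
  have hmono : MonotoneOn ψ (Set.Ioc θ x0) := by
    refine monotoneOn_of_deriv_nonneg (convex_Ioc θ x0)
      (fun x hx => (hder x hx).continuousAt.continuousWithinAt) ?_ ?_
    · intro x hx
      rw [interior_Ioc] at hx
      exact (hder x ⟨hx.1, hx.2.le⟩).differentiableAt.differentiableWithinAt
    · intro x hx
      rw [interior_Ioc] at hx
      rw [(hder x ⟨hx.1, hx.2.le⟩).deriv]
      exact hnonneg x ⟨hx.1, hx.2.le⟩
  -- lower bound for `F`
  have hlow : ∀ x ∈ Set.Ioc θ x0, -(θ + 1) * K + ((E (θ : ℂ)).re - 1) ≤ (F (x : ℂ)).re := by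
    intro x hx
    have h1 := (hu2 ⟨hx.1, lt_of_le_of_lt hx.2 hx0u⟩).1.1
    have hx1 : 0 < x := hθ.trans hx.1
    have h2 := STA.re_lseries hd hx1 (hsum x hx.1)
    have h3 : (F (x : ℂ)).re = x * (LSeries (cc d) (x : ℂ)).re + (E (x : ℂ)).re := by
      simp only [hFdef, Complex.add_re, Complex.re_ofReal_mul]
    rw [h3]
    have h4 : -(θ + 1) * K ≤ x * (LSeries (cc d) (x : ℂ)).re := by
      have h5 : x * (-K) ≤ x * (LSeries (cc d) (x : ℂ)).re :=
        mul_le_mul_of_nonneg_left h2 hx1.le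
      have h6 : x * K ≤ (θ + 1) * K := mul_le_mul_of_nonneg_right (hx.2.trans hx01) hK0
      linarith
    linarith
  -- contradiction as `x → θ`
  have hlim : Tendsto (fun x : ℝ => Real.log (x - θ)) (𝓝[>] θ) atBot := by
    refine Real.tendsto_log_nhdsGT_zero.comp ?_
    refine tendsto_nhdsWithin_iff.mpr ⟨?_, ?_⟩
    · have : Tendsto (fun x : ℝ => x - θ) (𝓝 θ) (𝓝 (θ - θ)) :=
        (continuous_id.sub continuous_const).tendsto θ
      rw [sub_self] at this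
      exact this.mono_left nhdsWithin_le_nhds
    · filter_upwards [self_mem_nhdsWithin] with x hx
      exact Set.mem_Ioi.mpr (sub_pos.mpr (Set.mem_Ioi.mp hx))
  set B : ℝ := (-(θ + 1) * K + ((E (θ : ℂ)).re - 1) - ψ x0) / ρ.re with hB
  have hev : ∀ᶠ x : ℝ in 𝓝[>] θ, Real.log (x - θ) < B + (C * θ) / ρ.re :=
    hlim.eventually (eventually_lt_atBot _)
  have hin : ∀ᶠ x : ℝ in 𝓝[>] θ, x ∈ Set.Ioc θ x0 := Ioc_mem_nhdsGT hx0θ
  obtain ⟨x, hx1, hx2⟩ := (hev.and hin).exists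
  have h1 : ψ x ≤ ψ x0 := hmono hx2 ⟨hx0θ, le_rfl⟩ hx2.2
  have h2 := hlow x hx2
  have h3 : ρ.re * Real.log (x - θ) < ρ.re * (B + (C * θ) / ρ.re) := mul_lt_mul_of_pos_left hx1 hρ
  have h4 : ρ.re * (B + (C * θ) / ρ.re) = -(θ + 1) * K + ((E (θ : ℂ)).re - 1) - ψ x0 + C * θ := by
    rw [hB]; field_simp
  have h5 : ψ x = (F (x : ℂ)).re - ρ.re * Real.log (x - θ) + C * x := rfl
  have h6 : C * θ ≤ C * x := mul_le_mul_of_nonneg_left hx2.1.le (abs_nonneg _)
  linarith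

end Pool.Agent.K6.H62.PR
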