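import Pool.Agent.K6.H62.PR.Stm

/-! Piece STP (seat helper7). -/

set_option autoImplicit false

open Complex Filter Topology

namespace Pool.Agent.K6.H62.PR

namespace STP

theorem cf_abs {b : ℕ} (a1 a : ZMod b) (n : ℕ) : |cf a1 a n| ≤ 1 := by
  unfold cf
  split_ifs <;> norm_num

theorem cf_zero {b : ℕ} (a1 a : ZMod b) : cf a1 a 0 = 0 := by
  unfold cf
  rw [if_neg Nat.not_prime_zero]

theorem DD_abs {c : ℕ → ℝ} (hc : ∀ n, |c n| ≤ 1) (h0 : c 0 = 0) (n : ℕ) : |DD c n| ≤ n := by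
  unfold DD
  rw [Finset.sum_range_succ', h0, add_zero]
  refine (Finset.abs_sum_le_sum_abs _ _).trans ?_
  refine (Finset.sum_le_sum fun k _ => hc (k + 1)).trans ?_
  rw [Finset.sum_const, Finset.card_range, nsmul_eq_mul, mul_one]

theorem dd_norm {c : ℕ → ℝ} (hc : ∀ n, |c n| ≤ 1) (h0 : c 0 = 0) (n : ℕ) (hn : n ≠ 0) :
    ‖dd c n‖ ≤ 1 := by
  unfold dd
  rw [Complex.norm_real, Real.norm_eq_abs, abs_div, Nat.abs_cast]
  have hn' : (0 : ℝ) < n := by exact_mod_cast Nat.pos_of_ne_zero hn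
  rw [div_le_one hn']
  exact DD_abs hc h0 n

theorem mero {Q h : ℂ → ℂ} {z ρ : ℂ} (hh : AnalyticAt ℂ h z)
    (hq : ∀ᶠ s in 𝓝[≠] z, Q s = ρ / (s - z) + h s) : MeromorphicAt Q z := by
  have h1 : MeromorphicAt (fun s => ρ / (s - z) + h s) z :=
    ((MeromorphicAt.const ρ z).div ((MeromorphicAt.id z).sub (MeromorphicAt.const z z))).add
      hh.meromorphicAt
  refine h1.congr ?_
  filter_upwards [hq] with s hs
  rw [hs]

/-- the values of `Q` near `θ` -/
theorem near (F Q h : ℂ → ℂ) (θ : ℝ) (ρ : ℂ)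
    (hF : DifferentiableOn ℂ F {s : ℂ | θ < s.re})
    (hFQ : ∀ z ∈ {s : ℂ | θ < s.re}, ∀ᶠ s in 𝓝[≠] z, deriv F s = Q s)
    (hh : AnalyticAt ℂ h (θ : ℂ))
    (hq : ∀ᶠ s in 𝓝[≠] (θ : ℂ), Q s = ρ / (s - θ) + h s) :
    ∀ᶠ s in 𝓝 (θ : ℂ), θ < s.re → HasDerivAt F (Q s) s := by
  have hU : IsOpen {s : ℂ | θ < s.re} := isOpen_lt continuous_const Complex.continuous_re
  have h1 := eventually_nhdsWithin_iff.1 (eventually_eventually_nhdsWithin.2 hq)
  filter_upwards [h1, hh.eventually_analyticAt] with s hs1 hs2 hre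
  have hne : s ≠ (θ : ℂ) := by
    intro h
    rw [h, Complex.ofReal_re] at hre
    exact lt_irrefl _ hre
  have hs1' := hs1 hne
  rw [IsOpen.nhdsWithin_eq (isOpen_compl_singleton (x := (θ : ℂ)))
    (Set.mem_compl_singleton_iff.2 hne)] at hs1'
  have h4 := hFQ s hre
  have h5 : ∀ᶠ x in 𝓝[≠] s, deriv F x = ρ / (x - θ) + h x := by
    filter_upwards [h4, hs1'.filter_mono nhdsWithin_le_nhds] with x hx1 hx2
    rw [hx1, hx2]
  have c1 : ContinuousAt (deriv F) s :=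
    ((hF.deriv hU).differentiableAt (hU.mem_nhds hre)).continuousAt
  have c2 : ContinuousAt (fun x => ρ / (x - θ) + h x) s := by
    refine ContinuousAt.add ?_ hs2.continuousAt
    refine ContinuousAt.div continuousAt_const (continuousAt_id.sub continuousAt_const) ?_
    exact sub_ne_zero.2 hne
  have t1 : Tendsto (deriv F) (𝓝[≠] s) (𝓝 (deriv F s)) := c1.tendsto.mono_left nhdsWithin_le_nhds
  have t2 : Tendsto (fun x => ρ / (x - θ) + h x) (𝓝[≠] s) (𝓝 (ρ / (s - θ) + h s)) :=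
    c2.tendsto.mono_left nhdsWithin_le_nhds
  have h6 : deriv F s = ρ / (s - θ) + h s := tendsto_nhds_unique (t1.congr' h5) t2
  have h7 : Q s = ρ / (s - θ) + h s := hs1'.self_of_nhds
  have h8 := (hF.differentiableAt (hU.mem_nhds hre)).hasDerivAt
  rw [h6, ← h7] at h8
  exact h8

end STP

/-- piece STP -/
theorem t_STP (h1 : S_ABL) (h2 : S_QFF) (h3 : S_IDT) (h4 : S_QLC) (h5 : S_STA) (h6 : S_STB)
    (_h7 : S_TRV) (_h8 : S_QFB) : S_STP := by
  intro b _ a1 a ha1 ha hev hrho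
  obtain ⟨n0, hn0⟩ := hev
  set c : ℕ → ℝ := cf a1 a with hc
  have hcb : ∀ n, |c n| ≤ 1 := STP.cf_abs a1 a
  have hc0 : c 0 = 0 := STP.cf_zero a1 a
  obtain ⟨E, hE, -, hAbel⟩ := h1 c hcb hc0
  by_cases hex : ∃ σ0 : ℝ, σ0 < 1 / 2 ∧ LSeriesSummable (dd c) (σ0 : ℂ)
  · obtain ⟨σ0, hσ0, hs⟩ := hex
    refine ⟨σ0, hσ0, fun σ hσ => hs.of_re_le_re ?_⟩
    rw [Complex.ofReal_re, Complex.ofReal_re]
    exact hσ.le
  exfalso
  push Not at hex
  set A : Set ℝ := {σ : ℝ | LSeriesSummable (dd c) (σ : ℂ)} with hA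
  have h2A : (2 : ℝ) ∈ A := by
    show LSeriesSummable (dd c) ((2 : ℝ) : ℂ)
    refine LSeriesSummable_of_bounded_of_one_lt_re (m := 1) (fun n hn => STP.dd_norm hcb hc0 n hn) ?_
    rw [Complex.ofReal_re]
    norm_num
  have hlb : ∀ σ ∈ A, 1 / 2 ≤ σ := fun σ hσ => not_lt.1 fun h => hex σ h hσ
  set θ : ℝ := sInf A with hθ
  have hθ1 : 1 / 2 ≤ θ := le_csInf ⟨2, h2A⟩ hlb
  have hbdd : BddBelow A := ⟨1 / 2, hlb⟩
  have hθ0 : 0 < θ := by linarith
  have hsum : ∀ σ : ℝ, θ < σ → LSeriesSummable (dd c) (σ : ℂ) := by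
    intro σ hσ
    obtain ⟨σ', hσ', hlt⟩ := exists_lt_of_csInf_lt ⟨2, h2A⟩ hσ
    refine LSeriesSummable.of_re_le_re ?_ hσ'
    rw [Complex.ofReal_re, Complex.ofReal_re]
    exact hlt.le
  set U : Set ℂ := {s : ℂ | θ < s.re} with hUdef
  have hU : IsOpen U := isOpen_lt continuous_const Complex.continuous_re
  have habs : LSeries.abscissaOfAbsConv (dd c) ≤ (θ : EReal) :=
    LSeries.abscissaOfAbsConv_le_of_forall_lt_LSeriesSummable hsum
  set F : ℂ → ℂ := fun s => s * LSeries (dd c) s + E s with hFdef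
  have hF : DifferentiableOn ℂ F U := by
    refine DifferentiableOn.add (DifferentiableOn.mul differentiableOn_id ?_) ?_
    · refine (LSeries_differentiableOn (dd c)).mono fun s hs => ?_
      exact lt_of_le_of_lt habs (by exact_mod_cast hs)
    · exact hE.mono fun s hs => lt_trans hθ0 hs
  have hder : ∀ s : ℂ, 1 < s.re → deriv F s = QQ a1 a s := by
    intro s hs
    have hU1 : IsOpen {s : ℂ | 1 < s.re} := isOpen_lt continuous_const Complex.continuous_re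
    have e1 : F =ᶠ[𝓝 s] LSeries (cc c) := by
      filter_upwards [hU1.mem_nhds hs] with t ht
      rw [hFdef]
      exact (hAbel t ht).symm
    rw [e1.deriv_eq]
    exact (h2 b a1 a ha1 ha s hs).deriv
  have hmer : MeromorphicOn (QQ a1 a) U := by
    intro z hz
    obtain ⟨h, hh, hq⟩ := h4 b a1 a ha1 ha z (hθ1.trans (le_of_lt hz))
    exact STP.mero hh hq
  set z0 : ℂ := ((θ + 2 : ℝ) : ℂ) with hz0
  have hz0U : z0 ∈ U := by
    show θ < z0.re
    rw [hz0, Complex.ofReal_re]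
    linarith
  have hpre : IsPreconnected U := (convex_halfSpace_re_gt θ).isPreconnected
  have hid := h3 U (deriv F) (QQ a1 a) z0 hU hpre (hF.deriv hU) hmer hz0U (by
    have hU1 : IsOpen {s : ℂ | 1 < s.re} := isOpen_lt continuous_const Complex.continuous_re
    have hz1 : z0 ∈ {s : ℂ | 1 < s.re} := by
      show 1 < z0.re
      rw [hz0, Complex.ofReal_re]
      linarith
    filter_upwards [hU1.mem_nhds hz1] with s hs
    exact hder s hs)
  obtain ⟨h, hh, hq⟩ := h4 b a1 a ha1 ha (θ : ℂ) (by rw [Complex.ofReal_re]; exact hθ1)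
  have hnear := STP.near F (QQ a1 a) h θ (rho a1 a (θ : ℂ)) hF hid hh hq
  have hnn : ∀ n, n0 ≤ n → 0 ≤ (fun n => DD c n / n) n := fun n hn =>
    div_nonneg (hn0 n hn) (Nat.cast_nonneg n)
  rcases hrho θ hθ1 with hpos | hzero
  · exact h5 (fun n => DD c n / n) n0 θ E (QQ a1 a) h (rho a1 a (θ : ℂ)) hnn hθ0 hsum hE hh hq
      hnear hpos
  · rw [hzero] at hq
    obtain ⟨ε, hε, hs⟩ := h6 (fun n => DD c n / n) n0 θ E (QQ a1 a) h hnn hθ0 hsum hE hh (by
      filter_upwards [hq] with s hs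
      rw [hs, zero_div, zero_add]) hnear
    have h9 : θ ≤ θ - ε := csInf_le hbdd hs
    linarith

end Pool.Agent.K6.H62.PR
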