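import Pool.Agent.K6.H62.PR.Stm

set_option autoImplicit false

open Complex Filter Topology Set

namespace Pool.Agent.K6.H62.PR

namespace TRV

variable {b : ℕ} [NeZero b]

lemma analyticAt_L (χ : DirichletCharacter ℂ b) {z : ℂ} (h : χ ≠ 1 ∨ z ≠ 1) :
    AnalyticAt ℂ χ.LFunction z := by
  rcases h with h | h
  · exact (DirichletCharacter.differentiable_LFunction h).analyticAt z
  · rw [analyticAt_iff_eventually_differentiableAt]
    filter_upwards [isOpen_ne.mem_nhds h] with w hw
    exact DirichletCharacter.differentiableAt_LFunction _ _ (Or.inl hw)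

lemma meromorphicAt_L (χ : DirichletCharacter ℂ b) (z : ℂ) : MeromorphicAt χ.LFunction z := by
  by_cases h : χ ≠ 1 ∨ z ≠ 1
  · exact (analyticAt_L χ h).meromorphicAt
  · push Not at h
    obtain ⟨rfl, rfl⟩ := h
    have hg : AnalyticAt ℂ (DirichletCharacter.LFunctionTrivChar₁ b) 1 :=
      (DirichletCharacter.differentiable_LFunctionTrivChar₁ b).analyticAt 1
    have h1 : MeromorphicAt (fun s : ℂ => s - 1) 1 := by fun_prop
    have h2 := hg.meromorphicAt.div h1
    refine h2.congr ?_
    filter_upwards [self_mem_nhdsWithin] with s hs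
    have hs : s ≠ 1 := hs
    simp only [Pi.div_apply, DirichletCharacter.LFunctionTrivChar₁, Function.update_of_ne hs]
    exact mul_div_cancel_left₀ _ (sub_ne_zero.2 hs)

end TRV

open TRV in
theorem t_TRV : S_TRV := by
  intro b _
  refine ⟨?_, ?_, ?_⟩
  · have hd := DirichletCharacter.differentiable_LFunctionTrivChar₁ b
    have hg : AnalyticAt ℂ (DirichletCharacter.LFunctionTrivChar₁ b) 1 := hd.analyticAt 1
    have h1 := DirichletCharacter.LFunctionTrivChar₁_apply_one_ne_zero b
    refine ⟨fun s => deriv (DirichletCharacter.LFunctionTrivChar₁ b) s /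
      DirichletCharacter.LFunctionTrivChar₁ b s, hg.deriv.div hg h1, ?_⟩
    have hne : ∀ᶠ s in 𝓝[≠] (1 : ℂ), DirichletCharacter.LFunctionTrivChar₁ b s ≠ 0 :=
      (hg.continuousAt.eventually_ne h1).filter_mono nhdsWithin_le_nhds
    filter_upwards [hne, self_mem_nhdsWithin] with s hs hs1
    have hs1 : s ≠ 1 := hs1
    rw [DirichletCharacter.deriv_LFunctionTrivChar₁_apply_of_ne_one b hs1]
    rw [DirichletCharacter.LFunctionTrivChar₁, Function.update_of_ne hs1] at hs ⊢
    have h2 : s - 1 ≠ 0 := sub_ne_zero.2 hs1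
    have h3 : DirichletCharacter.LFunctionTrivChar b s ≠ 0 := right_ne_zero_of_mul hs
    unfold ell
    change deriv (DirichletCharacter.LFunctionTrivChar b) s /
      DirichletCharacter.LFunctionTrivChar b s = _
    field_simp
    ring
  · intro χ z hz h
    have h1 := analyticAt_L χ h
    exact h1.deriv.div h1 (DirichletCharacter.LFunction_ne_zero_of_one_le_re χ h hz)
  · intro χ z
    exact (meromorphicAt_L χ z).deriv.div (meromorphicAt_L χ z)

end Pool.Agent.K6.H62.PR
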