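import Pool.Agent.H370R2.Count
import Pool.Agent.H370R2.DirGood
import Pool.Agent.K6.H62.PR.Stm

/-!
Piece ZER of the project of helper62 (`MP_c04f8f_nt`), by helper36; the first lemma copies the proof
of `Pool/Agent/H332R2/FL/ZeroExists.lean` (starting library).
-/

open Complex Filter Topology

namespace Pool.Agent.K6.H62.PR

namespace ZER

/-- a function of the class `GoodL` has a zero with real part in `[1/2, 1)` -/
theorem good_zero {F : ℂ → ℂ} (hF : H370.GoodL F) :
    ∃ ρ : ℂ, F ρ = 0 ∧ 1 / 2 ≤ ρ.re ∧ ρ.re < 1 := by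
  obtain ⟨C, T0, hC, hT0, h⟩ := H370.nn_asymp hF
  have hev : ∃ U : ℝ, T0 ≤ U ∧ 2 * Real.pi * C < Real.log U := by
    refine ⟨max T0 (Real.exp (2 * Real.pi * C + 1)), le_max_left _ _, ?_⟩
    have h1 : Real.exp (2 * Real.pi * C + 1) ≤
        max T0 (Real.exp (2 * Real.pi * C + 1)) := le_max_right _ _
    have h2 := Real.log_le_log (Real.exp_pos _) h1
    rw [Real.log_exp] at h2
    linarith
  obtain ⟨U, hU0, hUlog⟩ := hev
  have hUpos : 0 < U := by linarith
  have hb := h U hU0 U (2 * U) le_rfl (by linarith) (by linarith) le_rfl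
  have hNN : 0 < (H370.NN F U (2 * U) : ℝ) := by
    have h1 := (abs_le.1 hb).1
    have h2 : C * U < U * Real.log U / (2 * Real.pi) := by
      rw [lt_div_iff₀ (by positivity)]
      nlinarith [Real.pi_pos]
    linarith
  have hne : (H370.zset F U (2 * U)).Nonempty := by
    by_contra hcon
    rw [Set.not_nonempty_iff_eq_empty] at hcon
    unfold H370.NN at hNN
    rw [hcon] at hNN
    simp at hNN
  obtain ⟨s, hs0, hs1, hsT, hsT2, hs⟩ := hne
  have him : 1 < s.im := by linarith
  by_cases hre : 1 / 2 ≤ s.re
  · exact ⟨s, hs, hre, hs1⟩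
  · push Not at hre
    have hsym := hF.symm s hs0 hs1 him.le
    refine ⟨1 - (starRingEnd ℂ) s, ?_, ?_, ?_⟩
    · have hne0 : analyticOrderAt F s ≠ 0 := by
        have han : AnalyticAt ℂ F s := hF.an s (by linarith)
        rw [Ne, han.analyticOrderAt_eq_zero]
        simpa using hs
      rw [← hsym] at hne0
      have han' : AnalyticAt ℂ F (1 - (starRingEnd ℂ) s) :=
        hF.an _ (by simp; linarith)
      by_contra hcon
      exact hne0 (han'.analyticOrderAt_eq_zero.2 hcon)
    · simp; linarith
    · simp; linarith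

/-- a zero of the L-function of a nontrivial character has positive finite order -/
theorem order_pos {b : ℕ} [NeZero b] (χ : DirichletCharacter ℂ b) (hχ : χ ≠ 1) (z : ℂ)
    (hz : χ.LFunction z = 0) : 0 < analyticOrderNatAt χ.LFunction z := by
  have hd : Differentiable ℂ χ.LFunction := DirichletCharacter.differentiable_LFunction hχ
  have han : AnalyticAt ℂ χ.LFunction z := hd.analyticAt z
  have h0 : analyticOrderAt χ.LFunction z ≠ 0 := by
    rw [Ne, han.analyticOrderAt_eq_zero]
    simpa using hz
  have htop : analyticOrderAt χ.LFunction z ≠ ⊤ := by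
    intro htop
    rw [analyticOrderAt_eq_top] at htop
    have hall : AnalyticOnNhd ℂ χ.LFunction Set.univ := fun w _ => hd.analyticAt w
    have := hall.eqOn_zero_of_preconnected_of_eventuallyEq_zero isPreconnected_univ
      (Set.mem_univ z) htop (Set.mem_univ (2 : ℂ))
    exact DirichletCharacter.LFunction_ne_zero_of_one_le_re χ (Or.inl hχ)
      (by norm_num : (1 : ℝ) ≤ (2 : ℂ).re) this
  unfold analyticOrderNatAt
  rw [Nat.pos_iff_ne_zero]
  intro h
  rcases (ENat.toNat_eq_zero).1 h with h | h
  · exact h0 h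
  · exact htop h

end ZER

theorem t_ZER : S_ZER := by
  intro b _ χ hχ
  have : NeZero χ.conductor := ⟨χ.conductor_ne_zero⟩
  have hg := H370.good_dirichlet χ.primitiveCharacter χ.primitiveCharacter_isPrimitive
  obtain ⟨z, hz, h1, h2⟩ := ZER.good_zero hg
  have hp : χ.primitiveCharacter ≠ 1 := by
    intro h
    apply hχ
    have := χ.changeLevel_primitiveCharacter
    rw [h, DirichletCharacter.changeLevel_one] at this
    exact this.symm
  have e := DirichletCharacter.LFunction_changeLevel χ.conductor_dvd_level χ.primitiveCharacter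
    (s := z) (Or.inl hp)
  rw [DirichletCharacter.changeLevel_primitiveCharacter, hz, zero_mul] at e
  exact ⟨z, h1, h2, e, ZER.order_pos χ hχ z e⟩

end Pool.Agent.K6.H62.PR
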